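import Pool.Agent.R926.SC.Kempe

set_option autoImplicit false
set_option linter.unusedSectionVars false

/-! # Nowhere-zero 4-flows: contraction of a chain of sets with at most four new edges each -/

namespace Pool.Agent.R926.SC

open Finset Pool.Agent.TH676.Z Pool.Agent.Y335.FL

variable {V E : Type} [Fintype V] [DecidableEq V] [Fintype E] [DecidableEq E]

theorem trailA (hx : St_circEx) (src dst : E → V) (n : ℕ) :
    ∀ (F S : Finset E), BrM src dst F S → S.card = n → n ≤ 4 →
    FlA src dst (F ∪ S) → FlA src dst F := by
  induction n using Nat.strong_induction_on with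
  | _ n ih =>
  intro F S hB hn hn11 hFS
  rcases S.eq_empty_or_nonempty with rfl | hSne
  · simpa using hFS
  obtain ⟨r, hr1, -, hr3, hr4⟩ := quotC src dst F
  have hfin : FlA (r ∘ src) (r ∘ dst) ∅ → FlA src dst F := by
    rintro ⟨x, y, h1, h2, h3⟩
    obtain ⟨x', hx1, hx2⟩ := hr4 x h1
    obtain ⟨y', hy1, hy2⟩ := hr4 y h2
    refine ⟨x', y', hx1, hy1, fun e he => ?_⟩
    rw [hx2 e he, hy2 e he]
    exact h3 e (notMem_empty _)
  by_cases hlp : ∃ e ∈ S, r (src e) = r (dst e)
  · obtain ⟨e, heS, he⟩ := hlp
    have h1 : FlA src dst (insert e F) := by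
      refine ih (S.erase e).card ?_ (insert e F) (S.erase e) ?_ rfl ?_ ?_
      · rw [← hn]; exact card_erase_lt_of_mem heS
      · intro Y hY
        have h2 : e ∉ crs src dst Y := fun h => (disjoint_left.1 hY) h (mem_insert_self _ _)
        have h3 : crs src dst Y ∩ S.erase e = crs src dst Y ∩ S := by
          ext a
          simp only [mem_inter, mem_erase]
          constructor
          · rintro ⟨h4, -, h5⟩
            exact ⟨h4, h5⟩
          · rintro ⟨h4, h5⟩
            exact ⟨h4, fun h => h2 (h ▸ h4), h5⟩
        rw [h3]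
        exact hB Y (disjoint_of_subset_right (subset_insert _ _) hY)
      · exact (card_le_card (erase_subset _ _)).trans (hn ▸ hn11)
      · refine flA_mono src dst ?_ hFS
        intro a ha
        simp only [mem_union, mem_insert, mem_erase] at ha ⊢
        tauto
    have h2 := flA_comp src dst r _ h1
    apply hfin
    refine flA_loops (r ∘ src) (r ∘ dst) (F := insert e F) (X := ∅) ?_ (by simpa using h2)
    intro a ha
    rcases mem_insert.mp ha with rfl | ha
    · exact he
    · exact hr1 a ha
  · push Not at hlp
    have hdeg : ∀ x, ∀ e ∈ S, ((r ∘ src) e = x ∨ (r ∘ dst) e = x) →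
        ∃ e' ∈ S, e' ≠ e ∧ ((r ∘ src) e' = x ∨ (r ∘ dst) e' = x) := by
      intro x e heS hex
      by_contra hcon
      push Not at hcon
      set Y : Finset V := univ.filter (fun y => r y = x) with hYdef
      have hYm : ∀ y, y ∈ Y ↔ r y = x := by simp [hYdef]
      have hdis : Disjoint (crs src dst Y) F := by
        rw [disjoint_left]
        intro a ha haF
        rw [mem_crs, hYm, hYm, hr1 a haF] at ha
        exact ha Iff.rfl
      refine hB Y hdis ?_
      rw [card_eq_one]
      refine ⟨e, ?_⟩
      ext a
      rw [mem_inter, mem_singleton, mem_crs, hYm, hYm]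
      constructor
      · rintro ⟨h1, h2⟩
        by_contra hae
        have h3 := hcon a h2 hae
        simp only [Function.comp] at h3
        exact h1 ⟨fun h => absurd h h3.1, fun h => absurd h h3.2⟩
      · rintro rfl
        refine ⟨fun h => ?_, heS⟩
        have h3 := hlp a heS
        simp only [Function.comp] at hex
        rcases hex with h4 | h4
        · exact h3 (h4.trans (h.1 h4).symm)
        · exact h3 ((h.2 h4).trans h4.symm)
    obtain ⟨k, v, ed, hv, hed, hJ, hS⟩ := hx V E (r ∘ src) (r ∘ dst) S hSne hlp hdeg
    have hsub : univ.image ed ⊆ S := by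
      intro a ha
      obtain ⟨i, -, rfl⟩ := mem_image.mp ha
      exact hS i
    have hcard : (univ.image ed).card = k + 2 := by
      rw [card_image_of_injective _ hed]; simp
    have hle := card_le_card hsub
    have h1 : FlA src dst (F ∪ univ.image ed) := by
      refine ih (S \ univ.image ed).card ?_ (F ∪ univ.image ed) (S \ univ.image ed) ?_ rfl ?_ ?_
      · rw [card_sdiff_of_subset hsub]; omega
      · intro Y hY
        have hd := disjoint_union_right.1 hY
        have h3 : crs src dst Y ∩ (S \ univ.image ed) = crs src dst Y ∩ S := by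
          ext a
          simp only [mem_inter, mem_sdiff]
          constructor
          · rintro ⟨h4, h5, -⟩
            exact ⟨h4, h5⟩
          · rintro ⟨h4, h5⟩
            exact ⟨h4, h5, fun h => (disjoint_left.1 hd.2) h4 h⟩
        rw [h3]
        exact hB Y hd.1
      · rw [card_sdiff_of_subset hsub]; omega
      · refine flA_mono src dst ?_ hFS
        intro a ha
        simp only [mem_union, mem_sdiff] at ha ⊢
        tauto
    have h2 := flA_comp src dst r _ h1
    have h3 : FlA (r ∘ src) (r ∘ dst) (univ.image ed) :=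
      flA_loops (r ∘ src) (r ∘ dst) (F := F) (fun a ha => hr1 a ha) h2
    apply hfin
    rcases Nat.lt_or_ge (k + 2) 4 with hk | hk
    · exact contractA (r ∘ src) (r ∘ dst) (by omega) hed hJ h3
    · obtain rfl : k = 2 := by omega
      exact contractA4 hx (r ∘ src) (r ∘ dst) hv hed hJ h3

theorem foldA (hx : St_circEx) (src dst : E → V) (m : ℕ) :
    ∀ C : Fin m → Finset E,
    (∀ i, BrM src dst ((univ.filter (fun j => j < i)).biUnion C)
      (C i \ (univ.filter (fun j => j < i)).biUnion C)) →
    (∀ i, (C i \ (univ.filter (fun j => j < i)).biUnion C).card ≤ 4) →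
    FlA src dst (univ.biUnion C) → FlA src dst ∅ := by
  induction m with
  | zero => intro C _ _ h; simpa using h
  | succ m ih =>
    intro C h1 h2 h
    have e0 : (univ.filter (fun j => j < Fin.last m)).biUnion C =
        univ.biUnion (fun i : Fin m => C i.castSucc) := by
      ext a
      simp only [mem_biUnion, mem_filter, mem_univ, true_and]
      constructor
      · rintro ⟨j, hj, ha⟩
        exact ⟨⟨j, hj⟩, ha⟩
      · rintro ⟨j, ha⟩
        exact ⟨j.castSucc, Fin.castSucc_lt_last j, ha⟩
    have e1 : ∀ i : Fin m, (univ.filter (fun j => j < i.castSucc)).biUnion C =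
        (univ.filter (fun j => j < i)).biUnion (fun i : Fin m => C i.castSucc) := by
      intro i
      ext a
      simp only [mem_biUnion, mem_filter, mem_univ, true_and]
      constructor
      · rintro ⟨j, hj, ha⟩
        have hjm : (j : ℕ) < m := lt_trans hj i.2
        exact ⟨⟨j, hjm⟩, hj, ha⟩
      · rintro ⟨j, hj, ha⟩
        exact ⟨j.castSucc, hj, ha⟩
    refine ih (fun i => C i.castSucc) (fun i => ?_) (fun i => ?_) ?_
    · rw [← e1]; exact h1 i.castSucc
    · rw [← e1]; exact h2 i.castSucc
    · have h3 := h1 (Fin.last m)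
      have h4 := h2 (Fin.last m)
      rw [e0] at h3 h4
      refine trailA hx src dst _ _ _ h3 rfl h4 (flA_mono src dst ?_ h)
      intro a ha
      obtain ⟨j, -, hj⟩ := mem_biUnion.mp ha
      rw [mem_union]
      rcases Fin.lt_or_eq_of_le (Fin.le_last j) with hlt | rfl
      · left
        exact mem_biUnion.mpr ⟨⟨j, hlt⟩, mem_univ _, hj⟩
      · by_cases h5 : a ∈ univ.biUnion (fun i : Fin m => C i.castSucc)
        · exact Or.inl h5
        · exact Or.inr (mem_sdiff.mpr ⟨hj, h5⟩)

theorem deg_par (s t : E → V) (r : V → V) (w : V) :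
    Odd (TH362.TF.deg (r ∘ s) (r ∘ t) univ w) ↔
      Odd (crs s t (univ.filter (fun x => r x = w))).card := by
  have h : TH362.TF.deg (r ∘ s) (r ∘ t) univ w =
      (crs s t (univ.filter (fun x => r x = w))).card +
        2 * (univ.filter (fun e => r (s e) = w ∧ r (t e) = w)).card := by
    unfold TH362.TF.deg crs
    rw [card_filter, card_filter, mul_sum, ← sum_add_distrib]
    refine sum_congr rfl fun e _ => ?_
    simp only [Function.comp, mem_filter, mem_univ, true_and]
    by_cases h1 : r (s e) = w <;> by_cases h2 : r (t e) = w <;> simp [h1, h2]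
  rw [h]
  constructor
  · intro h1
    exact (Nat.odd_add.mp h1).mpr (even_two_mul _)
  · intro h1
    exact h1.add_even (even_two_mul _)

/-- **Four-flows, general form.**  The graph obtained by contracting the union of the sets `C i`,
each with at most four new edges, has at most sixteen vertices of odd degree. -/
theorem fourR (hx : St_circEx) (s t : E → V) (m : ℕ) (C : Fin m → Finset E)
    (h1 : ∀ i, BrM s t ((univ.filter (fun j => j < i)).biUnion C)
      (C i \ (univ.filter (fun j => j < i)).biUnion C))
    (h2 : ∀ i, (C i \ (univ.filter (fun j => j < i)).biUnion C).card ≤ 4)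
    (hb : TH362.TF.N1 s t univ)
    (h16 : ∀ r : V → V, (∀ e ∈ univ.biUnion C, r (s e) = r (t e)) →
      (∀ Y : Finset V, Disjoint (crs s t Y) (univ.biUnion C) →
        ∀ x y, r x = r y → (x ∈ Y ↔ y ∈ Y)) →
      (TH362.TF.odd (r ∘ s) (r ∘ t) univ).card ≤ 16) :
    TH362.TF.NZ s t univ ∨ TH362.TF.PQ s t univ := by
  classical
  set F := univ.biUnion C with hF
  obtain ⟨r, q1, -, q3, q4⟩ := quotC s t F
  have hodd := h16 r q1 q3
  rcases TH362.TF.main16 (r ∘ s) (r ∘ t) univ (fun x => hb (x ∘ r)) hodd with h | h
  · left
    obtain ⟨φ, p1, p2⟩ := h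
    have hbx : ∀ v, bd2 (r ∘ s) (r ∘ t) (fun e => (φ e).1) v = 0 := by
      intro v
      have h3 := congrArg Prod.fst (p2 v)
      rw [Prod.fst_sum] at h3
      refine Eq.trans ?_ h3
      unfold bd2
      refine sum_congr rfl fun e _ => ?_
      split_ifs <;> simp
    have hby : ∀ v, bd2 (r ∘ s) (r ∘ t) (fun e => (φ e).2) v = 0 := by
      intro v
      have h3 := congrArg Prod.snd (p2 v)
      rw [Prod.snd_sum] at h3
      refine Eq.trans ?_ h3
      unfold bd2
      refine sum_congr rfl fun e _ => ?_
      split_ifs <;> simp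
    obtain ⟨x, hx1, hx2⟩ := q4 _ hbx
    obtain ⟨y, hy1, hy2⟩ := q4 _ hby
    have hA : FlA s t F := by
      refine ⟨x, y, hx1, hy1, fun e he => ?_⟩
      rw [hx2 e he, hy2 e he]
      have h3 := p1 e (mem_univ e)
      by_contra hcon
      rw [not_or, not_not, not_not] at hcon
      exact h3 (Prod.ext hcon.1 hcon.2)
    obtain ⟨x', y', z1, z2, z3⟩ := foldA hx s t m C h1 h2 hA
    refine ⟨fun e => (x' e, y' e), fun e _ h => ?_, fun v => ?_⟩
    · have h4 := congrArg Prod.fst h
      have h5 := congrArg Prod.snd h
      rcases z3 e (notMem_empty _) with h6 | h6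
      · exact h6 h4
      · exact h6 h5
    · unfold TH362.TF.Cons
      refine Prod.ext ?_ ?_
      · rw [Prod.fst_sum]
        refine Eq.trans ?_ (z1 v)
        unfold bd2
        refine sum_congr rfl fun e _ => ?_
        split_ifs <;> simp
      · rw [Prod.snd_sum]
        refine Eq.trans ?_ (z2 v)
        unfold bd2
        refine sum_congr rfl fun e _ => ?_
        split_ifs <;> simp
  · right
    obtain ⟨κ, k1, k2⟩ := h
    exact ⟨κ ∘ r, fun k => k1 k, fun k l hkl => k2 k l hkl⟩


/-- **Four-flows.**  At most sixteen components of the union of the sets `C i`, each with at most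
four new edges, have an odd number of boundary edges. -/
theorem four (hx : St_circEx) (s t : E → V) (m : ℕ) (C : Fin m → Finset E)
    (h1 : ∀ i, BrM s t ((univ.filter (fun j => j < i)).biUnion C)
      (C i \ (univ.filter (fun j => j < i)).biUnion C))
    (h2 : ∀ i, (C i \ (univ.filter (fun j => j < i)).biUnion C).card ≤ 4)
    (hb : TH362.TF.N1 s t univ)
    (h16 : ((univ.image (comp s t (univ.biUnion C))).filter
      (fun X => Odd (crs s t X).card)).card ≤ 16) :
    TH362.TF.NZ s t univ ∨ TH362.TF.PQ s t univ := by
  classical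
  set F := univ.biUnion C with hF
  refine fourR hx s t m C h1 h2 hb ?_
  intro r q1 q3
  have hr : ∀ x y, r x = r y ↔ y ∈ comp s t F x := by
    intro x y
    constructor
    · intro h
      have hd : Disjoint (crs s t (comp s t F x)) F := by
        rw [disjoint_left]
        intro e he heF
        rw [mem_crs] at he
        apply he
        rw [mem_comp, mem_comp]
        have h5 : Relation.EqvGen (fun a b => ∃ e ∈ F, s e = a ∧ t e = b) (s e) (t e) :=
          Relation.EqvGen.rel _ _ ⟨e, heF, rfl, rfl⟩
        exact ⟨fun h => h.trans _ _ _ h5, fun h => h.trans _ _ _ (h5.symm _ _)⟩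
      exact (q3 _ hd x y h).1 ((mem_comp s t F x x).mpr (Relation.EqvGen.refl _))
    · intro h
      rw [mem_comp] at h
      induction h with
      | rel a b hab =>
        obtain ⟨e, he, rfl, rfl⟩ := hab
        exact q1 e he
      | refl a => rfl
      | symm a b _ ih => exact ih.symm
      | trans a b c _ _ i1 i2 => exact i1.trans i2
  have hodd : (TH362.TF.odd (r ∘ s) (r ∘ t) univ).card ≤ 16 := by
    refine le_trans ?_ h16
    have hne : ∀ w, Odd (crs s t (univ.filter (fun x => r x = w))).card → ∃ x, r x = w := by
      intro w hw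
      by_contra hcon
      push Not at hcon
      have h5 : univ.filter (fun x => r x = w) = ∅ := by
        rw [filter_eq_empty_iff]
        exact fun x _ => hcon x
      rw [h5] at hw
      simp [crs] at hw
    refine card_le_card_of_injOn (fun w => univ.filter (fun x => r x = w)) ?_ ?_
    · intro w hw
      rw [mem_coe] at hw
      unfold TH362.TF.odd at hw
      rw [mem_filter, deg_par] at hw
      obtain ⟨x, hxw⟩ := hne w hw.2
      rw [mem_coe, mem_filter, mem_image]
      refine ⟨⟨x, mem_univ _, ?_⟩, hw.2⟩
      ext y
      rw [← hr, mem_filter, ← hxw]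
      simp only [mem_univ, true_and]
      exact eq_comm
    · intro w hw w' hw' h
      rw [mem_coe] at hw
      unfold TH362.TF.odd at hw
      rw [mem_filter, deg_par] at hw
      obtain ⟨x, hxw⟩ := hne w hw.2
      beta_reduce at h
      have hx2 : x ∈ univ.filter (fun x => r x = w) := mem_filter.mpr ⟨mem_univ _, hxw⟩
      rw [h] at hx2
      exact hxw.symm.trans (mem_filter.mp hx2).2
  exact hodd

end Pool.Agent.R926.SC
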