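import Pool.Agent.TH362.TF.Contr
import Pool.Agent.R926.SC.Four

set_option autoImplicit false
set_option linter.unusedSectionVars false

/-! # Maps to the Petersen graph: at most sixteen odd components of a chain of short ears -/

namespace Pool.Agent.R926.SC

open Finset Pool.Agent.TH676.Z Pool.Agent.Y335.FL
open Pool.Agent.TH362.TF (nb)

/-- the edge of the Petersen graph which joins `k` and `nb k j` -/
def pe : Fin 10 → Fin 3 → Fin 15 :=
  ![![0, 4, 5], ![1, 0, 6], ![2, 1, 7], ![3, 2, 8], ![4, 3, 9], ![10, 13, 5], ![11, 14, 6],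
    ![12, 10, 7], ![13, 11, 8], ![14, 12, 9]]

theorem pe_eq : ∀ (k : Fin 10) (j : Fin 3) (l : Fin 10) (j' : Fin 3), nb k j = l → nb l j' = k →
    pe k j = pe l j' := by decide +kernel

theorem lam0 : ∀ (a1 a2 b1 b2 c1 c2 p q : ZMod 2), ¬ (a1 = 0 ∧ a2 = 0) → ¬ (b1 = 0 ∧ b2 = 0) →
    ¬ (c1 = 0 ∧ c2 = 0) → a1 + b1 + c1 = 0 → a2 + b2 + c2 = 0 →
      a1 * (p * b2 + q * a2) + a2 * (p * b1 + q * a1) = p ∧
      b1 * (p * b2 + q * a2) + b2 * (p * b1 + q * a1) = q ∧
      c1 * (p * b2 + q * a2) + c2 * (p * b1 + q * a1) = p + q := by decide +kernel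

theorem lam (a b c : ZMod 2 × ZMod 2) (p q : ZMod 2) (ha : a ≠ 0) (hb : b ≠ 0) (hc : c ≠ 0)
    (h : a + b + c = 0) : ∃ α β : ZMod 2, a.1 * α + a.2 * β = p ∧ b.1 * α + b.2 * β = q ∧
      c.1 * α + c.2 * β = p + q :=
  ⟨p * b.2 + q * a.2, p * b.1 + q * a.1, lam0 a.1 a.2 b.1 b.2 c.1 c.2 p q
    (fun h => ha (Prod.ext h.1 h.2)) (fun h => hb (Prod.ext h.1 h.2))
    (fun h => hc (Prod.ext h.1 h.2)) (congrArg Prod.fst h) (congrArg Prod.snd h)⟩

theorem three_values : ∀ (p q r : ZMod 2 × ZMod 2), p ≠ 0 → q ≠ 0 → r ≠ 0 → p + q + r = 0 →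
    ∀ a b : ZMod 2, (a ≠ 0 ∨ b ≠ 0) → p = (a, b) ∨ q = (a, b) ∨ r = (a, b) := by decide +kernel

variable {V E : Type} [Fintype V] [DecidableEq V] [Fintype E] [DecidableEq E]

theorem flA_of_nz (s t : E → V) (F : Finset E) (r : V → V)
    (q4 : ∀ y : E → ZMod 2, (∀ v, bd2 (r ∘ s) (r ∘ t) y v = 0) →
      ∃ x : E → ZMod 2, (∀ v, bd2 s t x v = 0) ∧ ∀ e, e ∉ F → x e = y e)
    (h : TH362.TF.NZ (r ∘ s) (r ∘ t) univ) : FlA s t F := by
  obtain ⟨φ, p1, p2⟩ := h
  have hbx : ∀ v, bd2 (r ∘ s) (r ∘ t) (fun e => (φ e).1) v = 0 := by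
    intro v
    have h3 := congrArg Prod.fst (p2 v)
    rw [Prod.fst_sum] at h3
    refine Eq.trans ?_ h3
    unfold bd2
    refine sum_congr rfl fun e _ => ?_
    split_ifs <;> simp
  have hby : ∀ v, bd2 (r ∘ s) (r ∘ t) (fun e => (φ e).2) v = 0 := by
    intro v
    have h3 := congrArg Prod.snd (p2 v)
    rw [Prod.snd_sum] at h3
    refine Eq.trans ?_ h3
    unfold bd2
    refine sum_congr rfl fun e _ => ?_
    split_ifs <;> simp
  obtain ⟨x, hx1, hx2⟩ := q4 _ hbx
  obtain ⟨y, hy1, hy2⟩ := q4 _ hby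
  refine ⟨x, y, hx1, hy1, fun e he => ?_⟩
  rw [hx2 e he, hy2 e he]
  have h3 := p1 e (mem_univ e)
  by_contra hcon
  rw [not_or, not_not, not_not] at hcon
  exact h3 (Prod.ext hcon.1 hcon.2)

theorem cons_of (s t : E → V) (x y : E → ZMod 2) (v : V) (hx : bd2 s t x v = 0)
    (hy : bd2 s t y v = 0) : TH362.TF.Cons s t univ (fun e => (x e, y e)) v := by
  unfold TH362.TF.Cons
  refine Prod.ext ?_ ?_
  · rw [Prod.fst_sum]
    refine Eq.trans ?_ hx
    unfold bd2
    refine sum_congr rfl fun e _ => ?_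
    split_ifs <;> simp
  · rw [Prod.snd_sum]
    refine Eq.trans ?_ hy
    unfold bd2
    refine sum_congr rfl fun e _ => ?_
    split_ifs <;> simp

/-- the number of odd vertices of a quotient depends only on the partition -/
theorem odd_ker (s t : E → V) (a b : V → V) (hab : ∀ u v, a u = a v ↔ b u = b v) :
    (TH362.TF.odd (a ∘ s) (a ∘ t) univ).card ≤ (TH362.TF.odd (b ∘ s) (b ∘ t) univ).card := by
  classical
  have hne : ∀ w ∈ TH362.TF.odd (a ∘ s) (a ∘ t) univ, ∃ x, a x = w := by
    intro w hw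
    rw [TH362.TF.odd_iff_cut] at hw
    by_contra hcon
    push Not at hcon
    have h1 : TH362.TF.cut (a ∘ s) (a ∘ t) univ (fun u => decide (u = w)) = ∅ := by
      unfold TH362.TF.cut
      rw [filter_eq_empty_iff]
      intro e _
      simp [hcon]
    rw [h1] at hw
    simp at hw
  refine card_le_card_of_injOn (fun w => if h : ∃ x, a x = w then b h.choose else w) ?_ ?_
  · intro w hw
    rw [mem_coe] at hw
    have h := hne w hw
    beta_reduce
    rw [mem_coe, dif_pos h, TH362.TF.odd_iff_cut]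
    rw [TH362.TF.odd_iff_cut] at hw
    rw [← hw]
    congr 2
    unfold TH362.TF.cut
    refine filter_congr fun e _ => ?_
    have hx := h.choose_spec
    have key : ∀ u, decide (b u = b h.choose) = decide (a u = w) := by
      intro u
      rw [decide_eq_decide, ← hab, hx]
    have k1 := key (s e)
    have k2 := key (t e)
    show (decide (b (s e) = b h.choose) ≠ decide (b (t e) = b h.choose)) ↔
      (decide (a (s e) = w) ≠ decide (a (t e) = w))
    rw [k1, k2]
  · intro w hw w' hw' h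
    rw [mem_coe] at hw hw'
    have h1 := hne w hw
    have h2 := hne w' hw'
    beta_reduce at h
    rw [dif_pos h1, dif_pos h2] at h
    have h3 := (hab _ _).2 h
    rw [h1.choose_spec, h2.choose_spec] at h3
    exact h3

theorem bd2_iff (s t : E → V) (ρ : V → V) (x : E → ZMod 2) (v : V)
    (h : ∀ u, ρ u = v ↔ u = v) : bd2 (ρ ∘ s) (ρ ∘ t) x v = bd2 s t x v := by
  unfold bd2
  refine sum_congr rfl fun e _ => ?_
  simp only [Function.comp, h]

/-- the flow for one class of a Petersen quotient -/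
theorem classFlow (hx : St_circEx) (s t : E → V) (m : ℕ) (C : Fin m → Finset E)
    (h1 : ∀ i, BrM s t ((univ.filter (fun j => j < i)).biUnion C)
      (C i \ (univ.filter (fun j => j < i)).biUnion C))
    (h2 : ∀ i, (C i \ (univ.filter (fun j => j < i)).biUnion C).card ≤ 4)
    (hb : TH362.TF.N1 s t univ) (r : V → V)
    (q1 : ∀ e ∈ univ.biUnion C, r (s e) = r (t e))
    (q3 : ∀ Y : Finset V, Disjoint (crs s t Y) (univ.biUnion C) →
      ∀ x y, r x = r y → (x ∈ Y ↔ y ∈ Y))
    (ho : (TH362.TF.odd (r ∘ s) (r ∘ t) univ).card ≤ 16) (κ : V → Fin 10)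
    (hκ : TH362.TF.IsPQ (r ∘ s) (r ∘ t) univ κ) (k : Fin 10) :
    ∃ x y : E → ZMod 2, (∀ v, κ (r v) = k → bd2 s t x v = 0) ∧
      (∀ v, κ (r v) = k → bd2 s t y v = 0) ∧ ∀ e, x e ≠ 0 ∨ y e ≠ 0 := by
  classical
  obtain ⟨v0, hv0⟩ : ∃ v, κ (r v) ≠ k := by
    obtain ⟨e, _, he⟩ := hκ.2 k (nb k 0) (TH362.TF.Contr.padj_nb k 0)
    have hne := TH362.TF.Contr.nb_ne k 0
    rcases he with ⟨a, b⟩ | ⟨a, b⟩
    · exact ⟨t e, fun h => hne (b.symm.trans h)⟩
    · exact ⟨s e, fun h => hne (a.symm.trans h)⟩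
  set ρ : V → V := fun v => if κ (r v) = k then v else v0 with hρ
  have ρin : ∀ v, κ (r v) = k → ρ v = v := fun v h => by
    simp only [hρ]
    rw [if_pos h]
  have ρout : ∀ v, κ (r v) ≠ k → ρ v = v0 := fun v h => by
    simp only [hρ]
    rw [if_neg h]
  have hidem : ∀ v, ρ (ρ v) = ρ v := by
    intro v
    by_cases h : κ (r v) = k
    · rw [ρin v h, ρin v h]
    · rw [ρout v h, ρout v0 hv0]
  set F := univ.biUnion C with hF
  have qρ : ∀ e ∈ F, r (ρ (s e)) = r (ρ (t e)) := by
    intro e he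
    have h3 := q1 e he
    by_cases h : κ (r (s e)) = k
    · rw [ρin _ h, ρin (t e) (by rw [← h3]; exact h), h3]
    · rw [ρout _ h, ρout (t e) (by rw [← h3]; exact h)]
  have hcr : ∀ Y : Finset V, crs (ρ ∘ s) (ρ ∘ t) Y =
      crs s t (univ.filter (fun v => ρ v ∈ Y)) := by
    intro Y
    ext e
    rw [mem_crs, mem_crs, mem_filter, mem_filter]
    simp
  obtain ⟨r2, p1, -, p3, p4⟩ := quotC (ρ ∘ s) (ρ ∘ t) F
  have hker : ∀ u v, (r2 ∘ ρ) u = (r2 ∘ ρ) v ↔ (r ∘ ρ) u = (r ∘ ρ) v := by
    intro u v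
    constructor
    · intro h
      have hd : Disjoint (crs (ρ ∘ s) (ρ ∘ t) (univ.filter (fun w => r w = r (ρ u)))) F := by
        rw [disjoint_left]
        intro e he heF
        rw [mem_crs, mem_filter, mem_filter] at he
        apply he
        simp only [Function.comp, mem_univ, true_and]
        rw [qρ e heF]
      have h4 := (p3 _ hd (ρ u) (ρ v) h).1 (mem_filter.mpr ⟨mem_univ _, rfl⟩)
      exact (mem_filter.mp h4).2.symm
    · intro h
      have hd : Disjoint (crs s t (univ.filter (fun w => r2 (ρ w) = r2 (ρ u)))) F := by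
        rw [disjoint_left]
        intro e he heF
        rw [mem_crs, mem_filter, mem_filter] at he
        apply he
        simp only [mem_univ, true_and]
        have h5 : r2 (ρ (s e)) = r2 (ρ (t e)) := p1 e heF
        rw [h5]
      have h4 := (q3 _ hd (ρ u) (ρ v) h).1 (mem_filter.mpr ⟨mem_univ _, by rw [hidem]⟩)
      have h5 := (mem_filter.mp h4).2
      rw [hidem] at h5
      exact h5.symm
  have hodd8 : (TH362.TF.odd ((r2 ∘ ρ) ∘ s) ((r2 ∘ ρ) ∘ t) univ).card ≤ 8 := by
    refine (odd_ker s t (r2 ∘ ρ) (r ∘ ρ) hker).trans ?_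
    have hsub : TH362.TF.odd ((r ∘ ρ) ∘ s) ((r ∘ ρ) ∘ t) univ ⊆
        insert (r v0) ((TH362.TF.odd (r ∘ s) (r ∘ t) univ).filter (fun w => κ w = k)) := by
      intro w hw
      rw [TH362.TF.odd_iff_cut] at hw
      rw [mem_insert, mem_filter]
      by_cases hk : κ w = k
      · right
        refine ⟨?_, hk⟩
        rw [TH362.TF.odd_iff_cut, ← hw]
        congr 2
        unfold TH362.TF.cut
        refine filter_congr fun e _ => ?_
        have key : ∀ u, decide (r (ρ u) = w) = decide (r u = w) := by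
          intro u
          rw [decide_eq_decide]
          by_cases h : κ (r u) = k
          · rw [ρin u h]
          · rw [ρout u h]
            constructor
            · intro h5
              rw [h5] at hv0
              exact absurd hk hv0
            · intro h5
              rw [h5] at h
              exact absurd hk h
        have k1 := key (s e)
        have k2 := key (t e)
        show (decide (r (s e) = w) ≠ decide (r (t e) = w)) ↔
          (decide (r (ρ (s e)) = w) ≠ decide (r (ρ (t e)) = w))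
        rw [k1, k2]
      · left
        by_contra hne
        have hcut : TH362.TF.cut ((r ∘ ρ) ∘ s) ((r ∘ ρ) ∘ t) univ (fun u => decide (u = w)) =
            ∅ := by
          unfold TH362.TF.cut
          rw [filter_eq_empty_iff]
          intro e _ h
          have key : ∀ u, decide (r (ρ u) = w) = false := by
            intro u
            rw [decide_eq_false_iff_not]
            intro h5
            by_cases h6 : κ (r u) = k
            · rw [ρin u h6] at h5
              exact hk (h5 ▸ h6)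
            · rw [ρout u h6] at h5
              exact hne h5.symm
          exact h ((key (s e)).trans (key (t e)).symm)
        rw [hcut] at hw
        simp at hw
    have hc1 := card_le_card hsub
    have hc2 := card_insert_le (r v0)
      ((TH362.TF.odd (r ∘ s) (r ∘ t) univ).filter (fun w => κ w = k))
    have hc3 := TH362.TF.card_classes (TH362.TF.odd (r ∘ s) (r ∘ t) univ) κ
    have hc4 : ∑ k' ∈ univ.erase k, 1 ≤ ∑ k' ∈ univ.erase k,
        ((TH362.TF.odd (r ∘ s) (r ∘ t) univ).filter (fun w => κ w = k')).card :=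
      sum_le_sum fun k' _ => TH362.TF.pq_odd_pos hκ k'
    have hc5 := add_sum_erase univ
      (fun k' => ((TH362.TF.odd (r ∘ s) (r ∘ t) univ).filter (fun w => κ w = k')).card)
      (mem_univ k)
    have hc6 : (univ.erase k : Finset (Fin 10)).card = 9 := by
      rw [card_erase_of_mem (mem_univ _), card_univ, Fintype.card_fin]
    rw [sum_const, smul_eq_mul, mul_one, hc6] at hc4
    omega
  have hN : TH362.TF.N1 ((r2 ∘ ρ) ∘ s) ((r2 ∘ ρ) ∘ t) univ := fun x => hb (x ∘ r2 ∘ ρ)
  rcases TH362.TF.main16 ((r2 ∘ ρ) ∘ s) ((r2 ∘ ρ) ∘ t) univ hN (by omega) with h | h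
  swap
  · have := TH362.TF.pq_card h
    omega
  have hA : FlA (ρ ∘ s) (ρ ∘ t) F := flA_of_nz (ρ ∘ s) (ρ ∘ t) F r2 p4 h
  have h1' : ∀ i, BrM (ρ ∘ s) (ρ ∘ t) ((univ.filter (fun j => j < i)).biUnion C)
      (C i \ (univ.filter (fun j => j < i)).biUnion C) := by
    intro i Y hY
    rw [hcr] at hY ⊢
    exact h1 i _ hY
  obtain ⟨x, y, z1, z2, z3⟩ := foldA hx (ρ ∘ s) (ρ ∘ t) m C h1' h2 hA
  have hv : ∀ v, κ (r v) = k → ∀ u, ρ u = v ↔ u = v := by
    intro v hv u
    by_cases h : κ (r u) = k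
    · rw [ρin u h]
    · rw [ρout u h]
      constructor
      · intro h5
        rw [← h5] at hv
        exact absurd hv hv0
      · intro h5
        rw [h5] at h
        exact absurd hv h
  exact ⟨x, y, fun v hvk => (bd2_iff s t ρ x v (hv v hvk)).symm.trans (z1 v),
    fun v hvk => (bd2_iff s t ρ y v (hv v hvk)).symm.trans (z2 v),
    fun e => z3 e (notMem_empty _)⟩

theorem local_flow (s t : E → V) (x y : E → ZMod 2) (v : V) (hxv : bd2 s t x v = 0)
    (hyv : bd2 s t y v = 0) (f : E → Fin 15) (k : Fin 10) (τ : Fin 3 → ZMod 2 × ZMod 2)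
    (h0 : ∀ j, τ j ≠ 0) (hs : τ 0 + τ 1 + τ 2 = 0)
    (hf : ∀ e, (s e = v ∨ t e = v) → ∃ j, pe k j = f e ∧ τ j = (x e, y e))
    (φ : Fin 15 → ZMod 2) (hφ : φ (pe k 0) + φ (pe k 1) + φ (pe k 2) = 0) :
    bd2 s t (φ ∘ f) v = 0 := by
  obtain ⟨α, β, e1, e2, e3⟩ := lam (τ 0) (τ 1) (τ 2) (φ (pe k 0)) (φ (pe k 1)) (h0 0) (h0 1)
    (h0 2) hs
  have hz : ∀ a b c : ZMod 2, a + b + c = 0 → a + b = c := by decide
  have e3' : (τ 2).1 * α + (τ 2).2 * β = φ (pe k 2) := by
    rw [e3]
    exact hz _ _ _ hφ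
  have key : ∀ e, (s e = v ∨ t e = v) → φ (f e) = x e * α + y e * β := by
    intro e he
    obtain ⟨j, hj1, hj2⟩ := hf e he
    rw [← hj1]
    have h5 : x e = (τ j).1 := by rw [hj2]
    have h6 : y e = (τ j).2 := by rw [hj2]
    rw [h5, h6]
    fin_cases j
    · exact e1.symm
    · exact e2.symm
    · exact e3'.symm
  have h7 : bd2 s t (φ ∘ f) v = bd2 s t x v * α + bd2 s t y v * β := by
    unfold bd2
    rw [sum_mul, sum_mul, ← sum_add_distrib]
    refine sum_congr rfl fun e _ => ?_
    by_cases h8 : s e = v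
    · have h9 := key e (Or.inl h8)
      simp only [Function.comp, h9]
      split_ifs <;> ring
    · by_cases h10 : t e = v
      · have h9 := key e (Or.inr h10)
        simp only [Function.comp, h9]
        split_ifs <;> ring
      · simp [h8, h10]
  rw [h7, hxv, hyv, zero_mul, zero_mul, add_zero]

theorem h16_of (s t : E → V) (F : Finset E)
    (h16 : ((univ.image (comp s t F)).filter (fun X => Odd (crs s t X).card)).card ≤ 16)
    (r : V → V) (q1 : ∀ e ∈ F, r (s e) = r (t e))
    (q3 : ∀ Y : Finset V, Disjoint (crs s t Y) F → ∀ x y, r x = r y → (x ∈ Y ↔ y ∈ Y)) :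
    (TH362.TF.odd (r ∘ s) (r ∘ t) univ).card ≤ 16 := by
  classical
  have hr : ∀ x y, r x = r y ↔ y ∈ comp s t F x := by
    intro x y
    constructor
    · intro h
      have hd : Disjoint (crs s t (comp s t F x)) F := by
        rw [disjoint_left]
        intro e he heF
        rw [mem_crs] at he
        apply he
        rw [mem_comp, mem_comp]
        have h5 : Relation.EqvGen (fun a b => ∃ e ∈ F, s e = a ∧ t e = b) (s e) (t e) :=
          Relation.EqvGen.rel _ _ ⟨e, heF, rfl, rfl⟩
        exact ⟨fun h => h.trans _ _ _ h5, fun h => h.trans _ _ _ (h5.symm _ _)⟩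
      exact (q3 _ hd x y h).1 ((mem_comp s t F x x).mpr (Relation.EqvGen.refl _))
    · intro h
      rw [mem_comp] at h
      induction h with
      | rel a b hab =>
        obtain ⟨e, he, rfl, rfl⟩ := hab
        exact q1 e he
      | refl a => rfl
      | symm a b _ ih => exact ih.symm
      | trans a b c _ _ i1 i2 => exact i1.trans i2
  have hodd : (TH362.TF.odd (r ∘ s) (r ∘ t) univ).card ≤ 16 := by
    refine le_trans ?_ h16
    have hne : ∀ w, Odd (crs s t (univ.filter (fun x => r x = w))).card → ∃ x, r x = w := by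
      intro w hw
      by_contra hcon
      push Not at hcon
      have h5 : univ.filter (fun x => r x = w) = ∅ := by
        rw [filter_eq_empty_iff]
        exact fun x _ => hcon x
      rw [h5] at hw
      simp [crs] at hw
    refine card_le_card_of_injOn (fun w => univ.filter (fun x => r x = w)) ?_ ?_
    · intro w hw
      rw [mem_coe] at hw
      unfold TH362.TF.odd at hw
      rw [mem_filter, deg_par] at hw
      obtain ⟨x, hxw⟩ := hne w hw.2
      rw [mem_coe, mem_filter, mem_image]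
      refine ⟨⟨x, mem_univ _, ?_⟩, hw.2⟩
      ext y
      rw [← hr, mem_filter, ← hxw]
      simp only [mem_univ, true_and]
      exact eq_comm
    · intro w hw w' hw' h
      rw [mem_coe] at hw
      unfold TH362.TF.odd at hw
      rw [mem_filter, deg_par] at hw
      obtain ⟨x, hxw⟩ := hne w hw.2
      beta_reduce at h
      have hx2 : x ∈ univ.filter (fun x => r x = w) := mem_filter.mpr ⟨mem_univ _, hxw⟩
      rw [h] at hx2
      exact hxw.symm.trans (mem_filter.mp hx2).2
  exact hodd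

/-- **Maps to the Petersen graph.**  At most sixteen components of the union of a chain of sets with
at most four new edges have an odd number of boundary edges. -/
theorem petMap (hx : St_circEx) (s t : E → V) (m : ℕ) (C : Fin m → Finset E)
    (h1 : ∀ i, BrM s t ((univ.filter (fun j => j < i)).biUnion C)
      (C i \ (univ.filter (fun j => j < i)).biUnion C))
    (h2 : ∀ i, (C i \ (univ.filter (fun j => j < i)).biUnion C).card ≤ 4)
    (hb : TH362.TF.N1 s t univ)
    (h16 : ∀ r : V → V, (∀ e ∈ univ.biUnion C, r (s e) = r (t e)) →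
      (∀ Y : Finset V, Disjoint (crs s t Y) (univ.biUnion C) →
        ∀ x y, r x = r y → (x ∈ Y ↔ y ∈ Y)) →
      (TH362.TF.odd (r ∘ s) (r ∘ t) univ).card ≤ 16) :
    ∃ f : E → Fin 15, ∀ φ : Fin 15 → ZMod 2,
      (∀ k, φ (pe k 0) + φ (pe k 1) + φ (pe k 2) = 0) → ∀ v, bd2 s t (φ ∘ f) v = 0 := by
  classical
  obtain ⟨r, q1, -, q3, q4⟩ := quotC s t (univ.biUnion C)
  have hodd := h16 r q1 q3
  rcases TH362.TF.main16 (r ∘ s) (r ∘ t) univ (fun x => hb (x ∘ r)) hodd with h | h
  · obtain ⟨x, y, z1, z2, z3⟩ := foldA hx s t m C h1 h2 (flA_of_nz s t _ r q4 h)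
    have hj : ∀ e, ∃ j : Fin 3,
        (![(1, 0), (0, 1), (1, 1)] : Fin 3 → ZMod 2 × ZMod 2) j = (x e, y e) := by
      intro e
      have h5 : ∀ a b : ZMod 2, (a ≠ 0 ∨ b ≠ 0) → ∃ j : Fin 3,
        (![(1, 0), (0, 1), (1, 1)] : Fin 3 → ZMod 2 × ZMod 2) j = (a, b) := by decide
      exact h5 _ _ (z3 e (notMem_empty _))
    choose j hj using hj
    refine ⟨fun e => pe 0 (j e), fun φ hφ v => ?_⟩
    exact local_flow s t x y v (z1 v) (z2 v) _ 0 ![(1, 0), (0, 1), (1, 1)] (by decide) (by decide)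
      (fun e _ => ⟨j e, rfl, hj e⟩) φ (hφ 0)
  · obtain ⟨κ, hκ⟩ := h
    have hcl := fun k => classFlow hx s t m C h1 h2 hb r q1 q3 hodd κ hκ k
    choose x y z1 z2 z3 using hcl
    have hst := fun k => TH362.TF.Contr.struct (r ∘ s) (r ∘ t) κ hκ k
    choose ε w1 w2 using hst
    have hτ0 : ∀ k j, (x k (ε k j), y k (ε k j)) ≠ (0 : ZMod 2 × ZMod 2) := by
      intro k j h
      rcases z3 k (ε k j) with h5 | h5
      · exact h5 (congrArg Prod.fst h)
      · exact h5 (congrArg Prod.snd h)
    have hεinj : ∀ k, Function.Injective (ε k) := by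
      intro k i j hij
      have a1 := w1 k i
      have a2 := w1 k j
      rw [hij] at a1
      have h3 := TH362.TF.Contr.nb_ne k i
      have h4 := TH362.TF.Contr.nb_ne k j
      apply TH362.TF.Contr.nb_inj k
      rcases a1 with ⟨a, b⟩ | ⟨a, b⟩ <;> rcases a2 with ⟨c, d⟩ | ⟨c, d⟩
      · exact b.symm.trans d
      · exact absurd (c.symm.trans a) h4
      · exact absurd (a.symm.trans c) h3
      · exact a.symm.trans c
    have hcut : ∀ k, TH362.TF.cut s t univ (fun v => decide (κ (r v) = k)) =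
        univ.image (ε k) := by
      intro k
      ext e
      unfold TH362.TF.cut
      rw [mem_filter, mem_image]
      constructor
      · rintro ⟨-, h5⟩
        obtain ⟨j, hj⟩ := w2 k e (fun h6 => h5 (decide_eq_decide.2 h6))
        exact ⟨j, mem_univ _, hj.symm⟩
      · rintro ⟨j, -, rfl⟩
        refine ⟨mem_univ _, fun h5 => ?_⟩
        have h6 := decide_eq_decide.1 h5
        have h7 := TH362.TF.Contr.nb_ne k j
        rcases w1 k j with ⟨a, b⟩ | ⟨a, b⟩
        · exact h7 (b.symm.trans (h6.1 a))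
        · exact h7 (a.symm.trans (h6.2 b))
    have hτs : ∀ k, (x k (ε k 0), y k (ε k 0)) + (x k (ε k 1), y k (ε k 1)) +
        (x k (ε k 2), y k (ε k 2)) = (0 : ZMod 2 × ZMod 2) := by
      intro k
      have h5 := TH362.TF.flow_cut (s := s) (t := t) (S := univ)
        (φ := fun e => (x k e, y k e)) (fun v => decide (κ (r v) = k)) (fun v hv =>
          cons_of s t (x k) (y k) v (z1 k v (of_decide_eq_true hv))
            (z2 k v (of_decide_eq_true hv)))
      rw [hcut k, sum_image (fun i _ j _ h => hεinj k h), Fin.sum_univ_three] at h5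
      exact h5
    have hbij : ∀ k e, ∃ j : Fin 3, (x k (ε k j), y k (ε k j)) = (x k e, y k e) := by
      intro k e
      rcases three_values _ _ _ (hτ0 k 0) (hτ0 k 1) (hτ0 k 2) (hτs k) _ _ (z3 k e) with
        h5 | h5 | h5
      · exact ⟨0, h5⟩
      · exact ⟨1, h5⟩
      · exact ⟨2, h5⟩
    have hex : ∀ e, ∃ g : Fin 15, ∀ k, (κ (r (s e)) = k ∨ κ (r (t e)) = k) →
        ∃ j, pe k j = g ∧ (x k (ε k j), y k (ε k j)) = (x k e, y k e) := by
      intro e
      by_cases hst : κ (r (s e)) = κ (r (t e))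
      · obtain ⟨j, hj⟩ := hbij (κ (r (s e))) e
        refine ⟨pe (κ (r (s e))) j, fun k hk => ?_⟩
        have hk' : κ (r (s e)) = k := by
          rcases hk with h5 | h5
          · exact h5
          · exact hst.trans h5
        subst hk'
        exact ⟨j, rfl, hj⟩
      · obtain ⟨j, hj⟩ := w2 (κ (r (s e))) e (fun h5 => hst (h5.1 rfl).symm)
        obtain ⟨j', hj'⟩ := w2 (κ (r (t e))) e (fun h5 => hst (h5.2 rfl))
        have n1 : nb (κ (r (s e))) j = κ (r (t e)) := by
          have h5 := w1 (κ (r (s e))) j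
          rw [← hj] at h5
          rcases h5 with ⟨a, b⟩ | ⟨a, b⟩
          · exact b.symm
          · exact absurd b.symm hst
        have n2 : nb (κ (r (t e))) j' = κ (r (s e)) := by
          have h5 := w1 (κ (r (t e))) j'
          rw [← hj'] at h5
          rcases h5 with ⟨a, b⟩ | ⟨a, b⟩
          · exact absurd a hst
          · exact a.symm
        refine ⟨pe (κ (r (s e))) j, fun k hk => ?_⟩
        rcases hk with h5 | h5
        · subst h5
          exact ⟨j, rfl, by rw [← hj]⟩
        · subst h5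
          exact ⟨j', (pe_eq _ _ _ _ n1 n2).symm, by rw [← hj']⟩
    choose f hf using hex
    refine ⟨f, fun φ hφ v => ?_⟩
    refine local_flow s t (x (κ (r v))) (y (κ (r v))) v (z1 _ v rfl) (z2 _ v rfl) f (κ (r v))
      (fun j => (x (κ (r v)) (ε (κ (r v)) j), y (κ (r v)) (ε (κ (r v)) j))) (hτ0 _) (hτs _)
      (fun e he => ?_) φ (hφ _)
    refine hf e (κ (r v)) ?_
    rcases he with h5 | h5
    · exact Or.inl (by rw [h5])
    · exact Or.inr (by rw [h5])

end Pool.Agent.R926.SC
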