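import Pool.Agent.H160R2.CC.Basic
import Pool.Agent.Y335.FL.CircEx
import Pool.Agent.R926.SC.PetMap

set_option autoImplicit false
set_option linter.unusedSectionVars false

/-! # Cycle-continuous maps to the Petersen graph; six even subgraphs -/

namespace Pool.Agent.R926.SC

open Finset Pool.Agent.TH676.Z Pool.Agent.Y335.FL
open Pool.Agent.H160R2.CC Pool.Agent.H160R2.CC.MGraph

theorem pet_inc : ∀ (k : Fin 10) (e : Fin 15),
    ((if (![0, 1, 2, 3, 4, 0, 1, 2, 3, 4, 5, 6, 7, 8, 9] : Fin 15 → Fin 10) e = k then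
      (1 : ZMod 2) else 0) +
    (if (![1, 2, 3, 4, 0, 5, 6, 7, 8, 9, 7, 8, 9, 5, 6] : Fin 15 → Fin 10) e = k then 1 else 0)) =
    ∑ j : Fin 3, (if pe k j = e then 1 else 0) := by
  decide +kernel

theorem pet_flow (φ : Fin 15 → ZMod 2) (h : petersen.Flow φ) (k : Fin 10) :
    φ (pe k 0) + φ (pe k 1) + φ (pe k 2) = 0 := by
  have h1 := h k
  have h2 : petersen.bd φ k = ∑ e : Fin 15, (∑ j : Fin 3, (if pe k j = e then 1 else 0)) * φ e := by
    refine Finset.sum_congr rfl fun e _ => ?_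
    rw [← pet_inc k e]
    rfl
  rw [h2] at h1
  have h3 : ∀ e : Fin 15, (∑ j : Fin 3, (if pe k j = e then (1 : ZMod 2) else 0)) * φ e =
      ∑ j : Fin 3, (if pe k j = e then φ e else 0) := by
    intro e
    rw [Finset.sum_mul]
    refine Finset.sum_congr rfl fun j _ => ?_
    split_ifs <;> simp
  rw [Finset.sum_congr rfl (fun e _ => h3 e), Finset.sum_comm] at h1
  rw [← h1, Fin.sum_univ_three]
  simp

theorem brM_of {V E : Type} [Fintype V] [DecidableEq V] [Fintype E] [DecidableEq E]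
    (s t : E → V) (m : ℕ) (C : Fin m → Finset E)
    (hC : ∀ i, ∀ Y : Finset V,
      Disjoint (crs s t Y) ((Finset.univ.filter (fun j => j < i)).biUnion C) →
      (crs s t Y ∩ C i).card ≠ 1) (i : Fin m) :
    BrM s t ((univ.filter (fun j => j < i)).biUnion C)
      (C i \ (univ.filter (fun j => j < i)).biUnion C) := by
  intro Y hY
  have h1 : crs s t Y ∩ (C i \ (Finset.univ.filter (fun j => j < i)).biUnion C) =
      crs s t Y ∩ C i := by
    ext e
    simp only [Finset.mem_inter, Finset.mem_sdiff]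
    constructor
    · rintro ⟨h1, h2, -⟩
      exact ⟨h1, h2⟩
    · rintro ⟨h1, h2⟩
      exact ⟨h1, h2, fun h3 => (Finset.disjoint_left.mp hY) h1 h3⟩
  rw [h1]
  exact hC i Y hY

theorem n1_crs {V E : Type} [Fintype V] [DecidableEq V] [Fintype E] [DecidableEq E]
    (s t : E → V) (hb : ∀ Y : Finset V, (crs s t Y).card ≠ 1) : TH362.TF.N1 s t univ := by
  intro x h
  refine hb (univ.filter (fun v => x v = true)) ?_
  rw [← h]
  congr 1
  ext e
  rw [mem_crs]
  unfold TH362.TF.cut
  simp only [mem_filter, mem_univ, true_and]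
  cases x (s e) <;> cases x (t e) <;> simp

/-- Jaeger's conjecture for chains of short ears. -/
theorem succ_pet (G : MGraph) (hB : ¬ G.HasCutEdge) (m : ℕ) (C : Fin m → Finset G.E)
    (hnew : ∀ i, (C i \ (Finset.univ.filter (fun j => j < i)).biUnion C).card ≤ 4)
    (hC : ∀ i, ∀ Y : Finset G.V,
      Disjoint (crs G.src G.tgt Y) ((Finset.univ.filter (fun j => j < i)).biUnion C) →
      (crs G.src G.tgt Y ∩ C i).card ≠ 1)
    (ho : ((Finset.univ.image (comp G.src G.tgt (Finset.univ.biUnion C))).filter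
      (fun X => Odd (crs G.src G.tgt X).card)).card ≤ 16) : Succ G petersen := by
  classical
  have hb : ∀ Y : Finset G.V, (crs G.src G.tgt Y).card ≠ 1 := by
    intro Y hY
    obtain ⟨e, he⟩ := card_eq_one.mp hY
    apply hB
    refine ⟨Y, e, fun e' => ?_⟩
    rw [← mem_crs, he, mem_singleton]
  obtain ⟨f, hf⟩ := petMap Pool.Agent.Y335.FL.circEx G.src G.tgt m C
    (brM_of G.src G.tgt m C hC) hnew (n1_crs _ _ hb)
    (fun r q1 q3 => h16_of G.src G.tgt (univ.biUnion C) ho r q1 q3)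
  refine succ_iff.2 ⟨f, fun φ hφ v => ?_⟩
  refine Eq.trans ?_ (hf φ (pet_flow φ hφ) v)
  unfold MGraph.bd bd2 MGraph.inc
  refine Finset.sum_congr rfl fun e _ => ?_
  simp only [Function.comp]
  split_ifs <;> ring

/-- the complements of the six perfect matchings of the Petersen graph -/
def co : Fin 6 → Fin 15 → ZMod 2 :=
  ![![1, 1, 1, 1, 1, 0, 0, 0, 0, 0, 1, 1, 1, 1, 1],
    ![1, 0, 1, 0, 1, 0, 1, 1, 1, 1, 1, 0, 0, 1, 1],
    ![1, 1, 0, 1, 0, 1, 0, 1, 1, 1, 1, 1, 0, 0, 1],
    ![0, 1, 1, 0, 1, 1, 1, 0, 1, 1, 1, 1, 1, 0, 0],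
    ![1, 0, 1, 1, 0, 1, 1, 1, 0, 1, 0, 1, 1, 1, 0],
    ![0, 1, 0, 1, 1, 1, 1, 1, 1, 0, 0, 0, 1, 1, 1]]

theorem co_flow : ∀ (i : Fin 6) (k : Fin 10),
    co i (pe k 0) + co i (pe k 1) + co i (pe k 2) = 0 := by decide +kernel

theorem co_four : ∀ e : Fin 15, (univ.filter (fun i : Fin 6 => co i e = 1)).card = 4 := by
  decide +kernel

/-- six even subgraphs -/
theorem six_even {V E : Type} [Fintype V] [DecidableEq V] [Fintype E] [DecidableEq E]
    (s t : E → V) (hb : ∀ Y : Finset V, (crs s t Y).card ≠ 1) (m : ℕ) (C : Fin m → Finset E)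
    (hnew : ∀ i, (C i \ (Finset.univ.filter (fun j => j < i)).biUnion C).card ≤ 4)
    (hC : ∀ i, ∀ Y : Finset V,
      Disjoint (crs s t Y) ((Finset.univ.filter (fun j => j < i)).biUnion C) →
      (crs s t Y ∩ C i).card ≠ 1)
    (ho : ((Finset.univ.image (comp s t (Finset.univ.biUnion C))).filter
      (fun X => Odd (crs s t X).card)).card ≤ 16) :
    ∃ D : Fin 6 → Finset E,
      (∀ i v, Even (((D i).filter (fun e => s e = v)).card +
        ((D i).filter (fun e => t e = v)).card)) ∧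
      ∀ e, (univ.filter (fun i => e ∈ D i)).card = 4 := by
  classical
  obtain ⟨f, hf⟩ := petMap Pool.Agent.Y335.FL.circEx s t m C
    (brM_of s t m C hC) hnew (n1_crs _ _ hb)
    (fun r q1 q3 => h16_of s t (univ.biUnion C) ho r q1 q3)
  refine ⟨fun i => univ.filter (fun e => co i (f e) = 1), fun i v => ?_, fun e => ?_⟩
  · have h1 := hf (co i) (co_flow i) v
    rw [← ZMod.natCast_eq_zero_iff_even]
    refine Eq.trans ?_ h1
    rw [Nat.cast_add, filter_filter, filter_filter, card_filter, card_filter, Nat.cast_sum,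
      Nat.cast_sum, ← sum_add_distrib]
    unfold bd2
    refine sum_congr rfl fun e _ => ?_
    have h2 : ∀ a : ZMod 2, a = 0 ∨ a = 1 := by decide
    simp only [Function.comp]
    rcases h2 (co i (f e)) with h3 | h3
    · rw [h3]
      split_ifs <;> simp_all
    · rw [h3]
      simp only [true_and]
      split_ifs <;> simp
  · rw [← co_four (f e)]
    congr 1
    ext i
    simp

end Pool.Agent.R926.SC
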