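import Pool.Agent.Y642.RN.A
import Pool.Agent.R926.SC.Four

set_option autoImplicit false
set_option linter.unusedSectionVars false

/-! # Cographic 2-blocks with short cocycles -/

namespace Pool.Agent.R926.SC

open Finset Pool.Agent.TH676.Z Pool.Agent.Y335.FL
open Pool.Agent.TH676.Blk (RepCo PC)
open Pool.Agent.TH499.TF (dlt mem_dlt)

variable {V E : Type} [Fintype V] [DecidableEq V] [Fintype E] [DecidableEq E]

theorem sum_ext {n : ℕ} (F : Finset E) (vec : E → Fin n → ZMod 2) (x : {e // e ∉ F} → ZMod 2) :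
    ∑ e, (if h : e ∉ F then x ⟨e, h⟩ else 0) • vec e = ∑ e : {e // e ∉ F}, x e • vec e := by
  have h1 : ∀ e : {e // e ∉ F}, x e • vec e =
      (fun e : E => (if h : e ∉ F then x ⟨e, h⟩ else 0) • vec e) e.val := by
    intro e
    simp only [dif_pos e.2]
  rw [sum_congr rfl (fun e _ => h1 e), ← sum_subtype (univ.filter (fun e => e ∉ F)) (by simp)
    (fun e : E => (if h : e ∉ F then x ⟨e, h⟩ else 0) • vec e)]
  symm
  refine sum_subset (filter_subset _ _) fun e _ he => ?_
  rw [mem_filter, not_and] at he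
  have h2 := he (mem_univ e)
  rw [dif_neg h2, zero_smul]

/-- deletion in the cographic matroid is contraction in the graph -/
theorem repCo_contract {s t : E → V} {n : ℕ} {vec : E → Fin n → ZMod 2} (hv : RepCo s t vec)
    (F : Finset E) (r : V → V) (q1 : ∀ e ∈ F, r (s e) = r (t e))
    (q3 : ∀ Y : Finset V, Disjoint (crs s t Y) F → ∀ x y, r x = r y → (x ∈ Y ↔ y ∈ Y)) :
    RepCo (fun e : {e // e ∉ F} => r (s e)) (fun e : {e // e ∉ F} => r (t e))
      (fun e : {e // e ∉ F} => vec e) := by
  classical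
  intro x
  set x' : E → ZMod 2 := fun e => if h : e ∉ F then x ⟨e, h⟩ else 0 with hx'
  have hxe : ∀ e : {e // e ∉ F}, x' e.val = x e := by
    intro e
    simp only [hx']
    rw [dif_pos e.2]
  have hxF : ∀ e ∈ F, x' e = 0 := by
    intro e he
    simp only [hx']
    rw [dif_neg (fun h => h he)]
  have hsum : ∑ e, x' e • vec e = ∑ e : {e // e ∉ F}, x e • vec e := sum_ext F vec x
  rw [← hsum, hv x']
  constructor
  · intro h
    obtain ⟨Y, hY⟩ := TH676.Blk.mem_cutspace s t x' h
    have hd : Disjoint (crs s t Y) F := by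
      rw [disjoint_left]
      intro e he heF
      have h1 := hY e
      have he' : e ∈ dlt s t Y := he
      rw [hxF e heF, if_pos he'] at h1
      exact zero_ne_one h1
    have h3 := q3 Y hd
    have h4 : x = ∑ z ∈ Y.image r, TH676.Blk.star (fun e : {e // e ∉ F} => r (s e))
        (fun e : {e // e ∉ F} => r (t e)) z := by
      funext e
      rw [TH676.Blk.sum_star, ← hxe e, hY e.val]
      have h5 : ∀ v, r v ∈ Y.image r ↔ v ∈ Y := by
        intro v
        rw [mem_image]
        constructor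
        · rintro ⟨w, hw, hwv⟩
          exact (h3 w v hwv).1 hw
        · intro h
          exact ⟨v, h, rfl⟩
      have h6 : e.val ∈ dlt s t Y ↔ e ∈ dlt (fun e : {e // e ∉ F} => r (s e))
          (fun e : {e // e ∉ F} => r (t e)) (Y.image r) := by
        rw [mem_dlt, mem_dlt, h5, h5]
      by_cases h7 : e.val ∈ dlt s t Y
      · rw [if_pos h7, if_pos (h6.1 h7)]
      · rw [if_neg h7, if_neg (fun h => h7 (h6.2 h))]
    rw [h4]
    exact TH676.Blk.sum_star_mem _ _ _
  · intro h
    obtain ⟨Z, hZ⟩ := TH676.Blk.mem_cutspace _ _ x h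
    have h4 : x' = ∑ z ∈ univ.filter (fun v => r v ∈ Z), TH676.Blk.star s t z := by
      funext e
      rw [TH676.Blk.sum_star]
      by_cases he : e ∈ F
      · rw [hxF e he, if_neg]
        rw [mem_dlt, mem_filter, mem_filter, q1 e he]
        simp
      · have h7 : x' e = x ⟨e, he⟩ := hxe ⟨e, he⟩
        have h6 : e ∈ dlt s t (univ.filter (fun v => r v ∈ Z)) ↔
            (⟨e, he⟩ : {e // e ∉ F}) ∈ dlt (fun e : {e // e ∉ F} => r (s e))
              (fun e : {e // e ∉ F} => r (t e)) Z := by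
          rw [mem_dlt, mem_dlt, mem_filter, mem_filter]
          simp
        rw [h7, hZ ⟨e, he⟩]
        by_cases h8 : e ∈ dlt s t (univ.filter (fun v => r v ∈ Z))
        · rw [if_pos h8, if_pos (h6.1 h8)]
        · rw [if_neg h8, if_neg (fun h => h8 (h6.2 h))]
    rw [h4]
    exact TH676.Blk.sum_star_mem _ _ _

theorem odd_sub (s t : E → V) (F : Finset E) (r : V → V) (q1 : ∀ e ∈ F, r (s e) = r (t e)) :
    TH362.TF.odd (r ∘ s) (r ∘ t) univ =
      TH362.TF.odd (fun e : {e // e ∉ F} => r (s e)) (fun e : {e // e ∉ F} => r (t e)) univ := by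
  classical
  have h : ∀ w, TH362.TF.deg (r ∘ s) (r ∘ t) univ w =
      TH362.TF.deg (fun e : {e // e ∉ F} => r (s e)) (fun e : {e // e ∉ F} => r (t e)) univ w +
        2 * (F.filter (fun e => r (s e) = w)).card := by
    intro w
    unfold TH362.TF.deg
    rw [← sum_filter_add_sum_filter_not univ (fun e => e ∉ F)]
    congr 1
    · rw [sum_subtype (univ.filter (fun e => e ∉ F)) (p := fun e => e ∉ F) (by simp)]
      rfl
    · have h2 : univ.filter (fun e => ¬ e ∉ F) = F := by
        ext e
        simp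
      rw [h2, card_filter, mul_sum]
      refine sum_congr rfl fun e he => ?_
      simp only [Function.comp, q1 e he]
      split_ifs <;> omega
  ext w
  unfold TH362.TF.odd
  rw [mem_filter, mem_filter, h w]
  constructor
  · rintro ⟨-, h1⟩
    exact ⟨mem_univ _, (Nat.odd_add.mp h1).mpr (even_two_mul _)⟩
  · rintro ⟨-, h1⟩
    exact ⟨mem_univ _, h1.add_even (even_two_mul _)⟩

/-- **Cographic 2-blocks with short cocycles.** -/
theorem cog (hx : St_circEx) {s t : E → V} {n : ℕ} {vec : E → Fin n → ZMod 2}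
    (hv : RepCo s t vec) (hinj : Function.Injective vec) (h0 : ∀ e, vec e ≠ 0) (m : ℕ)
    (l : Fin m → (Fin n → ZMod 2) →ₗ[ZMod 2] ZMod 2)
    (h4 : ∀ i, {x | x ∈ Set.range vec ∧ l i x ≠ 0 ∧ ∀ j, j < i → l j x = 0}.ncard ≤ 4)
    (h9 : ((univ.image (comp s t (univ.filter (fun e => ∃ i, l i (vec e) ≠ 0)))).filter
        (fun X => Odd (crs s t X).card)).card ≤ 16 ∨
      Module.finrank (ZMod 2) (Submodule.span (ZMod 2)
        {x | x ∈ Set.range vec ∧ ∀ i, l i x = 0}) ≤ 9) :
    TH362.TF.NZ s t univ ∨ TH362.TF.PQ s t univ := by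
  classical
  set C : Fin m → Finset E := fun i => univ.filter (fun e => l i (vec e) ≠ 0) with hC
  have hCm : ∀ i e, e ∈ C i ↔ l i (vec e) ≠ 0 := by
    intro i e
    simp [hC]
  have hU : univ.biUnion C = univ.filter (fun e => ∃ i, l i (vec e) ≠ 0) := by
    ext e
    rw [mem_biUnion, mem_filter]
    constructor
    · rintro ⟨i, -, hi⟩
      exact ⟨mem_univ _, i, (hCm i e).1 hi⟩
    · rintro ⟨-, i, hi⟩
      exact ⟨i, mem_univ _, (hCm i e).2 hi⟩
  have hbr := hv.br h0
  have hN1 := Y642.RN.n1_of hbr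
  have h1 : ∀ i, BrM s t ((univ.filter (fun j => j < i)).biUnion C)
      (C i \ (univ.filter (fun j => j < i)).biUnion C) := by
    intro i Y hY hcard
    have e1 : crs s t Y ∩ (C i \ (univ.filter (fun j => j < i)).biUnion C) = crs s t Y ∩ C i := by
      ext e
      simp only [mem_inter, mem_sdiff]
      constructor
      · rintro ⟨h1, h2, -⟩
        exact ⟨h1, h2⟩
      · rintro ⟨h1, h2⟩
        exact ⟨h1, h2, fun h3 => (disjoint_left.mp hY) h1 h3⟩
    rw [e1] at hcard
    obtain ⟨a, ha⟩ := card_eq_one.mp hcard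
    have h5 := (hv _).mpr (TH676.Blk.sum_star_mem s t Y)
    have h6 := congrArg (l i) h5
    rw [map_sum, map_zero, sum_eq_single a] at h6
    · have ha1 : a ∈ crs s t Y ∩ C i := by rw [ha]; exact mem_singleton_self a
      rw [mem_inter] at ha1
      have ha2 : a ∈ dlt s t Y := ha1.1
      rw [TH676.Blk.sum_star, if_pos ha2, one_smul] at h6
      exact (hCm i a).1 ha1.2 h6
    · intro b _ hb
      rw [TH676.Blk.sum_star, map_smul]
      by_cases h7 : b ∈ dlt s t Y
      · have h8 : b ∉ C i := by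
          intro h9
          have h10 : b ∈ crs s t Y ∩ C i := mem_inter.mpr ⟨h7, h9⟩
          rw [ha] at h10
          exact hb (mem_singleton.mp h10)
        have h9 : l i (vec b) = 0 := by
          by_contra h
          exact h8 ((hCm i b).2 h)
        rw [h9, smul_zero]
      · rw [if_neg h7, zero_smul]
    · intro h; exact absurd (mem_univ a) h
  have h2 : ∀ i, (C i \ (univ.filter (fun j => j < i)).biUnion C).card ≤ 4 := by
    intro i
    refine le_trans ?_ (h4 i)
    rw [← card_image_of_injective _ hinj, ← Set.ncard_coe_finset]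
    refine Set.ncard_le_ncard ?_ (Set.toFinite _)
    intro x hx1
    rw [mem_coe, mem_image] at hx1
    obtain ⟨e, he, rfl⟩ := hx1
    rw [mem_sdiff] at he
    refine ⟨⟨e, rfl⟩, (hCm i e).1 he.1, fun j hj => ?_⟩
    by_contra h
    exact he.2 (mem_biUnion.mpr ⟨j, by simp [hj], (hCm j e).2 h⟩)
  rcases h9 with h9 | h9
  · refine four hx s t m C h1 h2 hN1 ?_
    rw [hU]
    exact h9
  · refine fourR hx s t m C h1 h2 hN1 ?_
    intro r q1 q3
    have hrep := repCo_contract hv (univ.biUnion C) r q1 q3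
    rw [odd_sub s t (univ.biUnion C) r q1]
    refine Y642.RN.odd_le hrep (hrep.br (fun e => h0 e)) ?_
    have e2 : Set.range (fun e : {e // e ∉ univ.biUnion C} => vec e) =
        {x | x ∈ Set.range vec ∧ ∀ i, l i x = 0} := by
      ext x
      constructor
      · rintro ⟨e, rfl⟩
        refine ⟨⟨e, rfl⟩, fun i => ?_⟩
        by_contra h
        exact e.2 (mem_biUnion.mpr ⟨i, mem_univ _, (hCm i e).2 h⟩)
      · rintro ⟨⟨e, rfl⟩, he⟩
        refine ⟨⟨e, fun h => ?_⟩, rfl⟩
        obtain ⟨i, -, hi⟩ := mem_biUnion.mp h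
        exact (hCm i e).1 hi (he i)
    rw [e2]
    exact h9

end Pool.Agent.R926.SC
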