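import Pool.Agent.Y335.FL.Local11
import Pool.Agent.TH676.Z.MacCon
import Pool.Agent.TH676.Z.MacDel

set_option autoImplicit false
set_option linter.unusedSectionVars false

/-! # Edge sets with at most eleven edges and no bridge modulo `F` can be contracted -/

namespace Pool.Agent.R926.SC

open Finset Pool.Agent.TH676.Z Pool.Agent.Y335.FL

variable {V E : Type} [Fintype V] [DecidableEq V] [Fintype E] [DecidableEq E]

/-- `S` has no bridge modulo `F` -/
def BrM (src dst : E → V) (F S : Finset E) : Prop :=
  ∀ Y : Finset V, Disjoint (crs src dst Y) F → (crs src dst Y ∩ S).card ≠ 1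

theorem mem_crs (src dst : E → V) (Y : Finset V) (e : E) :
    e ∈ crs src dst Y ↔ ¬ (src e ∈ Y ↔ dst e ∈ Y) := by
  simp [crs]

theorem trailC (hc : St_contract) (hx : St_circEx) (src dst : E → V) (n : ℕ) :
    ∀ (F S : Finset E), BrM src dst F S → S.card = n → n ≤ 11 →
    FlowOn src dst ∅ (F ∪ S) → FlowOn src dst ∅ F := by
  induction n using Nat.strong_induction_on with
  | _ n ih =>
  intro F S hB hn hn11 hFS
  rcases S.eq_empty_or_nonempty with rfl | hSne
  · simpa using hFS
  obtain ⟨r, hr1, hr2, hr3⟩ := Local11.quot src dst F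
  have hfin : FlowOn (r ∘ src) (r ∘ dst) ∅ ∅ → FlowOn src dst ∅ F := by
    intro h
    simpa using hr2 ∅ h
  by_cases hlp : ∃ e ∈ S, r (src e) = r (dst e)
  · obtain ⟨e, heS, he⟩ := hlp
    have h1 : FlowOn src dst ∅ (insert e F) := by
      refine ih (S.erase e).card ?_ (insert e F) (S.erase e) ?_ rfl ?_ ?_
      · rw [← hn]; exact card_erase_lt_of_mem heS
      · intro Y hY
        have h2 : e ∉ crs src dst Y := fun h => (disjoint_left.1 hY) h (mem_insert_self _ _)
        have h3 : crs src dst Y ∩ S.erase e = crs src dst Y ∩ S := by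
          ext a
          simp only [mem_inter, mem_erase]
          constructor
          · rintro ⟨h4, -, h5⟩
            exact ⟨h4, h5⟩
          · rintro ⟨h4, h5⟩
            exact ⟨h4, fun h => h2 (h ▸ h4), h5⟩
        rw [h3]
        exact hB Y (disjoint_of_subset_right (subset_insert _ _) hY)
      · exact (card_le_card (erase_subset _ _)).trans (hn ▸ hn11)
      · refine Trail.flowOn_mono src dst ?_ hFS
        intro a ha
        simp only [mem_union, mem_insert, mem_erase] at ha ⊢
        tauto
    have h2 := Trail.flowOn_comp src dst r _ h1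
    apply hfin
    refine Trail.flowOn_loops (r ∘ src) (r ∘ dst) (F := insert e F) (X := ∅) ?_ (by simpa using h2)
    intro a ha
    rcases mem_insert.mp ha with rfl | ha
    · exact he
    · exact hr1 a ha
  · push Not at hlp
    have hdeg : ∀ x, ∀ e ∈ S, ((r ∘ src) e = x ∨ (r ∘ dst) e = x) →
        ∃ e' ∈ S, e' ≠ e ∧ ((r ∘ src) e' = x ∨ (r ∘ dst) e' = x) := by
      intro x e heS hex
      by_contra hcon
      push Not at hcon
      set Y : Finset V := univ.filter (fun y => r y = x) with hYdef
      have hYm : ∀ y, y ∈ Y ↔ r y = x := by simp [hYdef]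
      have hdis : Disjoint (crs src dst Y) F := by
        rw [disjoint_left]
        intro a ha haF
        rw [mem_crs, hYm, hYm, hr1 a haF] at ha
        exact ha Iff.rfl
      refine hB Y hdis ?_
      rw [card_eq_one]
      refine ⟨e, ?_⟩
      ext a
      rw [mem_inter, mem_singleton, mem_crs, hYm, hYm]
      constructor
      · rintro ⟨h1, h2⟩
        by_contra hae
        have h3 := hcon a h2 hae
        simp only [Function.comp] at h3
        exact h1 ⟨fun h => absurd h h3.1, fun h => absurd h h3.2⟩
      · rintro rfl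
        refine ⟨fun h => ?_, heS⟩
        have h3 := hlp a heS
        simp only [Function.comp] at hex
        rcases hex with h4 | h4
        · exact h3 (h4.trans (h.1 h4).symm)
        · exact h3 ((h.2 h4).trans h4.symm)
    obtain ⟨k, v, ed, hv, hed, hJ, hS⟩ := hx V E (r ∘ src) (r ∘ dst) S hSne hlp hdeg
    have hsub : univ.image ed ⊆ S := by
      intro a ha
      obtain ⟨i, -, rfl⟩ := mem_image.mp ha
      exact hS i
    have hcard : (univ.image ed).card = k + 2 := by
      rw [card_image_of_injective _ hed]; simp
    have hle := card_le_card hsub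
    have h1 : FlowOn src dst ∅ (F ∪ univ.image ed) := by
      refine ih (S \ univ.image ed).card ?_ (F ∪ univ.image ed) (S \ univ.image ed) ?_ rfl ?_ ?_
      · rw [card_sdiff_of_subset hsub]; omega
      · intro Y hY
        have hd := disjoint_union_right.1 hY
        have h3 : crs src dst Y ∩ (S \ univ.image ed) = crs src dst Y ∩ S := by
          ext a
          simp only [mem_inter, mem_sdiff]
          constructor
          · rintro ⟨h4, h5, -⟩
            exact ⟨h4, h5⟩
          · rintro ⟨h4, h5⟩
            exact ⟨h4, h5, fun h => (disjoint_left.1 hd.2) h4 h⟩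
        rw [h3]
        exact hB Y hd.1
      · rw [card_sdiff_of_subset hsub]; omega
      · refine Trail.flowOn_mono src dst ?_ hFS
        intro a ha
        simp only [mem_union, mem_sdiff] at ha ⊢
        tauto
    have h2 := Trail.flowOn_comp src dst r _ h1
    have h3 : FlowOn (r ∘ src) (r ∘ dst) ∅ (univ.image ed) :=
      Trail.flowOn_loops (r ∘ src) (r ∘ dst) (F := F) (fun a ha => hr1 a ha) h2
    apply hfin
    exact hc V E (r ∘ src) (r ∘ dst) ∅ k (by omega) v ed hv hed hJ (fun i => notMem_empty _) h3

/-- the edges of the support of `x` -/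
def spt (x : E → ZMod 2) : Finset E := univ.filter (fun e => x e ≠ 0)

theorem mem_spt (x : E → ZMod 2) (e : E) : e ∈ spt x ↔ x e ≠ 0 := by simp [spt]

theorem sum_cut (src dst : E → V) (x : E → ZMod 2) (hx : ∀ v, bd2 src dst x v = 0)
    (Y : Finset V) : ∑ e ∈ crs src dst Y, x e = 0 := by
  have h1 : ∑ v ∈ Y, bd2 src dst x v = 0 := sum_eq_zero fun v _ => hx v
  unfold bd2 at h1
  rw [sum_comm] at h1
  rw [← h1]
  unfold crs
  rw [sum_filter]
  refine sum_congr rfl fun e _ => ?_
  rw [sum_add_distrib, Finset.sum_ite_eq, Finset.sum_ite_eq]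
  by_cases h2 : src e ∈ Y <;> by_cases h3 : dst e ∈ Y <;> simp [h2, h3, CharTwo.add_self_eq_zero]

theorem spt_br (src dst : E → V) (x : E → ZMod 2) (hx : ∀ v, bd2 src dst x v = 0)
    (F : Finset E) : BrM src dst F (spt x \ F) := by
  intro Y hY h1
  rw [card_eq_one] at h1
  obtain ⟨e, he⟩ := h1
  have h2 := sum_cut src dst x hx Y
  have h3 : ∑ a ∈ crs src dst Y, x a = ∑ a ∈ crs src dst Y ∩ (spt x \ F), x a := by
    symm
    refine sum_subset inter_subset_left fun a ha h4 => ?_
    by_contra h5
    refine h4 (mem_inter.mpr ⟨ha, mem_sdiff.mpr ⟨(mem_spt x a).mpr h5, fun h => ?_⟩⟩)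
    exact (disjoint_left.1 hY) ha h
  rw [h3, he, sum_singleton] at h2
  have h4 : e ∈ crs src dst Y ∩ (spt x \ F) := by rw [he]; exact mem_singleton_self _
  exact (mem_spt x e).mp (mem_sdiff.mp (mem_inter.mp h4).2).1 h2

/-- contraction of finitely many short elements of the cycle space -/
theorem fold (hc : St_contract) (hx : St_circEx) (src dst : E → V) (T : Finset (E → ZMod 2))
    (hT : ∀ x ∈ T, (∀ v, bd2 src dst x v = 0) ∧ (spt x).card ≤ 11) :
    FlowOn src dst ∅ (T.biUnion spt) → FlowOn src dst ∅ ∅ := by
  classical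
  induction T using Finset.induction_on with
  | empty => intro h; simpa using h
  | insert x T hxT ih =>
    intro h
    apply ih (fun y hy => hT y (mem_insert_of_mem hy))
    refine trailC hc hx src dst (spt x \ T.biUnion spt).card (T.biUnion spt)
      (spt x \ T.biUnion spt) (spt_br src dst x (hT x (mem_insert_self _ _)).1 _) rfl
      ((card_le_card sdiff_subset).trans (hT x (mem_insert_self _ _)).2) ?_
    refine Trail.flowOn_mono src dst ?_ h
    rw [biUnion_insert]
    intro a ha
    simp only [mem_union, mem_sdiff] at ha ⊢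
    tauto

/-- the chain form: each of the sets has no bridge modulo the union of the earlier ones and at most
eleven edges outside this union -/
theorem foldL (hc : St_contract) (hx : St_circEx) (src dst : E → V) (m : ℕ) :
    ∀ C : Fin m → Finset E,
    (∀ i, BrM src dst ((univ.filter (fun j => j < i)).biUnion C)
      (C i \ (univ.filter (fun j => j < i)).biUnion C)) →
    (∀ i, (C i \ (univ.filter (fun j => j < i)).biUnion C).card ≤ 11) →
    FlowOn src dst ∅ (univ.biUnion C) → FlowOn src dst ∅ ∅ := by
  induction m with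
  | zero => intro C _ _ h; simpa using h
  | succ m ih =>
    intro C h1 h2 h
    have e0 : (univ.filter (fun j => j < Fin.last m)).biUnion C =
        univ.biUnion (fun i : Fin m => C i.castSucc) := by
      ext a
      simp only [mem_biUnion, mem_filter, mem_univ, true_and]
      constructor
      · rintro ⟨j, hj, ha⟩
        exact ⟨⟨j, hj⟩, ha⟩
      · rintro ⟨j, ha⟩
        exact ⟨j.castSucc, Fin.castSucc_lt_last j, ha⟩
    have e1 : ∀ i : Fin m, (univ.filter (fun j => j < i.castSucc)).biUnion C =
        (univ.filter (fun j => j < i)).biUnion (fun i : Fin m => C i.castSucc) := by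
      intro i
      ext a
      simp only [mem_biUnion, mem_filter, mem_univ, true_and]
      constructor
      · rintro ⟨j, hj, ha⟩
        have hjm : (j : ℕ) < m := lt_trans hj i.2
        exact ⟨⟨j, hjm⟩, hj, ha⟩
      · rintro ⟨j, hj, ha⟩
        exact ⟨j.castSucc, hj, ha⟩
    refine ih (fun i => C i.castSucc) (fun i => ?_) (fun i => ?_) ?_
    · rw [← e1]; exact h1 i.castSucc
    · rw [← e1]; exact h2 i.castSucc
    · have h3 := h1 (Fin.last m)
      have h4 := h2 (Fin.last m)
      rw [e0] at h3 h4
      refine trailC hc hx src dst _ _ _ h3 rfl h4 (Trail.flowOn_mono src dst ?_ h)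
      intro a ha
      obtain ⟨j, -, hj⟩ := mem_biUnion.mp ha
      rw [mem_union]
      rcases Fin.lt_or_eq_of_le (Fin.le_last j) with hlt | rfl
      · left
        exact mem_biUnion.mpr ⟨⟨j, hlt⟩, mem_univ _, hj⟩
      · by_cases h5 : a ∈ univ.biUnion (fun i : Fin m => C i.castSucc)
        · exact Or.inl h5
        · exact Or.inr (mem_sdiff.mpr ⟨hj, h5⟩)

/-- the quotient by the components of `F`, with the lifting of cycles modulo two -/
theorem quotC (src dst : E → V) (F : Finset E) : ∃ r : V → V,
    (∀ e ∈ F, r (src e) = r (dst e)) ∧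
    (∀ X, FlowOn (r ∘ src) (r ∘ dst) ∅ X → FlowOn src dst ∅ (F ∪ X)) ∧
    (∀ Y : Finset V, Disjoint (crs src dst Y) F → ∀ x y, r x = r y → (x ∈ Y ↔ y ∈ Y)) ∧
    ∀ y : E → ZMod 2, (∀ v, bd2 (r ∘ src) (r ∘ dst) y v = 0) →
      ∃ x : E → ZMod 2, (∀ v, bd2 src dst x v = 0) ∧ ∀ e, e ∉ F → x e = y e := by
  induction F using Finset.induction_on with
  | empty => exact ⟨id, by simp, fun X hX => by simpa using hX, fun Y _ x y h => by
      have : x = y := h
      rw [this], fun y hy => ⟨y, hy, fun _ _ => rfl⟩⟩
  | insert e F he ih =>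
    obtain ⟨r, h1, h2, h3, h4⟩ := ih
    have hsub : ∀ Y : Finset V, Disjoint (crs src dst Y) (insert e F) →
        Disjoint (crs src dst Y) F := fun Y hY =>
      disjoint_of_subset_right (subset_insert _ _) hY
    by_cases hr : r (src e) = r (dst e)
    · refine ⟨r, fun a ha => ?_, fun X hX => Trail.flowOn_mono src dst ?_ (h2 X hX),
        fun Y hY => h3 Y (hsub Y hY), fun y hy => ?_⟩
      · rcases mem_insert.mp ha with rfl | ha
        · exact hr
        · exact h1 a ha
      · exact union_subset_union (subset_insert _ _) (Subset.refl _)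
      · obtain ⟨x, hx, hxy⟩ := h4 y hy
        exact ⟨x, hx, fun a ha => hxy a (fun h => ha (mem_insert_of_mem h))⟩
    · refine ⟨ctr (r (src e)) (r (dst e)) ∘ r, fun a ha => ?_, fun X hX => ?_, ?_, ?_⟩
      · rcases mem_insert.mp ha with rfl | ha
        · simp [ctr]
        · simp [h1 a ha]
      · have h3 : FlowOn (r ∘ src) (r ∘ dst) ∅ (insert e X) :=
          Trail.step (r ∘ src) (r ∘ dst) e hr X hX
        refine Trail.flowOn_mono src dst ?_ (h2 _ h3)
        intro a ha
        simp only [mem_union, mem_insert] at ha ⊢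
        tauto
      · intro Y hY x y hxy
        have h4 := h3 Y (hsub Y hY)
        have h5 : src e ∈ Y ↔ dst e ∈ Y := by
          by_contra hcon
          exact (disjoint_left.1 hY) ((mem_crs src dst Y e).2 hcon) (mem_insert_self _ _)
        simp only [Function.comp, ctr] at hxy
        split_ifs at hxy with hx hy hy
        · exact (h4 x (dst e) hx).trans (h4 y (dst e) hy).symm
        · exact (h4 x (dst e) hx).trans (h5.symm.trans (h4 (src e) y hxy))
        · exact (h4 x (src e) hxy).trans (h5.trans (h4 (dst e) y hy.symm))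
        · exact h4 x y hxy
      · intro y hy
        set s := r ∘ src with hs
        set d := r ∘ dst with hd
        have hne : s e ≠ d e := hr
        have hy' : ∀ v, bd2 (ctr (s e) (d e) ∘ s) (ctr (s e) (d e) ∘ d) y v = 0 := hy
        have hb : ∀ x, x ≠ s e → x ≠ d e → bd2 s d y x = 0 := by
          intro x h1 h2
          have h3 := hy' x
          rw [MacConx.bd2_ctr s d _ _ hne, if_neg h2, if_neg h1] at h3
          exact h3
        have hb2 : bd2 s d y (s e) + bd2 s d y (d e) = 0 := by
          have h3 := hy' (s e)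
          rw [MacConx.bd2_ctr s d _ _ hne, if_neg hne, if_pos rfl] at h3
          exact h3
        have hb3 : bd2 s d y (s e) = bd2 s d y (d e) := CharTwo.add_eq_zero.mp hb2
        obtain ⟨x, hx, hxy⟩ := h4 (y + Pi.single e (bd2 s d y (d e))) (fun v => by
          rw [MacConx.bd2_add, MacConx.bd2_single]
          by_cases h1 : s e = v
          · have h2 : d e ≠ v := fun h => hne (h1.trans h.symm)
            rw [if_pos h1, if_neg h2, add_zero, ← h1, hb2]
          · by_cases h2 : d e = v
            · rw [if_neg h1, if_pos h2, zero_add, ← h2, CharTwo.add_self_eq_zero]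
            · rw [if_neg h1, if_neg h2, hb v (Ne.symm h1) (Ne.symm h2)]; simp)
        refine ⟨x, hx, fun a ha => ?_⟩
        have hae : a ≠ e := by
          rintro rfl
          exact ha (mem_insert_self _ _)
        rw [hxy a (fun h => ha (mem_insert_of_mem h)), Pi.add_apply,
          Pi.single_eq_of_ne hae, add_zero]

end Pool.Agent.R926.SC
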