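import Pool.Agent.R926.SC.Base
import Pool.Agent.Y335.FL.Stm2
import Mathlib.LinearAlgebra.FiniteDimensional.Lemmas

set_option autoImplicit false
set_option linter.unusedSectionVars false

/-! # Short elements of the cycle space: the dimension of the quotient -/

namespace Pool.Agent.R926.SC

open Finset Pool.Agent.TH676.Z Pool.Agent.Y335.FL Module

variable {V E : Type} [Fintype V] [DecidableEq V] [Fintype E] [DecidableEq E]

section quotient

variable (src dst : E → V) (F : Finset E) (r : V → V)

/-- the ends of the edges outside `F` in the quotient -/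
def qs (e : {e : E // e ∉ F}) : V := r (src e)

/-- the ends of the edges outside `F` in the quotient -/
def qd (e : {e : E // e ∉ F}) : V := r (dst e)

variable {src dst F r}

theorem crs_q (h1 : ∀ e ∈ F, r (src e) = r (dst e)) (Y : Finset V) :
    (crs (qs src F r) (qd dst F r) Y).card =
      (crs src dst (univ.filter (fun x => r x ∈ Y))).card := by
  refine card_bij (fun e _ => e.1) ?_ ?_ ?_
  · intro e he
    rw [mem_crs] at he ⊢
    simpa [qs, qd] using he
  · intro a _ b _ h
    exact Subtype.ext h
  · intro e he
    rw [mem_crs] at he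
    have h2 : e ∉ F := by
      intro h
      apply he
      simp [h1 e h]
    refine ⟨⟨e, h2⟩, ?_, rfl⟩
    rw [mem_crs]
    simpa [qs, qd] using he

theorem br_q (h1 : ∀ e ∈ F, r (src e) = r (dst e)) (hb : Br src dst ∅ ∅) :
    Br (qs src F r) (qd dst F r) ∅ ∅ := by
  intro Y _
  rw [sdiff_empty, crs_q h1]
  have h2 := hb (univ.filter (fun x => r x ∈ Y)) (disjoint_empty_right _)
  rwa [sdiff_empty] at h2

theorem sum_off {M : Type} [AddCommMonoid M] (F : Finset E) (g : E → M)
    (hg : ∀ e ∈ F, g e = 0) : ∑ e, g e = ∑ e : {e : E // e ∉ F}, g e.1 := by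
  rw [← Finset.sum_subtype (univ.filter (fun e => e ∉ F)) (by simp) g]
  symm
  refine sum_subset (filter_subset _ _) fun e _ he => ?_
  rw [mem_filter] at he
  push Not at he
  exact hg e (he (mem_univ _))

theorem flow_q (h : FlowOn (qs src F r) (qd dst F r) ∅ ∅) :
    FlowOn (r ∘ src) (r ∘ dst) ∅ F := by
  obtain ⟨f, h2, -, h3⟩ := h
  set g : E → ZMod 5 := fun e => if h : e ∉ F then f ⟨e, h⟩ else 0 with hg
  have hg1 : ∀ e : {e : E // e ∉ F}, g e.1 = f e := by
    intro e
    simp only [hg, dif_pos e.2]
  have hg2 : ∀ e ∈ F, g e = 0 := by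
    intro e he
    simp only [hg]
    rw [dif_neg (fun h => h he)]
  refine ⟨g, fun v => ?_, fun e he => absurd he (notMem_empty _), fun e _ he => ?_⟩
  · refine Eq.trans ?_ (h2 v)
    unfold bd
    rw [sum_off F]
    · refine sum_congr rfl fun e _ => ?_
      rw [hg1]
      rfl
    · intro e he
      simp [hg2 e he]
  · rw [hg1 ⟨e, he⟩]
    exact h3 _ (notMem_empty _) (notMem_empty _)

end quotient

/-- restriction to the edges outside `F` -/
def res (F : Finset E) : (E → ZMod 2) →ₗ[ZMod 2] ({e : E // e ∉ F} → ZMod 2) where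
  toFun x := fun e => x e.1
  map_add' _ _ := rfl
  map_smul' _ _ := rfl

theorem dim_q {src dst : E → V} {F : Finset E} {r : V → V} (S : Finset V)
    (h4 : ∀ y : E → ZMod 2, (∀ v, bd2 (r ∘ src) (r ∘ dst) y v = 0) →
      ∃ x : E → ZMod 2, (∀ v, bd2 src dst x v = 0) ∧ ∀ e, e ∉ F → x e = y e)
    (hF : F ⊆ ES src dst S) (T : Submodule (ZMod 2) (E → ZMod 2))
    (hT : T ≤ ZF src dst (ES src dst S)) (hTF : ∀ x ∈ T, ∀ e, e ∉ F → x e = 0) :
    finrank (ZMod 2) (ZF (qs src F r) (qd dst F r)
        (ES (qs src F r) (qd dst F r) (S.image r))) + finrank (ZMod 2) T ≤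
      finrank (ZMod 2) (ZF src dst (ES src dst S)) := by
  set Z := ZF src dst (ES src dst S) with hZ
  set Z' := ZF (qs src F r) (qd dst F r) (ES (qs src F r) (qd dst F r) (S.image r)) with hZ'
  have hle : Z' ≤ LinearMap.range ((res F).domRestrict Z) := by
    intro y' hy'
    obtain ⟨hy1, hy2⟩ := hy'
    set y : E → ZMod 2 := fun e => if h : e ∉ F then y' ⟨e, h⟩ else 0 with hy
    have hg1 : ∀ e : {e : E // e ∉ F}, y e.1 = y' e := by
      intro e
      simp only [hy, dif_pos e.2]
    have hg2 : ∀ e ∈ F, y e = 0 := by
      intro e he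
      simp only [hy]
      rw [dif_neg (fun h => h he)]
    have hb : ∀ v, bd2 (r ∘ src) (r ∘ dst) y v = 0 := by
      intro v
      refine Eq.trans ?_ (hy2 v)
      unfold bd2
      rw [sum_off F]
      · refine sum_congr rfl fun e _ => ?_
        rw [hg1]
        rfl
      · intro e he
        simp [hg2 e he]
    obtain ⟨x, hx, hxy⟩ := h4 y hb
    have hxZ : x ∈ Z := by
      refine ⟨fun e he => ?_, hx⟩
      have heF : e ∉ F := fun h => he (hF h)
      rw [hxy e heF, hg1 ⟨e, heF⟩]
      apply hy1
      intro h
      apply he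
      unfold ES at h ⊢
      rw [mem_filter] at h ⊢
      obtain ⟨-, a1, a2, a3⟩ := h
      refine ⟨mem_univ _, fun h => a1 ?_, fun h => a2 ?_, fun h => a3 ?_⟩
      · simp only [qs, qd, h]
      · exact mem_image_of_mem r h
      · exact mem_image_of_mem r h
    refine ⟨⟨x, hxZ⟩, ?_⟩
    funext e
    change x e.1 = y' e
    rw [hxy e.1 e.2, hg1]
  have h5 := LinearMap.finrank_range_add_finrank_ker ((res F).domRestrict Z)
  have h6 : finrank (ZMod 2) Z' ≤ finrank (ZMod 2) (LinearMap.range ((res F).domRestrict Z)) :=
    Submodule.finrank_mono hle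
  have h7 : finrank (ZMod 2) T ≤
      finrank (ZMod 2) (LinearMap.ker ((res F).domRestrict Z)) := by
    rw [← Submodule.finrank_map_subtype_eq Z (LinearMap.ker ((res F).domRestrict Z))]
    refine Submodule.finrank_mono ?_
    intro x hx
    refine ⟨⟨x, hT hx⟩, ?_, rfl⟩
    rw [SetLike.mem_coe, LinearMap.mem_ker]
    funext e
    exact hTF x hx e.1 e.2
  omega

/-- **Short elements.**  `T` is a finite set of elements of the cycle space of `G - S` with at most
eleven edges. -/
theorem codim (hc : St_contract) (hx : St_circEx) (hcy : St_cyc) (src dst : E → V) (S : Finset V)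
    (T : Finset (E → ZMod 2))
    (hT : ∀ x ∈ T, x ∈ ZF src dst (ES src dst S) ∧ (spt x).card ≤ 11)
    (hdim : finrank (ZMod 2) (ZF src dst (ES src dst S)) + 2 * S.card ≤
      63 + finrank (ZMod 2) (Submodule.span (ZMod 2) (T : Set (E → ZMod 2))))
    (hb : Br src dst ∅ ∅) : FlowOn src dst ∅ ∅ := by
  classical
  refine fold hc hx src dst T (fun x h => ⟨(hT x h).1.2, (hT x h).2⟩) ?_
  set F := T.biUnion spt with hF
  obtain ⟨r, h1, h2, h3, h4⟩ := quotC src dst F
  have hFS : F ⊆ ES src dst S := by
    intro e he
    obtain ⟨x, hx, hxe⟩ := mem_biUnion.mp he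
    by_contra h
    exact (mem_spt x e).mp hxe ((hT x hx).1.1 e h)
  have h5 := dim_q (r := r) S h4 hFS (Submodule.span (ZMod 2) (T : Set (E → ZMod 2)))
    (Submodule.span_le.mpr fun x hx => (hT x hx).1) (by
      intro x hx e he
      induction hx using Submodule.span_induction with
      | mem x hx =>
        by_contra h
        exact he (mem_biUnion.mpr ⟨x, hx, (mem_spt x e).mpr h⟩)
      | zero => rfl
      | add x y _ _ h1 h2 => rw [Pi.add_apply, h1, h2, add_zero]
      | smul c x _ h1 => rw [Pi.smul_apply, h1, smul_zero])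
  have h6 := hcy V {e : E // e ∉ F} (qs src F r) (qd dst F r) (S.image r) (by
    have : (S.image r).card ≤ S.card := card_image_le
    omega) (br_q h1 hb)
  have h7 := h2 F (flow_q h6)
  rwa [union_self] at h7

/-- the vertices of the component of `x` in the graph with edge set `F` -/
noncomputable def comp (src dst : E → V) (F : Finset E) (x : V) : Finset V :=
  open Classical in univ.filter (fun y =>
    Relation.EqvGen (fun a b => ∃ e ∈ F, src e = a ∧ dst e = b) x y)

theorem mem_comp (src dst : E → V) (F : Finset E) (x y : V) : y ∈ comp src dst F x ↔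
    Relation.EqvGen (fun a b => ∃ e ∈ F, src e = a ∧ dst e = b) x y := by
  simp [comp]

/-- **Pieces.**  At most 125 components of `F` have at least three boundary edges. -/
theorem pieces (ho : St_order) (src dst : E → V) (F : Finset E)
    (h125 : ((univ.image (comp src dst F)).filter
      (fun X => 3 ≤ (crs src dst X).card)).card ≤ 125)
    (hb : Br src dst ∅ ∅) : FlowOn src dst ∅ F := by
  classical
  obtain ⟨r, h1, h2, h3, -⟩ := quotC src dst F
  have hr : ∀ x y, r x = r y ↔ y ∈ comp src dst F x := by
    intro x y
    constructor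
    · intro h
      have hd : Disjoint (crs src dst (comp src dst F x)) F := by
        rw [disjoint_left]
        intro e he heF
        rw [mem_crs] at he
        apply he
        rw [mem_comp, mem_comp]
        have h5 : Relation.EqvGen (fun a b => ∃ e ∈ F, src e = a ∧ dst e = b) (src e) (dst e) :=
          Relation.EqvGen.rel _ _ ⟨e, heF, rfl, rfl⟩
        exact ⟨fun h => h.trans _ _ _ h5, fun h => h.trans _ _ _ (h5.symm _ _)⟩
      exact (h3 _ hd x y h).1 ((mem_comp src dst F x x).mpr (Relation.EqvGen.refl _))
    · intro h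
      rw [mem_comp] at h
      induction h with
      | rel a b hab =>
        obtain ⟨e, he, rfl, rfl⟩ := hab
        exact h1 e he
      | refl a => rfl
      | symm a b _ ih => exact ih.symm
      | trans a b c _ _ i1 i2 => exact i1.trans i2
  have h6 := ho V {e : E // e ∉ F} (qs src F r) (qd dst F r) ?_ (br_q h1 hb)
  · have h7 := h2 F (flow_q h6)
    rwa [union_self] at h7
  · refine le_trans ?_ h125
    have hdg : ∀ w, dg (qs src F r) (qd dst F r) w =
        (crs src dst (univ.filter (fun x => r x = w))).card := by
      intro w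
      have e1 : (univ.filter (fun x => r x = w)) = univ.filter (fun x => r x ∈ ({w} : Finset V)) := by
        ext x; simp
      rw [e1, ← crs_q h1]
      unfold dg
      congr 1
      ext e
      rw [mem_filter, mem_crs, mem_singleton, mem_singleton]
      constructor
      · rintro ⟨-, a1, a2⟩ a3
        rcases a2 with a2 | a2
        · exact a1 (a2.trans (a3.1 a2).symm)
        · exact a1 ((a3.2 a2).trans a2.symm)
      · intro a
        refine ⟨mem_univ _, fun h => a (by rw [h]), ?_⟩
        by_contra h
        rw [not_or] at h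
        exact a ⟨fun h5 => absurd h5 h.1, fun h5 => absurd h5 h.2⟩
    refine card_le_card_of_injOn (fun w => univ.filter (fun x => r x = w)) ?_ ?_
    · intro w hw
      rw [mem_coe, mem_filter] at hw
      have hw2 := hw.2
      rw [hdg] at hw2
      have hne : (univ.filter (fun x => r x = w)).Nonempty := by
        rw [nonempty_iff_ne_empty]
        intro h
        rw [h] at hw2
        simp [crs] at hw2
      obtain ⟨x, hx⟩ := hne
      have hxw : r x = w := (mem_filter.mp hx).2
      rw [mem_coe, mem_filter, mem_image]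
      refine ⟨⟨x, mem_univ _, ?_⟩, hw2⟩
      ext y
      rw [← hr, mem_filter, ← hxw]
      simp only [mem_univ, true_and]
      exact eq_comm
    · intro w hw w' hw' h
      rw [mem_coe, mem_filter] at hw
      have hw2 := hw.2
      rw [hdg] at hw2
      have hne : (univ.filter (fun x => r x = w)).Nonempty := by
        rw [nonempty_iff_ne_empty]
        intro h
        rw [h] at hw2
        simp [crs] at hw2
      obtain ⟨x, hx⟩ := hne
      have hxw : r x = w := (mem_filter.mp hx).2
      beta_reduce at h
      rw [h] at hx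
      exact hxw.symm.trans (mem_filter.mp hx).2

end Pool.Agent.R926.SC
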