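import Pool.Agent.R926.SC.Induced
import Pool.Agent.TH362.TF.Main

set_option autoImplicit false
set_option linter.unusedSectionVars false

/-! # Nowhere-zero 4-flows: contraction of circuits with at most three edges -/

namespace Pool.Agent.R926.SC

open Finset Pool.Agent.TH676.Z Pool.Agent.Y335.FL

variable {V E : Type} [Fintype V] [DecidableEq V] [Fintype E] [DecidableEq E]

/-- a flow with values in the group of order four (exponent two) which is nonzero outside `C` -/
def FlA (s t : E → V) (C : Finset E) : Prop :=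
  ∃ x y : E → ZMod 2, (∀ v, bd2 s t x v = 0) ∧ (∀ v, bd2 s t y v = 0) ∧
    ∀ e, e ∉ C → x e ≠ 0 ∨ y e ≠ 0

theorem flA_mono (s t : E → V) {C C' : Finset E} (hC : C ⊆ C') (h : FlA s t C) : FlA s t C' := by
  obtain ⟨x, y, h1, h2, h3⟩ := h
  exact ⟨x, y, h1, h2, fun e he => h3 e (fun h => he (hC h))⟩

theorem bd2_comp (s t : E → V) (r : V → V) (f : E → ZMod 2) (h : ∀ v, bd2 s t f v = 0) (y : V) :
    bd2 (r ∘ s) (r ∘ t) f y = 0 := by
  have h1 : bd2 (r ∘ s) (r ∘ t) f y = ∑ x ∈ univ.filter (fun x => r x = y), bd2 s t f x := by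
    unfold bd2
    rw [sum_comm]
    refine sum_congr rfl fun e _ => ?_
    rw [sum_add_distrib]
    have h : ∀ u : V, (∑ x ∈ univ.filter (fun x => r x = y), if u = x then f e else 0)
        = if r u = y then f e else 0 := by
      intro u
      rw [sum_ite_eq]
      simp
    rw [h, h]
    rfl
  rw [h1]
  exact sum_eq_zero fun x _ => h x

theorem flA_comp (s t : E → V) (r : V → V) (C : Finset E) (h : FlA s t C) :
    FlA (r ∘ s) (r ∘ t) C := by
  obtain ⟨x, y, h1, h2, h3⟩ := h
  exact ⟨x, y, bd2_comp s t r x h1, bd2_comp s t r y h2, h3⟩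

theorem flA_loops (s t : E → V) {F X : Finset E} (hF : ∀ e ∈ F, s e = t e)
    (h : FlA s t (F ∪ X)) : FlA s t X := by
  obtain ⟨x, y, h1, h2, h3⟩ := h
  have key : ∀ z : E → ZMod 2, (∀ v, bd2 s t z v = 0) →
      ∀ v, bd2 s t (fun e => if e ∈ F then 1 else z e) v = 0 := by
    intro z hz v
    rw [← hz v]
    unfold bd2
    refine sum_congr rfl fun e _ => ?_
    by_cases he : e ∈ F
    · rw [hF e he, CharTwo.add_self_eq_zero, CharTwo.add_self_eq_zero]
    · simp only [if_neg he]
  refine ⟨fun e => if e ∈ F then 1 else x e, fun e => if e ∈ F then 1 else y e, key x h1,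
    key y h2, fun e he => ?_⟩
  by_cases h : e ∈ F
  · left
    simp [h]
  · simp only [if_neg h]
    exact h3 e (by simp [h, he])

/-- the circuit as an element of the cycle space -/
theorem circ (src dst : E → V) {k : ℕ} {v : Fin (k + 2) → V} {ed : Fin (k + 2) → E}
    (hed : Function.Injective ed) (hJ : ∀ i, Jn src dst (ed i) (v i) (v (i + 1))) (w : V) :
    bd2 src dst (ind (univ.image ed)) w = 0 := by
  set g : ℕ → V := fun m => v (Fin.ofNat (k + 2) m) with hg
  set h : ℕ → E := fun m => ed (Fin.ofNat (k + 2) m) with hh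
  have hgh : ∀ m, Jn src dst (h m) (g m) (g (m + 1)) := by
    intro m
    have h1 := hJ (Fin.ofNat (k + 2) m)
    have h2 : Fin.ofNat (k + 2) m + 1 = Fin.ofNat (k + 2) (m + 1) := by
      apply Fin.ext
      simp [Fin.val_add, Fin.ofNat]
    rw [h2] at h1
    exact h1
  have hinj : ∀ a b, a < k + 2 → b < k + 2 → h a = h b → a = b := by
    intro a b ha hb hab
    have h1 := hed hab
    have h2 := congrArg Fin.val h1
    simp only [Fin.ofNat] at h2
    rwa [Nat.mod_eq_of_lt ha, Nat.mod_eq_of_lt hb] at h2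
  have hval : ∀ a : Fin (k + 2), Fin.ofNat (k + 2) a.val = a := by
    intro a
    apply Fin.ext
    simp only [Fin.ofNat]
    exact Nat.mod_eq_of_lt a.2
  have hg0 : g (k + 2) = g 0 := by
    simp only [hg]
    congr 1
    apply Fin.ext
    simp [Fin.ofNat]
  have hC : univ.image ed = (Ico 0 (k + 2)).image h := by
    ext e
    simp only [mem_image, mem_univ, true_and, mem_Ico]
    constructor
    · rintro ⟨i, rfl⟩
      exact ⟨i.val, ⟨Nat.zero_le _, i.2⟩, by simp only [hh]; rw [hval i]⟩
    · rintro ⟨m, -, rfl⟩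
      exact ⟨_, rfl⟩
  rw [hC, arc src dst g h (k + 2) hinj hgh 0 (k + 2) (Nat.zero_le _) le_rfl w, hg0,
    CharTwo.add_self_eq_zero]

theorem bd2_smul_ind (s t : E → V) (C : Finset E) (a : ZMod 2)
    (h : ∀ w, bd2 s t (ind C) w = 0) (w : V) : bd2 s t (fun e => a * ind C e) w = 0 := by
  have h1 : bd2 s t (fun e => a * ind C e) w = a * bd2 s t (ind C) w := by
    unfold bd2
    rw [mul_sum]
    refine sum_congr rfl fun e _ => ?_
    split_ifs <;> ring
  rw [h1, h w, mul_zero]

theorem contractA (s t : E → V) {k : ℕ} (hk : k + 2 ≤ 3) {v : Fin (k + 2) → V}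
    {ed : Fin (k + 2) → E} (hed : Function.Injective ed)
    (hJ : ∀ i, Jn s t (ed i) (v i) (v (i + 1))) (h : FlA s t (univ.image ed)) : FlA s t ∅ := by
  obtain ⟨x, y, h1, h2, h3⟩ := h
  have hC := circ s t hed hJ
  obtain ⟨p, hp⟩ : ∃ p : ZMod 2 × ZMod 2, p ∉ univ.image (fun i => (x (ed i), y (ed i))) := by
    by_contra hcon
    push Not at hcon
    have h4 : (univ : Finset (ZMod 2 × ZMod 2)) ⊆ univ.image (fun i => (x (ed i), y (ed i))) :=
      fun p _ => hcon p
    have h5 := (card_le_card h4).trans card_image_le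
    have h6 : (univ : Finset (ZMod 2 × ZMod 2)).card = 4 := by decide
    rw [h6, card_univ, Fintype.card_fin] at h5
    omega
  refine ⟨x + fun e => p.1 * ind (univ.image ed) e, y + fun e => p.2 * ind (univ.image ed) e,
    fun w => ?_, fun w => ?_, fun e _ => ?_⟩
  · rw [MacConx.bd2_add, h1 w, bd2_smul_ind s t _ _ hC, add_zero]
  · rw [MacConx.bd2_add, h2 w, bd2_smul_ind s t _ _ hC, add_zero]
  · by_cases he : e ∈ univ.image ed
    · by_contra hcon
      rw [not_or, not_not, not_not] at hcon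
      apply hp
      obtain ⟨i, -, rfl⟩ := mem_image.mp he
      refine mem_image.mpr ⟨i, mem_univ _, ?_⟩
      obtain ⟨h4, h5⟩ := hcon
      simp only [Pi.add_apply, ind, if_pos he, mul_one] at h4 h5
      exact Prod.ext (CharTwo.add_eq_zero.mp h4) (CharTwo.add_eq_zero.mp h5)
    · have h4 := h3 e he
      simp only [Pi.add_apply, ind, if_neg he, mul_zero, add_zero]
      exact h4

end Pool.Agent.R926.SC
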