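import Pool.Agent.R926.SC.Codim

set_option autoImplicit false
set_option linter.unusedSectionVars false

/-! # The cycle space is generated by the induced circuits -/

namespace Pool.Agent.R926.SC

open Finset Pool.Agent.TH676.Z Pool.Agent.Y335.FL Module

variable {V E : Type} [Fintype V] [DecidableEq V] [Fintype E] [DecidableEq E]

/-- the indicator function of a set of edges -/
def ind (A : Finset E) : E → ZMod 2 := fun e => if e ∈ A then 1 else 0

theorem spt_ind (A : Finset E) : spt (ind A) = A := by
  ext e
  rw [mem_spt]
  unfold ind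
  split_ifs with h <;> simp [h]

theorem ind_spt (x : E → ZMod 2) : ind (spt x) = x := by
  funext e
  unfold ind
  by_cases h : x e = 0
  · rw [if_neg (fun h2 => (mem_spt x e).mp h2 h), h]
  · rw [if_pos ((mem_spt x e).mpr h)]
    have : ∀ a : ZMod 2, a ≠ 0 → 1 = a := by decide
    exact this _ h

theorem ind_insert {A : Finset E} {e : E} (h : e ∉ A) :
    ind (insert e A) = ind A + Pi.single e 1 := by
  funext a
  by_cases h1 : a = e
  · subst h1
    simp [ind, h]
  · simp [ind, h1]

/-- the edges `h n`, `i ≤ n < t`, form a path from `g i` to `g t` -/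
theorem arc (src dst : E → V) (g : ℕ → V) (h : ℕ → E) (N : ℕ)
    (hinj : ∀ a b, a < N → b < N → h a = h b → a = b)
    (hJ : ∀ n, Jn src dst (h n) (g n) (g (n + 1))) (i t : ℕ) (hit : i ≤ t) (ht : t ≤ N) (v : V) :
    bd2 src dst (ind ((Ico i t).image h)) v =
      (if g i = v then 1 else 0) + (if g t = v then 1 else 0) := by
  induction t, hit using Nat.le_induction with
  | base =>
    rw [Ico_self, image_empty, CharTwo.add_self_eq_zero]
    unfold bd2 ind
    simp
  | succ t hit ih =>
    have h1 : Ico i (t + 1) = insert t (Ico i t) := by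
      ext a
      simp only [mem_Ico, mem_insert]
      omega
    have h2 : h t ∉ (Ico i t).image h := by
      intro h3
      obtain ⟨a, ha, hat⟩ := mem_image.mp h3
      rw [mem_Ico] at ha
      have := hinj a t (by omega) (by omega) hat
      omega
    rw [h1, image_insert, ind_insert h2, MacConx.bd2_add, ih (by omega), MacConx.bd2_single]
    have h4 : (if src (h t) = v then (1 : ZMod 2) else 0) + (if dst (h t) = v then 1 else 0) =
        (if g t = v then 1 else 0) + (if g (t + 1) = v then 1 else 0) := by
      rcases hJ t with ⟨a, b⟩ | ⟨a, b⟩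
      · rw [a, b]
      · rw [a, b, add_comm]
    rw [h4]
    have h5 : ∀ a b c : ZMod 2, a + b + (b + c) = a + c := by decide
    exact h5 _ _ _

/-- the circuit is induced: there is no edge between two of its vertices which are not
consecutive -/
def IsInduced (src dst : E → V) {k : ℕ} (v : Fin (k + 2) → V) : Prop :=
  ∀ (e : E) (i j : Fin (k + 2)), Jn src dst e (v i) (v j) → i = j ∨ j = i + 1 ∨ i = j + 1

/-- the elements with at most eleven edges -/
noncomputable def shorts (src dst : E → V) (S : Finset V) : Finset (E → ZMod 2) :=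
  open Classical in univ.filter (fun x => x ∈ ZF src dst (ES src dst S) ∧ (spt x).card ≤ 11)

theorem mem_shorts (src dst : E → V) (S : Finset V) (x : E → ZMod 2) :
    x ∈ shorts src dst S ↔ x ∈ ZF src dst (ES src dst S) ∧ (spt x).card ≤ 11 := by
  simp [shorts]

theorem span_shorts (hx : St_circEx) (src dst : E → V) (S : Finset V)
    (hind : ∀ (k : ℕ) (v : Fin (k + 2) → V) (ed : Fin (k + 2) → E), Function.Injective v →
      Function.Injective ed → (∀ i, Jn src dst (ed i) (v i) (v (i + 1))) → (∀ i, v i ∉ S) →
      IsInduced src dst v → k + 2 ≤ 11) (n : ℕ) :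
    ∀ x ∈ ZF src dst (ES src dst S), (spt x).card = n →
      x ∈ Submodule.span (ZMod 2) (shorts src dst S : Set (E → ZMod 2)) := by
  induction n using Nat.strong_induction_on with
  | _ n ih =>
  intro x hxZ hn
  rcases Nat.lt_or_ge 11 n with h11 | h11
  swap
  · exact Submodule.subset_span ((mem_shorts src dst S x).mpr ⟨hxZ, by omega⟩)
  have hES : ∀ e ∈ spt x, e ∈ ES src dst S := by
    intro e he
    by_contra h
    exact (mem_spt x e).mp he (hxZ.1 e h)
  have hne : (spt x).Nonempty := by
    rw [← card_pos]
    omega
  have hlp : ∀ e ∈ spt x, src e ≠ dst e := fun e he => (mem_filter.mp (hES e he)).2.1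
  have hdeg : ∀ y, ∀ e ∈ spt x, (src e = y ∨ dst e = y) →
      ∃ e' ∈ spt x, e' ≠ e ∧ (src e' = y ∨ dst e' = y) := by
    intro y e he hey
    by_contra hcon
    push Not at hcon
    have h0 := hxZ.2 y
    unfold bd2 at h0
    rw [sum_eq_single e] at h0
    · have h1 := hlp e he
      have h2 := (mem_spt x e).mp he
      rcases hey with h3 | h3
      · have h4 : ¬ dst e = y := fun h => h1 (h3.trans h.symm)
        rw [if_pos h3, if_neg h4, add_zero] at h0
        exact h2 h0
      · have h4 : ¬ src e = y := fun h => h1 (h.trans h3.symm)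
        rw [if_neg h4, if_pos h3, zero_add] at h0
        exact h2 h0
    · intro a _ hae
      by_cases ha : a ∈ spt x
      · have h1 := hcon a ha hae
        rw [if_neg h1.1, if_neg h1.2, add_zero]
      · have h1 : x a = 0 := by
          by_contra h
          exact ha ((mem_spt x a).mpr h)
        simp [h1]
    · intro h; exact absurd (mem_univ e) h
  obtain ⟨k, v, ed, hv, hed, hJ, hS⟩ := hx V E src dst (spt x) hne hlp hdeg
  -- periodic extension
  set g : ℕ → V := fun m => v (Fin.ofNat (k + 2) m) with hg
  set h : ℕ → E := fun m => ed (Fin.ofNat (k + 2) m) with hh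
  have hgh : ∀ m, Jn src dst (h m) (g m) (g (m + 1)) := by
    intro m
    have h1 := hJ (Fin.ofNat (k + 2) m)
    have h2 : Fin.ofNat (k + 2) m + 1 = Fin.ofNat (k + 2) (m + 1) := by
      apply Fin.ext
      simp [Fin.val_add, Fin.ofNat]
    rw [h2] at h1
    exact h1
  have hinj : ∀ a b, a < k + 2 → b < k + 2 → h a = h b → a = b := by
    intro a b ha hb hab
    have h1 := hed hab
    have h2 := congrArg Fin.val h1
    simp only [Fin.ofNat] at h2
    rwa [Nat.mod_eq_of_lt ha, Nat.mod_eq_of_lt hb] at h2
  have hval : ∀ a : Fin (k + 2), Fin.ofNat (k + 2) a.val = a := by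
    intro a
    apply Fin.ext
    simp only [Fin.ofNat]
    exact Nat.mod_eq_of_lt a.2
  set C : Finset E := (Ico 0 (k + 2)).image h with hC
  have hCsub : C ⊆ spt x := by
    intro a ha
    obtain ⟨m, -, rfl⟩ := mem_image.mp ha
    exact hS _
  have hcardC : C.card = k + 2 := by
    rw [hC, card_image_of_injOn, Nat.card_Ico]
    · omega
    · intro a ha b hb hab
      rw [coe_Ico, Set.mem_Ico] at ha hb
      exact hinj a b ha.2 hb.2 hab
  have hg0 : g (k + 2) = g 0 := by
    simp only [hg]
    congr 1
    apply Fin.ext
    simp [Fin.ofNat]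
  have hCZ : ind C ∈ ZF src dst (ES src dst S) := by
    refine ⟨fun e he => if_neg (fun h => he (hES e (hCsub h))), fun w => ?_⟩
    rw [hC, arc src dst g h (k + 2) hinj hgh 0 (k + 2) (Nat.zero_le _) le_rfl w, hg0,
      CharTwo.add_self_eq_zero]
  have hsplit : ∀ a ∈ ZF src dst (ES src dst S), (spt a).card < n → (spt (x + a)).card < n →
      x ∈ Submodule.span (ZMod 2) (shorts src dst S : Set (E → ZMod 2)) := by
    intro a ha h1 h2
    have h3 : x = a + (x + a) := by
      funext e
      simp only [Pi.add_apply]
      have : ∀ p q : ZMod 2, p = q + (p + q) := by decide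
      exact this _ _
    rw [h3]
    exact Submodule.add_mem _ (ih _ h1 a ha rfl) (ih _ h2 (x + a)
      (Submodule.add_mem _ hxZ ha) rfl)
  have hone : ∀ p : ZMod 2, p ≠ 0 → p + 1 = 0 := by decide
  by_cases hCx : C = spt x
  · have hk : k + 2 = n := by rw [← hn, ← hCx, hcardC]
    have hvS : ∀ i, v i ∉ S := by
      intro i
      have h1 := (mem_filter.mp (hES (ed i) (hS i))).2
      rcases hJ i with ⟨h2, -⟩ | ⟨-, h2⟩
      · rw [← h2]; exact h1.2.1
      · rw [← h2]; exact h1.2.2
    have hni : ¬ IsInduced src dst v := by
      intro h1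
      have := hind k v ed hv hed hJ hvS h1
      omega
    unfold IsInduced at hni
    push Not at hni
    obtain ⟨e, i0, j0, he0, hij0⟩ := hni
    -- order the two ends
    obtain ⟨e, i, j, he, hlt, hj1, hi1⟩ : ∃ (e : E) (i j : Fin (k + 2)), Jn src dst e (v i) (v j) ∧
        i.val < j.val ∧ i.val + 1 < j.val ∧ ¬ (i.val = 0 ∧ j.val = k + 1) := by
      have hsucc : ∀ a b : Fin (k + 2), b ≠ a + 1 → a.val + 1 ≠ b.val := by
        intro a b hab h1
        apply hab
        apply Fin.ext
        rw [Fin.val_add, Fin.val_one]
        rw [Nat.mod_eq_of_lt (by omega)]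
        exact h1.symm
      have hwrap : ∀ a b : Fin (k + 2), b ≠ a + 1 → ¬ (b.val = 0 ∧ a.val = k + 1) := by
        rintro a b hab ⟨h1, h2⟩
        apply hab
        apply Fin.ext
        rw [Fin.val_add, Fin.val_one, h1, h2]
        simp
      rcases lt_trichotomy i0.val j0.val with h1 | h1 | h1
      · refine ⟨e, i0, j0, he0, h1, ?_, hwrap j0 i0 hij0.2.2⟩
        have := hsucc i0 j0 hij0.2.1
        omega
      · exact absurd (Fin.ext h1) hij0.1
      · refine ⟨e, j0, i0, ?_, h1, ?_, hwrap i0 j0 hij0.2.1⟩
        · rcases he0 with ⟨a, b⟩ | ⟨a, b⟩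
          · exact Or.inr ⟨a, b⟩
          · exact Or.inl ⟨a, b⟩
        · have := hsucc j0 i0 hij0.2.2
          omega
    have hgi : g i.val = v i := by simp only [hg]; rw [hval i]
    have hgj : g j.val = v j := by simp only [hg]; rw [hval j]
    set A : Finset E := (Ico i.val j.val).image h with hA
    have hAC : A ⊆ C := by
      refine image_subset_image ?_
      intro a ha
      rw [mem_Ico] at ha ⊢
      have := j.2
      omega
    have hcardA : A.card = j.val - i.val := by
      rw [hA, card_image_of_injOn, Nat.card_Ico]
      intro a ha b hb hab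
      rw [coe_Ico, Set.mem_Ico] at ha hb
      have := j.2
      exact hinj a b (by omega) (by omega) hab
    have hbA := arc src dst g h (k + 2) hinj hgh i.val j.val hlt.le j.2.le
    have heES : e ∈ ES src dst S := by
      unfold ES
      rw [mem_filter]
      have hne2 : v i ≠ v j := fun h1 => by
        have := congrArg Fin.val (hv h1)
        omega
      rcases he with ⟨h1, h2⟩ | ⟨h1, h2⟩
      · exact ⟨mem_univ _, by rw [h1, h2]; exact hne2, by rw [h1]; exact hvS i,
          by rw [h2]; exact hvS j⟩
      · exact ⟨mem_univ _, by rw [h1, h2]; exact hne2.symm, by rw [h1]; exact hvS j,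
          by rw [h2]; exact hvS i⟩
    have haZ : ind A + Pi.single e 1 ∈ ZF src dst (ES src dst S) := by
      refine ⟨fun b hb => ?_, fun w => ?_⟩
      · have h1 : b ≠ e := fun h => hb (h ▸ heES)
        rw [Pi.add_apply, Pi.single_eq_of_ne h1, add_zero]
        exact if_neg (fun h => hb (hES b (hCsub (hAC h))))
      · rw [MacConx.bd2_add, MacConx.bd2_single, hbA w, hgi, hgj]
        have h4 : (if src e = w then (1 : ZMod 2) else 0) + (if dst e = w then 1 else 0) =
            (if v i = w then 1 else 0) + (if v j = w then 1 else 0) := by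
          rcases he with ⟨a, b⟩ | ⟨a, b⟩
          · rw [a, b]
          · rw [a, b, add_comm]
        rw [h4, CharTwo.add_self_eq_zero]
    refine hsplit _ haZ ?_ ?_
    · have h1 : spt (ind A + Pi.single e 1) ⊆ insert e A := by
        intro b hb
        rw [mem_spt] at hb
        rw [mem_insert]
        by_contra h2
        rw [not_or] at h2
        apply hb
        rw [Pi.add_apply, Pi.single_eq_of_ne h2.1, add_zero]
        exact if_neg h2.2
      have h2 := (card_le_card h1).trans (card_insert_le _ _)
      have := j.2
      omega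
    · have h1 : spt (x + (ind A + Pi.single e 1)) ⊆ insert e (spt x \ A) := by
        intro b hb
        rw [mem_spt] at hb
        rw [mem_insert, mem_sdiff, mem_spt]
        by_contra h2
        rw [not_or] at h2
        apply hb
        rw [Pi.add_apply, Pi.add_apply, Pi.single_eq_of_ne h2.1, add_zero]
        by_cases h3 : b ∈ A
        · have h4 : x b ≠ 0 := (mem_spt x b).mp (hCsub (hAC h3))
          unfold ind
          rw [if_pos h3]
          exact hone _ h4
        · have h4 : x b = 0 := by
            by_contra h5
            exact h2.2 ⟨h5, h3⟩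
          unfold ind
          rw [if_neg h3, h4, add_zero]
      have h2 := (card_le_card h1).trans (card_insert_le _ _)
      rw [card_sdiff_of_subset (hAC.trans hCsub), hn, hcardA] at h2
      have := j.2
      omega
  · refine hsplit _ hCZ ?_ ?_
    · rw [spt_ind]
      rw [← hn]
      exact card_lt_card ⟨hCsub, fun h1 => hCx (Subset.antisymm hCsub h1)⟩
    · have h1 : spt (x + ind C) ⊆ spt x \ C := by
        intro b hb
        rw [mem_spt] at hb
        rw [mem_sdiff, mem_spt]
        by_cases h3 : b ∈ C
        · exfalso
          apply hb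
          have h4 : x b ≠ 0 := (mem_spt x b).mp (hCsub h3)
          rw [Pi.add_apply]
          unfold ind
          rw [if_pos h3]
          exact hone _ h4
        · refine ⟨fun h4 => hb ?_, h3⟩
          rw [Pi.add_apply, h4]
          unfold ind
          rw [if_neg h3, add_zero]
      have h2 := card_le_card h1
      rw [card_sdiff_of_subset hCsub, hn, hcardC] at h2
      omega

/-- **Induced circuits.**  At most 31 vertices meet all induced circuits with more than eleven
edges. -/
theorem induced (hc : St_contract) (hx : St_circEx) (hcy : St_cyc) (src dst : E → V)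
    (S : Finset V) (hS : S.card ≤ 31)
    (hind : ∀ (k : ℕ) (v : Fin (k + 2) → V) (ed : Fin (k + 2) → E), Function.Injective v →
      Function.Injective ed → (∀ i, Jn src dst (ed i) (v i) (v (i + 1))) → (∀ i, v i ∉ S) →
      IsInduced src dst v → k + 2 ≤ 11)
    (hb : Br src dst ∅ ∅) : FlowOn src dst ∅ ∅ := by
  classical
  refine codim hc hx hcy src dst S (shorts src dst S)
    (fun x hx => (mem_shorts src dst S x).mp hx) ?_ hb
  have h1 : ZF src dst (ES src dst S) ≤
      Submodule.span (ZMod 2) (shorts src dst S : Set (E → ZMod 2)) :=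
    fun x hxZ => span_shorts hx src dst S hind _ x hxZ rfl
  have h2 := Submodule.finrank_mono h1
  omega

end Pool.Agent.R926.SC
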