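import Pool.Agent.R926.SC.Fl

set_option autoImplicit false
set_option linter.unusedSectionVars false
set_option maxHeartbeats 4000000

/-! # Nowhere-zero 4-flows: circuits with four edges can be contracted -/

namespace Pool.Agent.R926.SC

open Finset Pool.Agent.TH676.Z Pool.Agent.Y335.FL

variable {V E : Type} [Fintype V] [DecidableEq V] [Fintype E] [DecidableEq E]

theorem ind_zero_of {C : Finset E} {e : E} (h : e ∉ C) : ind C e = 0 := if_neg h

theorem ind_one_of {C : Finset E} {e : E} (h : e ∈ C) : ind C e = 1 := if_pos h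

theorem ind_sdiff {T D : Finset E} (h : D ⊆ T) : ind (T \ D) = ind T + ind D := by
  funext e
  rw [Pi.add_apply]
  by_cases h1 : e ∈ T
  · by_cases h2 : e ∈ D
    · rw [ind_zero_of (fun h => (mem_sdiff.mp h).2 h2), ind_one_of h1, ind_one_of h2]
      decide
    · rw [ind_one_of (mem_sdiff.mpr ⟨h1, h2⟩), ind_one_of h1, ind_zero_of h2, add_zero]
  · rw [ind_zero_of (fun h => h1 (mem_sdiff.mp h).1), ind_zero_of h1,
      ind_zero_of (fun h2 => h1 (h h2)), add_zero]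

/-- a circuit through a given edge of an element of the cycle space -/
theorem circ_through (hx : St_circEx) (s t : E → V) (z : E → ZMod 2)
    (hz : ∀ v, bd2 s t z v = 0) (e1 : E) (he1 : z e1 ≠ 0) (hl : s e1 ≠ t e1) :
    ∃ (k : ℕ) (v : Fin (k + 2) → V) (ed : Fin (k + 2) → E),
      Function.Injective v ∧ Function.Injective ed ∧
      (∀ i, Jn s t (ed i) (v i) (v (i + 1))) ∧ (∀ i, z (ed i) ≠ 0) ∧ ∃ i, ed i = e1 := by
  classical
  set P : Finset (Finset E) := univ.filter (fun T => T ⊆ spt z ∧ e1 ∈ T ∧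
    ∀ v, bd2 s t (ind T) v = 0) with hP
  have hPm : ∀ T, T ∈ P ↔ T ⊆ spt z ∧ e1 ∈ T ∧ ∀ v, bd2 s t (ind T) v = 0 := by
    intro T; simp [hP]
  have hne : P.Nonempty := ⟨spt z, (hPm _).mpr ⟨Subset.refl _, (mem_spt z e1).mpr he1, by
    rw [ind_spt]; exact hz⟩⟩
  obtain ⟨T, hT, hmin⟩ := exists_min_image P card hne
  obtain ⟨hT1, hT2, hT3⟩ := (hPm T).mp hT
  have hlp : ∀ e ∈ T, s e ≠ t e := by
    intro e he hloop
    have hee : e ≠ e1 := by
      rintro rfl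
      exact hl hloop
    have h1 : T.erase e ∈ P := by
      rw [hPm]
      refine ⟨(erase_subset _ _).trans hT1, mem_erase.mpr ⟨hee.symm, hT2⟩, fun v => ?_⟩
      have h2 : ind T = ind (T.erase e) + Pi.single e 1 := by
        rw [← ind_insert (notMem_erase e T), insert_erase he]
      have h3 := hT3 v
      rw [h2, MacConx.bd2_add, MacConx.bd2_single, hloop, CharTwo.add_self_eq_zero,
        add_zero] at h3
      exact h3
    have h2 := hmin _ h1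
    have h3 := card_erase_lt_of_mem he
    omega
  have hdeg : ∀ y, ∀ e ∈ T, (s e = y ∨ t e = y) →
      ∃ e' ∈ T, e' ≠ e ∧ (s e' = y ∨ t e' = y) := by
    intro y e he hey
    by_contra hcon
    push Not at hcon
    have h0 := hT3 y
    unfold bd2 at h0
    rw [sum_eq_single e] at h0
    · have h1 := hlp e he
      rw [ind_one_of he] at h0
      rcases hey with h3 | h3
      · have h4 : ¬ t e = y := fun h => h1 (h3.trans h.symm)
        rw [if_pos h3, if_neg h4, add_zero] at h0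
        exact one_ne_zero h0
      · have h4 : ¬ s e = y := fun h => h1 (h.trans h3.symm)
        rw [if_neg h4, if_pos h3, zero_add] at h0
        exact one_ne_zero h0
    · intro a _ hae
      by_cases ha : a ∈ T
      · have h1 := hcon a ha hae
        rw [if_neg h1.1, if_neg h1.2, add_zero]
      · simp [ind_zero_of ha]
    · intro h; exact absurd (mem_univ e) h
  obtain ⟨k, v, ed, hv, hed, hJ, hS⟩ := hx V E s t T ⟨e1, hT2⟩ hlp hdeg
  refine ⟨k, v, ed, hv, hed, hJ, fun i => (mem_spt z _).mp (hT1 (hS i)), ?_⟩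
  by_contra hcon
  push Not at hcon
  set D := univ.image ed with hD
  have hDT : D ⊆ T := by
    intro a ha
    obtain ⟨i, -, rfl⟩ := mem_image.mp ha
    exact hS i
  have h1 : T \ D ∈ P := by
    rw [hPm]
    refine ⟨sdiff_subset.trans hT1, mem_sdiff.mpr ⟨hT2, fun h => ?_⟩, fun w => ?_⟩
    · obtain ⟨i, -, hi⟩ := mem_image.mp h
      exact hcon i hi
    · rw [ind_sdiff hDT, MacConx.bd2_add, hT3 w, circ s t hed hJ w, add_zero]
  have h2 := hmin _ h1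
  rw [card_sdiff_of_subset hDT] at h2
  have h3 : 0 < D.card := card_pos.mpr ⟨ed 0, mem_image_of_mem _ (mem_univ _)⟩
  have h4 := card_le_card hDT
  omega

theorem finish (s t : E → V) (C : Finset E) (x y w : E → ZMod 2)
    (hx : ∀ v, bd2 s t x v = 0) (hy : ∀ v, bd2 s t y v = 0) (hw : ∀ v, bd2 s t w v = 0)
    (hC : ∀ v, bd2 s t (ind C) v = 0) (r c : ZMod 2 × ZMod 2)
    (h : ∀ e, x e + r.1 * w e + c.1 * ind C e ≠ 0 ∨ y e + r.2 * w e + c.2 * ind C e ≠ 0) :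
    FlA s t ∅ := by
  have hm : ∀ (a : ZMod 2) (z : E → ZMod 2), (∀ v, bd2 s t z v = 0) →
      ∀ v, bd2 s t (fun e => a * z e) v = 0 := by
    intro a z hz v
    have h1 : bd2 s t (fun e => a * z e) v = a * bd2 s t z v := by
      unfold bd2
      rw [mul_sum]
      refine sum_congr rfl fun e _ => ?_
      split_ifs <;> ring
    rw [h1, hz v, mul_zero]
  refine ⟨x + (fun e => r.1 * w e) + (fun e => c.1 * ind C e),
    y + (fun e => r.2 * w e) + (fun e => c.2 * ind C e), fun v => ?_, fun v => ?_, fun e _ => h e⟩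
  · rw [MacConx.bd2_add, MacConx.bd2_add, hx v, hm _ w hw v, hm _ _ hC v, add_zero, add_zero]
  · rw [MacConx.bd2_add, MacConx.bd2_add, hy v, hm _ w hw v, hm _ _ hC v, add_zero, add_zero]

theorem fourth : ∀ p1 p2 q1 q2 r1 r2 : ZMod 2, ¬ (p1 = 0 ∧ p2 = 0) → ¬ (q1 = 0 ∧ q2 = 0) →
    ¬ (p1 = q1 ∧ p2 = q2) → ¬ (r1 = 0 ∧ r2 = 0) → ¬ (r1 = p1 ∧ r2 = p2) →
    ¬ (r1 = q1 ∧ r2 = q2) → r1 = p1 + q1 ∧ r2 = p2 + q2 := by decide

theorem kempe1 : ∀ p1 p2 q1 q2 : ZMod 2, ¬ (p1 = 0 ∧ p2 = 0) → ¬ (q1 = 0 ∧ q2 = 0) →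
    ¬ (p1 = q1 ∧ p2 = q2) → p1 * (p2 + q2) + p2 * (p1 + q1) ≠ 0 := by decide

set_option maxRecDepth 10000 in
theorem kempe2 : ∀ α β p1 p2 q1 q2 w : ZMod 2, ¬ (p1 = 0 ∧ p2 = 0) → ¬ (q1 = 0 ∧ q2 = 0) →
    ¬ (p1 = q1 ∧ p2 = q2) → (α ≠ 0 ∨ β ≠ 0) →
    (w ≠ 0 → α * (p2 + q2) + β * (p1 + q1) ≠ 0) →
    (α + (p1 + q1) * w + 0 ≠ 0 ∨ β + (p2 + q2) * w + 0 ≠ 0) := by decide

theorem contractA4 (hx : St_circEx) (s t : E → V) {v : Fin 4 → V} {ed : Fin 4 → E}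
    (hv : Function.Injective v) (hed : Function.Injective ed)
    (hJ : ∀ i, Jn s t (ed i) (v i) (v (i + 1))) (h : FlA s t (univ.image ed)) : FlA s t ∅ := by
  classical
  obtain ⟨x0, y0, h1, h2, h3⟩ := h
  set C := univ.image ed with hCdef
  have hC : ∀ w, bd2 s t (ind C) w = 0 := circ (k := 2) s t hed hJ
  have hCm : ∀ i, ed i ∈ C := fun i => mem_image_of_mem _ (mem_univ i)
  by_cases hsur : ∃ p : ZMod 2 × ZMod 2, p ∉ univ.image (fun i => (x0 (ed i), y0 (ed i)))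
  · obtain ⟨p, hp⟩ := hsur
    refine finish s t C x0 y0 (fun _ => 0) h1 h2 (fun v => by unfold bd2; simp) hC 0 p ?_
    intro e
    simp only [mul_zero, add_zero]
    by_cases he : e ∈ C
    · rw [ind_one_of he, mul_one, mul_one]
      by_contra hcon
      rw [not_or, not_not, not_not] at hcon
      apply hp
      obtain ⟨i, -, rfl⟩ := mem_image.mp he
      exact mem_image.mpr ⟨i, mem_univ _, Prod.ext (CharTwo.add_eq_zero.mp hcon.1)
        (CharTwo.add_eq_zero.mp hcon.2)⟩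
    · rw [ind_zero_of he, mul_zero, mul_zero, add_zero, add_zero]
      exact h3 e he
  push Not at hsur
  have hinj : Function.Injective (fun i : Fin 4 => (x0 (ed i), y0 (ed i))) := by
    have h4 : Function.Surjective (fun i : Fin 4 => (x0 (ed i), y0 (ed i))) := by
      intro p
      obtain ⟨i, -, hi⟩ := mem_image.mp (hsur p)
      exact ⟨i, hi⟩
    exact ((Fintype.bijective_iff_surjective_and_card _).mpr ⟨h4, by simp⟩).1
  -- normalize: the value on `ed 0` is zero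
  set a := x0 (ed 0) with ha
  set b := y0 (ed 0) with hb
  set x : E → ZMod 2 := x0 + fun e => a * ind C e with hxdef
  set y : E → ZMod 2 := y0 + fun e => b * ind C e with hydef
  have hx1 : ∀ v, bd2 s t x v = 0 := by
    intro v
    rw [hxdef, MacConx.bd2_add, h1 v, bd2_smul_ind s t _ _ hC, add_zero]
  have hy1 : ∀ v, bd2 s t y v = 0 := by
    intro v
    rw [hydef, MacConx.bd2_add, h2 v, bd2_smul_ind s t _ _ hC, add_zero]
  have hxC : ∀ i, x (ed i) = x0 (ed i) + a := by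
    intro i
    rw [hxdef, Pi.add_apply, ind_one_of (hCm i), mul_one]
  have hyC : ∀ i, y (ed i) = y0 (ed i) + b := by
    intro i
    rw [hydef, Pi.add_apply, ind_one_of (hCm i), mul_one]
  have hxo : ∀ e, e ∉ C → x e = x0 e := by
    intro e he
    rw [hxdef, Pi.add_apply, ind_zero_of he, mul_zero, add_zero]
  have hyo : ∀ e, e ∉ C → y e = y0 e := by
    intro e he
    rw [hydef, Pi.add_apply, ind_zero_of he, mul_zero, add_zero]
  have hoff : ∀ e, e ∉ C → x e ≠ 0 ∨ y e ≠ 0 := by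
    intro e he
    rw [hxo e he, hyo e he]
    exact h3 e he
  -- the four values
  have key : ∀ u : Fin 4 → ZMod 2 × ZMod 2, Function.Injective u → u 0 = (a, b) →
      (u 1).1 + a ≠ 0 ∨ (u 1).2 + b ≠ 0 := by
    intro u hu hu0
    by_contra hcon
    rw [not_or, not_not, not_not] at hcon
    have h5 : u 1 = u 0 := by
      rw [hu0]
      exact Prod.ext (CharTwo.add_eq_zero.mp hcon.1) (CharTwo.add_eq_zero.mp hcon.2)
    exact absurd (hu h5) (by decide)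
  obtain ⟨p1, hp1⟩ : ∃ p1, p1 = x (ed 1) := ⟨_, rfl⟩
  obtain ⟨p2, hp2⟩ : ∃ p2, p2 = y (ed 1) := ⟨_, rfl⟩
  obtain ⟨q1, hq1⟩ : ∃ q1, q1 = x (ed 3) := ⟨_, rfl⟩
  obtain ⟨q2, hq2⟩ : ∃ q2, q2 = y (ed 3) := ⟨_, rfl⟩
  have hU : ∀ i j, i ≠ j → ¬ (x (ed i) = x (ed j) ∧ y (ed i) = y (ed j)) := by
    rintro i j hij ⟨h5, h6⟩
    rw [hxC, hxC] at h5
    rw [hyC, hyC] at h6
    exact hij (hinj (Prod.ext (add_right_cancel h5) (add_right_cancel h6)))
  have hx00 : x (ed 0) = 0 := by rw [hxC, ← ha, CharTwo.add_self_eq_zero]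
  have hy00 : y (ed 0) = 0 := by rw [hyC, ← hb, CharTwo.add_self_eq_zero]
  have hpn : ¬ (p1 = 0 ∧ p2 = 0) := by
    have := hU 1 0 (by decide)
    rwa [hx00, hy00, ← hp1, ← hp2] at this
  have hqn : ¬ (q1 = 0 ∧ q2 = 0) := by
    have := hU 3 0 (by decide)
    rwa [hx00, hy00, ← hq1, ← hq2] at this
  have hpq : ¬ (p1 = q1 ∧ p2 = q2) := by
    have := hU 1 3 (by decide)
    rwa [← hp1, ← hp2, ← hq1, ← hq2] at this
  have hr12 : x (ed 2) = p1 + q1 ∧ y (ed 2) = p2 + q2 := by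
    have e1 := hU 2 0 (by decide)
    have e2 := hU 2 1 (by decide)
    have e3 := hU 2 3 (by decide)
    rw [hx00, hy00] at e1
    rw [← hp1, ← hp2] at e2
    rw [← hq1, ← hq2] at e3
    exact fourth p1 p2 q1 q2 _ _ hpn hqn hpq e1 e2 e3
  -- the Kempe functional
  set z : E → ZMod 2 := fun e => x e * (p2 + q2) + y e * (p1 + q1) with hz
  have hz0 : ∀ v, bd2 s t z v = 0 := by
    intro v
    have h5 : bd2 s t z v = bd2 s t x v * (p2 + q2) + bd2 s t y v * (p1 + q1) := by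
      unfold bd2
      rw [sum_mul, sum_mul, ← sum_add_distrib]
      refine sum_congr rfl fun e _ => ?_
      simp only [hz]
      split_ifs <;> ring
    rw [h5, hx1 v, hy1 v, zero_mul, zero_mul, add_zero]
  have hz1 : z (ed 1) ≠ 0 := by
    simp only [hz, ← hp1, ← hp2]
    exact kempe1 p1 p2 q1 q2 hpn hqn hpq
  have hzz : z (ed 0) = 0 := by simp only [hz, hx00, hy00]; ring
  have hz2 : z (ed 2) = 0 := by
    simp only [hz, hr12.1, hr12.2]
    have : ∀ α β : ZMod 2, α * β + β * α = 0 := by decide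
    exact this _ _
  have hl1 : s (ed 1) ≠ t (ed 1) := by
    have h5 : v 1 ≠ v (1 + 1) := fun h => absurd (hv h) (by decide)
    rcases hJ 1 with ⟨h6, h7⟩ | ⟨h6, h7⟩
    · rw [h6, h7]; exact h5
    · rw [h6, h7]; exact h5.symm
  -- conditions off `C`
  have hoff2 : ∀ e, e ∉ C → ∀ w : ZMod 2, (w ≠ 0 → z e ≠ 0) →
      x e + (p1 + q1) * w + 0 ≠ 0 ∨ y e + (p2 + q2) * w + 0 ≠ 0 := by
    intro e he w hw
    have h5 := hoff e he
    simp only [hz] at hw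
    exact kempe2 (x e) (y e) p1 p2 q1 q2 w hpn hqn hpq h5 hw
  obtain ⟨k, v', ed', hv', hed', hJ', hS', i0, hi0⟩ := circ_through hx s t z hz0 (ed 1) hz1 hl1
  by_cases h3D : ∃ j0, ed' j0 = ed 3
  swap
  · -- the circuit avoids `ed 3`
    set D := univ.image ed' with hD
    have hDz : ∀ e ∈ D, z e ≠ 0 := by
      intro e he
      obtain ⟨i, -, rfl⟩ := mem_image.mp he
      exact hS' i
    have d0 : ed 0 ∉ D := fun h => hDz _ h hzz
    have d2 : ed 2 ∉ D := fun h => hDz _ h hz2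
    have d1 : ed 1 ∈ D := mem_image.mpr ⟨i0, mem_univ _, hi0⟩
    have d3 : ed 3 ∉ D := by
      intro h
      obtain ⟨j, -, hj⟩ := mem_image.mp h
      exact h3D ⟨j, hj⟩
    refine finish s t C x y (ind D) hx1 hy1 (circ s t hed' hJ') hC (p1 + q1, p2 + q2) (p1, p2) ?_
    intro e
    by_cases he : e ∈ C
    · obtain ⟨i, -, rfl⟩ := mem_image.mp he
      rw [ind_one_of (hCm i)]
      fin_cases i
      · change x (ed 0) + (p1 + q1) * ind D (ed 0) + p1 * 1 ≠ 0 ∨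
          y (ed 0) + (p2 + q2) * ind D (ed 0) + p2 * 1 ≠ 0
        rw [ind_zero_of d0, hx00, hy00]
        exact (by decide : ∀ p1 p2 q1 q2 : ZMod 2, ¬ (p1 = 0 ∧ p2 = 0) → ¬ (q1 = 0 ∧ q2 = 0) →
            ¬ (p1 = q1 ∧ p2 = q2) → (0 + (p1 + q1) * 0 + p1 * 1 ≠ 0 ∨ 0 + (p2 + q2) * 0 + p2 * 1 ≠ 0))
          p1 p2 q1 q2 hpn hqn hpq
      · change x (ed 1) + (p1 + q1) * ind D (ed 1) + p1 * 1 ≠ 0 ∨
          y (ed 1) + (p2 + q2) * ind D (ed 1) + p2 * 1 ≠ 0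
        rw [ind_one_of d1, ← hp1, ← hp2]
        exact (by decide : ∀ p1 p2 q1 q2 : ZMod 2, ¬ (p1 = 0 ∧ p2 = 0) → ¬ (q1 = 0 ∧ q2 = 0) →
            ¬ (p1 = q1 ∧ p2 = q2) → (p1 + (p1 + q1) * 1 + p1 * 1 ≠ 0 ∨ p2 + (p2 + q2) * 1 + p2 * 1 ≠ 0))
          p1 p2 q1 q2 hpn hqn hpq
      · change x (ed 2) + (p1 + q1) * ind D (ed 2) + p1 * 1 ≠ 0 ∨
          y (ed 2) + (p2 + q2) * ind D (ed 2) + p2 * 1 ≠ 0
        rw [ind_zero_of d2, hr12.1, hr12.2]
        exact (by decide : ∀ p1 p2 q1 q2 : ZMod 2, ¬ (p1 = 0 ∧ p2 = 0) → ¬ (q1 = 0 ∧ q2 = 0) →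
            ¬ (p1 = q1 ∧ p2 = q2) → ((p1 + q1) + (p1 + q1) * 0 + p1 * 1 ≠ 0 ∨ (p2 + q2) + (p2 + q2) * 0 + p2 * 1 ≠ 0))
          p1 p2 q1 q2 hpn hqn hpq
      · change x (ed 3) + (p1 + q1) * ind D (ed 3) + p1 * 1 ≠ 0 ∨
          y (ed 3) + (p2 + q2) * ind D (ed 3) + p2 * 1 ≠ 0
        rw [ind_zero_of d3, ← hq1, ← hq2]
        exact (by decide : ∀ p1 p2 q1 q2 : ZMod 2, ¬ (p1 = 0 ∧ p2 = 0) → ¬ (q1 = 0 ∧ q2 = 0) →
            ¬ (p1 = q1 ∧ p2 = q2) → (q1 + (p1 + q1) * 0 + p1 * 1 ≠ 0 ∨ q2 + (p2 + q2) * 0 + p2 * 1 ≠ 0))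
          p1 p2 q1 q2 hpn hqn hpq
    · have h7 := hoff2 e he (ind D e) (fun h => by
        by_contra h5
        exact h (ind_zero_of (fun h6 => hDz e h6 h5)))
      rw [ind_zero_of he, mul_zero, mul_zero]
      simp only [add_zero] at h7 ⊢
      exact h7
  · -- the circuit contains `ed 3`
    obtain ⟨j0, hj0⟩ := h3D
    set g : ℕ → V := fun m => v' (i0 + Fin.ofNat (k + 2) m) with hg
    set hh : ℕ → E := fun m => ed' (i0 + Fin.ofNat (k + 2) m) with hhdef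
    have hgh : ∀ m, Jn s t (hh m) (g m) (g (m + 1)) := by
      intro m
      have h5 := hJ' (i0 + Fin.ofNat (k + 2) m)
      have h6 : i0 + Fin.ofNat (k + 2) m + 1 = i0 + Fin.ofNat (k + 2) (m + 1) := by
        rw [add_assoc]
        congr 1
        apply Fin.ext
        simp [Fin.val_add, Fin.ofNat]
      rw [h6] at h5
      exact h5
    have hhinj : ∀ a b, a < k + 2 → b < k + 2 → hh a = hh b → a = b := by
      intro a b ha hb hab
      have h5 := add_left_cancel (hed' hab)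
      have h6 := congrArg Fin.val h5
      simp only [Fin.ofNat] at h6
      rwa [Nat.mod_eq_of_lt ha, Nat.mod_eq_of_lt hb] at h6
    have hh0 : hh 0 = ed 1 := by
      rw [← hi0]
      simp only [hhdef]
      congr 1
      have : Fin.ofNat (k + 2) 0 = (0 : Fin (k + 2)) := by
        apply Fin.ext
        simp [Fin.ofNat]
      rw [this, add_zero]
    obtain ⟨j, hjlt, hj⟩ : ∃ j, j < k + 2 ∧ hh j = ed 3 := by
      refine ⟨(j0 - i0).val, (j0 - i0).2, ?_⟩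
      rw [← hj0]
      simp only [hhdef]
      congr 1
      have : Fin.ofNat (k + 2) (j0 - i0).val = j0 - i0 := by
        apply Fin.ext
        simp only [Fin.ofNat]
        exact Nat.mod_eq_of_lt (j0 - i0).2
      rw [this, add_sub_cancel]
    have hjpos : 1 ≤ j := by
      rcases Nat.eq_zero_or_pos j with h5 | h5
      · exfalso
        rw [h5, hh0] at hj
        exact absurd (hed hj) (by decide)
      · exact h5
    set A := (Ico 1 j).image hh with hA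
    have hbA := arc s t g hh (k + 2) hhinj hgh 1 j hjpos (by omega)
    have hAz : ∀ e ∈ A, z e ≠ 0 := by
      intro e he
      obtain ⟨m, -, rfl⟩ := mem_image.mp he
      exact hS' _
    have hA1 : ed 1 ∉ A := by
      intro h5
      obtain ⟨m, hm, hm2⟩ := mem_image.mp h5
      rw [mem_Ico] at hm
      rw [← hh0] at hm2
      have := hhinj m 0 (by omega) (by omega) hm2
      omega
    have hA3 : ed 3 ∉ A := by
      intro h5
      obtain ⟨m, hm, hm2⟩ := mem_image.mp h5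
      rw [mem_Ico] at hm
      rw [← hj] at hm2
      have := hhinj m j (by omega) (by omega) hm2
      omega
    have hA0 : ed 0 ∉ A := fun h => hAz _ h hzz
    have hA2 : ed 2 ∉ A := fun h => hAz _ h hz2
    have hg1 : g 1 = v 1 ∨ g 1 = v 2 := by
      have h5 := hgh 0
      rw [hh0] at h5
      have h6 := hJ 1
      have h7 : (1 : Fin 4) + 1 = 2 := by decide
      rw [h7] at h6
      rcases h5 with ⟨e1, e2⟩ | ⟨e1, e2⟩ <;> rcases h6 with ⟨e3, e4⟩ | ⟨e3, e4⟩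
      · exact Or.inr (e2.symm.trans e4)
      · exact Or.inl (e2.symm.trans e4)
      · exact Or.inl (e1.symm.trans e3)
      · exact Or.inr (e1.symm.trans e3)
    have hgj : g j = v 3 ∨ g j = v 0 := by
      have h5 := hgh j
      rw [hj] at h5
      have h6 := hJ 3
      have h7 : (3 : Fin 4) + 1 = 0 := by decide
      rw [h7] at h6
      rcases h5 with ⟨e1, e2⟩ | ⟨e1, e2⟩ <;> rcases h6 with ⟨e3, e4⟩ | ⟨e3, e4⟩
      · exact Or.inl (e1.symm.trans e3)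
      · exact Or.inr (e1.symm.trans e3)
      · exact Or.inr (e2.symm.trans e4)
      · exact Or.inl (e2.symm.trans e4)
    -- boundaries of the edges of `C`
    have hbe : ∀ i w, bd2 s t (Pi.single (ed i) 1) w =
        (if v i = w then 1 else 0) + (if v (i + 1) = w then 1 else 0) := by
      intro i w
      rw [MacConx.bd2_single]
      rcases hJ i with ⟨e1, e2⟩ | ⟨e1, e2⟩
      · rw [e1, e2]
      · rw [e1, e2, add_comm]
    have e30 : (3 : Fin 4) + 1 = 0 := by decide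
    have e23 : (2 : Fin 4) + 1 = 3 := by decide
    have e01 : (0 : Fin 4) + 1 = 1 := by decide
    have hne : ∀ i i' : Fin 4, i ≠ i' → ed i ≠ ed i' := fun i i' h h5 => h (hed h5)
    have c2 : ∀ α β : ZMod 2, α + β + (α + β) = 0 := by decide
    have c3 : ∀ α β γ : ZMod 2, α + γ + (α + β + (β + γ)) = 0 := by decide
    -- the general conclusion
    have concl : ∀ (κ : E → ZMod 2) (c : ZMod 2 × ZMod 2),
        (∀ w, bd2 s t κ w = (if g 1 = w then 1 else 0) + (if g j = w then 1 else 0)) →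
        (∀ e, e ∉ C → κ e = 0) →
        (∀ i, x (ed i) + (p1 + q1) * κ (ed i) + c.1 ≠ 0 ∨
          y (ed i) + (p2 + q2) * κ (ed i) + c.2 ≠ 0) → FlA s t ∅ := by
      intro κ c hκ hκ0 hκC
      refine finish s t C x y (ind A + κ) hx1 hy1 (fun w => ?_) hC (p1 + q1, p2 + q2) c ?_
      · rw [MacConx.bd2_add, hbA w, hκ w]
        exact c2 _ _
      · intro e
        by_cases he : e ∈ C
        · obtain ⟨i, -, rfl⟩ := mem_image.mp he
          have hiA : ed i ∉ A := by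
            fin_cases i
            · exact hA0
            · exact hA1
            · exact hA2
            · exact hA3
          rw [ind_one_of (hCm i), Pi.add_apply, ind_zero_of hiA, zero_add, mul_one, mul_one]
          exact hκC i
        · have h7 := hoff2 e he (ind A e) (fun h => by
            by_contra h5
            exact h (ind_zero_of (fun h6 => hAz e h6 h5)))
          rw [ind_zero_of he, Pi.add_apply, hκ0 e he, mul_zero, mul_zero]
          simp only [add_zero] at h7 ⊢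
          exact h7
    have sgl : ∀ i e, e ∉ C → (Pi.single (ed i) (1 : ZMod 2) : E → ZMod 2) e = 0 := by
      intro i e he
      refine Pi.single_eq_of_ne (fun h => he ?_) _
      rw [h]
      exact hCm i
    have sge : ∀ i i' : Fin 4, (Pi.single (ed i) (1 : ZMod 2) : E → ZMod 2) (ed i') =
        if i = i' then 1 else 0 := by
      intro i i'
      by_cases h5 : i = i'
      · subst h5
        simp
      · rw [if_neg h5]
        exact Pi.single_eq_of_ne (hne i' i (fun h => h5 h.symm)) _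
    rcases hg1 with a1 | a1 <;> rcases hgj with a2 | a2
    · -- from `v 1` to `v 3`
      refine concl (Pi.single (ed 0) 1 + Pi.single (ed 3) 1) (0, 0) (fun w => ?_)
        (fun e he => by rw [Pi.add_apply, sgl 0 e he, sgl 3 e he, add_zero]) ?_
      · rw [MacConx.bd2_add, hbe, hbe, e01, e30, a1, a2]
        have : ∀ α β γ : ZMod 2, α + β + (γ + α) = β + γ := by decide
        exact this _ _ _
      · intro i
        rw [Pi.add_apply, sge, sge]
        fin_cases i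
        · change x (ed 0) + (p1 + q1) * (1 + 0) + 0 ≠ 0 ∨ y (ed 0) + (p2 + q2) * (1 + 0) + 0 ≠ 0
          rw [hx00, hy00]
          exact (by decide : ∀ p1 p2 q1 q2 : ZMod 2, ¬ (p1 = 0 ∧ p2 = 0) → ¬ (q1 = 0 ∧ q2 = 0) →
              ¬ (p1 = q1 ∧ p2 = q2) → (0 + (p1 + q1) * (1 + 0) + 0 ≠ 0 ∨ 0 + (p2 + q2) * (1 + 0) + 0 ≠ 0))
            p1 p2 q1 q2 hpn hqn hpq
        · change x (ed 1) + (p1 + q1) * (0 + 0) + 0 ≠ 0 ∨ y (ed 1) + (p2 + q2) * (0 + 0) + 0 ≠ 0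
          rw [← hp1, ← hp2]
          exact (by decide : ∀ p1 p2 q1 q2 : ZMod 2, ¬ (p1 = 0 ∧ p2 = 0) → ¬ (q1 = 0 ∧ q2 = 0) →
              ¬ (p1 = q1 ∧ p2 = q2) → (p1 + (p1 + q1) * (0 + 0) + 0 ≠ 0 ∨ p2 + (p2 + q2) * (0 + 0) + 0 ≠ 0))
            p1 p2 q1 q2 hpn hqn hpq
        · change x (ed 2) + (p1 + q1) * (0 + 0) + 0 ≠ 0 ∨ y (ed 2) + (p2 + q2) * (0 + 0) + 0 ≠ 0
          rw [hr12.1, hr12.2]
          exact (by decide : ∀ p1 p2 q1 q2 : ZMod 2, ¬ (p1 = 0 ∧ p2 = 0) → ¬ (q1 = 0 ∧ q2 = 0) →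
              ¬ (p1 = q1 ∧ p2 = q2) → ((p1 + q1) + (p1 + q1) * (0 + 0) + 0 ≠ 0 ∨ (p2 + q2) + (p2 + q2) * (0 + 0) + 0 ≠ 0))
            p1 p2 q1 q2 hpn hqn hpq
        · change x (ed 3) + (p1 + q1) * (0 + 1) + 0 ≠ 0 ∨ y (ed 3) + (p2 + q2) * (0 + 1) + 0 ≠ 0
          rw [← hq1, ← hq2]
          exact (by decide : ∀ p1 p2 q1 q2 : ZMod 2, ¬ (p1 = 0 ∧ p2 = 0) → ¬ (q1 = 0 ∧ q2 = 0) →
              ¬ (p1 = q1 ∧ p2 = q2) → (q1 + (p1 + q1) * (0 + 1) + 0 ≠ 0 ∨ q2 + (p2 + q2) * (0 + 1) + 0 ≠ 0))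
            p1 p2 q1 q2 hpn hqn hpq
    · -- from `v 1` to `v 0`
      refine concl (Pi.single (ed 0) 1) (0, 0) (fun w => ?_) (fun e he => sgl 0 e he) ?_
      · rw [hbe, e01, a1, a2, add_comm]
      · intro i
        rw [sge]
        fin_cases i
        · change x (ed 0) + (p1 + q1) * 1 + 0 ≠ 0 ∨ y (ed 0) + (p2 + q2) * 1 + 0 ≠ 0
          rw [hx00, hy00]
          exact (by decide : ∀ p1 p2 q1 q2 : ZMod 2, ¬ (p1 = 0 ∧ p2 = 0) → ¬ (q1 = 0 ∧ q2 = 0) →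
              ¬ (p1 = q1 ∧ p2 = q2) → (0 + (p1 + q1) * 1 + 0 ≠ 0 ∨ 0 + (p2 + q2) * 1 + 0 ≠ 0))
            p1 p2 q1 q2 hpn hqn hpq
        · change x (ed 1) + (p1 + q1) * 0 + 0 ≠ 0 ∨ y (ed 1) + (p2 + q2) * 0 + 0 ≠ 0
          rw [← hp1, ← hp2]
          exact (by decide : ∀ p1 p2 q1 q2 : ZMod 2, ¬ (p1 = 0 ∧ p2 = 0) → ¬ (q1 = 0 ∧ q2 = 0) →
              ¬ (p1 = q1 ∧ p2 = q2) → (p1 + (p1 + q1) * 0 + 0 ≠ 0 ∨ p2 + (p2 + q2) * 0 + 0 ≠ 0))
            p1 p2 q1 q2 hpn hqn hpq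
        · change x (ed 2) + (p1 + q1) * 0 + 0 ≠ 0 ∨ y (ed 2) + (p2 + q2) * 0 + 0 ≠ 0
          rw [hr12.1, hr12.2]
          exact (by decide : ∀ p1 p2 q1 q2 : ZMod 2, ¬ (p1 = 0 ∧ p2 = 0) → ¬ (q1 = 0 ∧ q2 = 0) →
              ¬ (p1 = q1 ∧ p2 = q2) → ((p1 + q1) + (p1 + q1) * 0 + 0 ≠ 0 ∨ (p2 + q2) + (p2 + q2) * 0 + 0 ≠ 0))
            p1 p2 q1 q2 hpn hqn hpq
        · change x (ed 3) + (p1 + q1) * 0 + 0 ≠ 0 ∨ y (ed 3) + (p2 + q2) * 0 + 0 ≠ 0
          rw [← hq1, ← hq2]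
          exact (by decide : ∀ p1 p2 q1 q2 : ZMod 2, ¬ (p1 = 0 ∧ p2 = 0) → ¬ (q1 = 0 ∧ q2 = 0) →
              ¬ (p1 = q1 ∧ p2 = q2) → (q1 + (p1 + q1) * 0 + 0 ≠ 0 ∨ q2 + (p2 + q2) * 0 + 0 ≠ 0))
            p1 p2 q1 q2 hpn hqn hpq
    · -- from `v 2` to `v 3`
      refine concl (Pi.single (ed 2) 1) (p1 + q1, p2 + q2) (fun w => ?_)
        (fun e he => sgl 2 e he) ?_
      · rw [hbe, e23, a1, a2]
      · intro i
        rw [sge]
        fin_cases i
        · change x (ed 0) + (p1 + q1) * 0 + (p1 + q1) ≠ 0 ∨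
            y (ed 0) + (p2 + q2) * 0 + (p2 + q2) ≠ 0
          rw [hx00, hy00]
          exact (by decide : ∀ p1 p2 q1 q2 : ZMod 2, ¬ (p1 = 0 ∧ p2 = 0) → ¬ (q1 = 0 ∧ q2 = 0) →
              ¬ (p1 = q1 ∧ p2 = q2) → (0 + (p1 + q1) * 0 + (p1 + q1) ≠ 0 ∨ 0 + (p2 + q2) * 0 + (p2 + q2) ≠ 0))
            p1 p2 q1 q2 hpn hqn hpq
        · change x (ed 1) + (p1 + q1) * 0 + (p1 + q1) ≠ 0 ∨
            y (ed 1) + (p2 + q2) * 0 + (p2 + q2) ≠ 0
          rw [← hp1, ← hp2]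
          exact (by decide : ∀ p1 p2 q1 q2 : ZMod 2, ¬ (p1 = 0 ∧ p2 = 0) → ¬ (q1 = 0 ∧ q2 = 0) →
              ¬ (p1 = q1 ∧ p2 = q2) → (p1 + (p1 + q1) * 0 + (p1 + q1) ≠ 0 ∨ p2 + (p2 + q2) * 0 + (p2 + q2) ≠ 0))
            p1 p2 q1 q2 hpn hqn hpq
        · change x (ed 2) + (p1 + q1) * 1 + (p1 + q1) ≠ 0 ∨
            y (ed 2) + (p2 + q2) * 1 + (p2 + q2) ≠ 0
          rw [hr12.1, hr12.2]
          exact (by decide : ∀ p1 p2 q1 q2 : ZMod 2, ¬ (p1 = 0 ∧ p2 = 0) → ¬ (q1 = 0 ∧ q2 = 0) →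
              ¬ (p1 = q1 ∧ p2 = q2) → ((p1 + q1) + (p1 + q1) * 1 + (p1 + q1) ≠ 0 ∨ (p2 + q2) + (p2 + q2) * 1 + (p2 + q2) ≠ 0))
            p1 p2 q1 q2 hpn hqn hpq
        · change x (ed 3) + (p1 + q1) * 0 + (p1 + q1) ≠ 0 ∨
            y (ed 3) + (p2 + q2) * 0 + (p2 + q2) ≠ 0
          rw [← hq1, ← hq2]
          exact (by decide : ∀ p1 p2 q1 q2 : ZMod 2, ¬ (p1 = 0 ∧ p2 = 0) → ¬ (q1 = 0 ∧ q2 = 0) →
              ¬ (p1 = q1 ∧ p2 = q2) → (q1 + (p1 + q1) * 0 + (p1 + q1) ≠ 0 ∨ q2 + (p2 + q2) * 0 + (p2 + q2) ≠ 0))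
            p1 p2 q1 q2 hpn hqn hpq
    · -- from `v 2` to `v 0`
      refine concl (Pi.single (ed 2) 1 + Pi.single (ed 3) 1) (q1, q2) (fun w => ?_)
        (fun e he => by rw [Pi.add_apply, sgl 2 e he, sgl 3 e he, add_zero]) ?_
      · rw [MacConx.bd2_add, hbe, hbe, e23, e30, a1, a2]
        have : ∀ α β γ : ZMod 2, α + β + (β + γ) = α + γ := by decide
        exact this _ _ _
      · intro i
        rw [Pi.add_apply, sge, sge]
        fin_cases i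
        · change x (ed 0) + (p1 + q1) * (0 + 0) + q1 ≠ 0 ∨ y (ed 0) + (p2 + q2) * (0 + 0) + q2 ≠ 0
          rw [hx00, hy00]
          exact (by decide : ∀ p1 p2 q1 q2 : ZMod 2, ¬ (p1 = 0 ∧ p2 = 0) → ¬ (q1 = 0 ∧ q2 = 0) →
              ¬ (p1 = q1 ∧ p2 = q2) → (0 + (p1 + q1) * (0 + 0) + q1 ≠ 0 ∨ 0 + (p2 + q2) * (0 + 0) + q2 ≠ 0))
            p1 p2 q1 q2 hpn hqn hpq
        · change x (ed 1) + (p1 + q1) * (0 + 0) + q1 ≠ 0 ∨ y (ed 1) + (p2 + q2) * (0 + 0) + q2 ≠ 0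
          rw [← hp1, ← hp2]
          exact (by decide : ∀ p1 p2 q1 q2 : ZMod 2, ¬ (p1 = 0 ∧ p2 = 0) → ¬ (q1 = 0 ∧ q2 = 0) →
              ¬ (p1 = q1 ∧ p2 = q2) → (p1 + (p1 + q1) * (0 + 0) + q1 ≠ 0 ∨ p2 + (p2 + q2) * (0 + 0) + q2 ≠ 0))
            p1 p2 q1 q2 hpn hqn hpq
        · change x (ed 2) + (p1 + q1) * (1 + 0) + q1 ≠ 0 ∨ y (ed 2) + (p2 + q2) * (1 + 0) + q2 ≠ 0
          rw [hr12.1, hr12.2]
          exact (by decide : ∀ p1 p2 q1 q2 : ZMod 2, ¬ (p1 = 0 ∧ p2 = 0) → ¬ (q1 = 0 ∧ q2 = 0) →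
              ¬ (p1 = q1 ∧ p2 = q2) → ((p1 + q1) + (p1 + q1) * (1 + 0) + q1 ≠ 0 ∨ (p2 + q2) + (p2 + q2) * (1 + 0) + q2 ≠ 0))
            p1 p2 q1 q2 hpn hqn hpq
        · change x (ed 3) + (p1 + q1) * (0 + 1) + q1 ≠ 0 ∨ y (ed 3) + (p2 + q2) * (0 + 1) + q2 ≠ 0
          rw [← hq1, ← hq2]
          exact (by decide : ∀ p1 p2 q1 q2 : ZMod 2, ¬ (p1 = 0 ∧ p2 = 0) → ¬ (q1 = 0 ∧ q2 = 0) →
              ¬ (p1 = q1 ∧ p2 = q2) → (q1 + (p1 + q1) * (0 + 1) + q1 ≠ 0 ∨ q2 + (p2 + q2) * (0 + 1) + q2 ≠ 0))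
            p1 p2 q1 q2 hpn hqn hpq

end Pool.Agent.R926.SC
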