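import Pool.Agent.R926.SC.PetMap

set_option autoImplicit false
set_option linter.unusedSectionVars false

/-! # Nowhere-zero 4-flows: chains of short ears and of pieces with two disjoint connectors -/

namespace Pool.Agent.R926.SC

open Finset Pool.Agent.TH676.Z Pool.Agent.Y335.FL

variable {V E : Type} [Fintype V] [DecidableEq V] [Fintype E] [DecidableEq E]

/-- `H` contains two disjoint sets each of which connects, modulo `F`, whatever `H` connects -/
def TwoC (s t : E → V) (F H : Finset E) : Prop :=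
  ∃ T₁ T₂ : Finset E, T₁ ⊆ H ∧ T₂ ⊆ H ∧ Disjoint T₁ T₂ ∧ ∀ Y : Finset V,
    Disjoint (crs s t Y) F → ¬ Disjoint (crs s t Y) H →
      ¬ Disjoint (crs s t Y) T₁ ∧ ¬ Disjoint (crs s t Y) T₂

/-- a step of a chain -/
def St (s t : E → V) (F H : Finset E) : Prop := (BrM s t F H ∧ H.card ≤ 4) ∨ TwoC s t F H

theorem crs_comp (s t : E → V) (ρ : V → V) (Y : Finset V) :
    crs (ρ ∘ s) (ρ ∘ t) Y = crs s t (univ.filter (fun v => ρ v ∈ Y)) := by
  ext e
  rw [mem_crs, mem_crs, mem_filter, mem_filter]
  simp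

theorem st_map (s t : E → V) (ρ : V → V) (F H : Finset E) (h : St s t F H) :
    St (ρ ∘ s) (ρ ∘ t) F H := by
  rcases h with ⟨h1, h2⟩ | ⟨T₁, T₂, a1, a2, a3, a4⟩
  · refine Or.inl ⟨fun Y hY => ?_, h2⟩
    rw [crs_comp] at hY ⊢
    exact h1 _ hY
  · refine Or.inr ⟨T₁, T₂, a1, a2, a3, fun Y hY hH => ?_⟩
    rw [crs_comp] at hY hH ⊢
    exact a4 _ hY hH

/-- a cycle space element can be made nonzero on `H` outside the connector `T` -/
theorem fix (s t : E → V) (F H T : Finset E) (hT : T ⊆ H)
    (hc : ∀ Y : Finset V, Disjoint (crs s t Y) F → ¬ Disjoint (crs s t Y) H →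
      ¬ Disjoint (crs s t Y) T) (x : E → ZMod 2) (hx : ∀ v, bd2 s t x v = 0) :
    ∃ x' : E → ZMod 2, (∀ v, bd2 s t x' v = 0) ∧
      (∀ e, e ∈ H → e ∉ T → e ∉ F → x' e ≠ 0) ∧ ∀ e, e ∉ F → e ∉ H → x' e = x e := by
  classical
  obtain ⟨r, q1, -, q3, q4⟩ := quotC s t (T ∪ F)
  have hloop : ∀ e, e ∈ H → r (s e) = r (t e) := by
    intro e he
    by_contra hne
    set Y : Finset V := univ.filter (fun v => r v = r (s e)) with hY
    have hd : Disjoint (crs s t Y) (T ∪ F) := by
      rw [disjoint_left]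
      intro a ha haF
      rw [mem_crs, mem_filter, mem_filter] at ha
      apply ha
      simp only [mem_univ, true_and]
      rw [q1 a haF]
    rw [disjoint_union_right] at hd
    refine hc Y hd.2 ?_ hd.1
    rw [not_disjoint_iff]
    refine ⟨e, ?_, he⟩
    rw [mem_crs, mem_filter, mem_filter]
    simp only [mem_univ, true_and]
    exact fun h => hne (h.1 trivial).symm
  obtain ⟨z, z1, z2⟩ := q4 (fun e => if e ∈ H ∧ x e = 0 then 1 else 0) (by
    intro v
    unfold bd2
    refine sum_eq_zero fun e _ => ?_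
    by_cases he : e ∈ H ∧ x e = 0
    · simp only [Function.comp, hloop e he.1, if_pos he]
      exact CharTwo.add_self_eq_zero _
    · simp only [if_neg he, ite_self, add_zero])
  refine ⟨x + z, fun v => by rw [MacConx.bd2_add, hx v, z1 v, add_zero], fun e h1 h2 h3 => ?_,
    fun e h1 h2 => ?_⟩
  · rw [Pi.add_apply, z2 e (by rw [mem_union, not_or]; exact ⟨h2, h3⟩)]
    by_cases h4 : x e = 0
    · rw [if_pos ⟨h1, h4⟩, h4, zero_add]
      exact one_ne_zero
    · rw [if_neg (fun h => h4 h.2), add_zero]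
      exact h4
  · rw [Pi.add_apply, z2 e (by rw [mem_union, not_or]; exact ⟨fun h => h2 (hT h), h1⟩),
      if_neg (fun h => h2 h.1), add_zero]

/-- pieces with two disjoint connectors can be contracted -/
theorem flA_two (s t : E → V) (F H : Finset E) (h : TwoC s t F H) (hf : FlA s t (F ∪ H)) :
    FlA s t F := by
  obtain ⟨T₁, T₂, a1, a2, a3, a4⟩ := h
  obtain ⟨x, y, h1, h2, h3⟩ := hf
  obtain ⟨x', b1, b2, b3⟩ := fix s t F H T₁ a1 (fun Y h5 h6 => (a4 Y h5 h6).1) x h1
  obtain ⟨y', c1, c2, c3⟩ := fix s t F H T₂ a2 (fun Y h5 h6 => (a4 Y h5 h6).2) y h2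
  refine ⟨x', y', b1, c1, fun e he => ?_⟩
  by_cases heH : e ∈ H
  · by_cases heT : e ∈ T₁
    · exact Or.inr (c2 e heH (fun h => (disjoint_left.1 a3) heT h) he)
    · exact Or.inl (b2 e heH heT he)
  · rw [b3 e he heH, c3 e he heH]
    exact h3 e (by rw [mem_union, not_or]; exact ⟨he, heH⟩)

theorem foldM (hx : St_circEx) (src dst : E → V) (m : ℕ) :
    ∀ C : Fin m → Finset E,
    (∀ i, St src dst ((univ.filter (fun j => j < i)).biUnion C)
      (C i \ (univ.filter (fun j => j < i)).biUnion C)) →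
    FlA src dst (univ.biUnion C) → FlA src dst ∅ := by
  induction m with
  | zero => intro C _ h; simpa using h
  | succ m ih =>
    intro C h1 h
    have e0 : (univ.filter (fun j => j < Fin.last m)).biUnion C =
        univ.biUnion (fun i : Fin m => C i.castSucc) := by
      ext a
      simp only [mem_biUnion, mem_filter, mem_univ, true_and]
      constructor
      · rintro ⟨j, hj, ha⟩
        exact ⟨⟨j, hj⟩, ha⟩
      · rintro ⟨j, ha⟩
        exact ⟨j.castSucc, Fin.castSucc_lt_last j, ha⟩
    have e1 : ∀ i : Fin m, (univ.filter (fun j => j < i.castSucc)).biUnion C =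
        (univ.filter (fun j => j < i)).biUnion (fun i : Fin m => C i.castSucc) := by
      intro i
      ext a
      simp only [mem_biUnion, mem_filter, mem_univ, true_and]
      constructor
      · rintro ⟨j, hj, ha⟩
        have hjm : (j : ℕ) < m := lt_trans hj i.2
        exact ⟨⟨j, hjm⟩, hj, ha⟩
      · rintro ⟨j, hj, ha⟩
        exact ⟨j.castSucc, hj, ha⟩
    refine ih (fun i => C i.castSucc) (fun i => ?_) ?_
    · rw [← e1]; exact h1 i.castSucc
    · have h3 := h1 (Fin.last m)
      rw [e0] at h3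
      have hsub : FlA src dst (univ.biUnion (fun i : Fin m => C i.castSucc) ∪
          (C (Fin.last m) \ univ.biUnion (fun i : Fin m => C i.castSucc))) := by
        refine flA_mono src dst ?_ h
        intro a ha
        obtain ⟨j, -, hj⟩ := mem_biUnion.mp ha
        rw [mem_union]
        rcases Fin.lt_or_eq_of_le (Fin.le_last j) with hlt | rfl
        · left
          exact mem_biUnion.mpr ⟨⟨j, hlt⟩, mem_univ _, hj⟩
        · by_cases h5 : a ∈ univ.biUnion (fun i : Fin m => C i.castSucc)
          · exact Or.inl h5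
          · exact Or.inr (mem_sdiff.mpr ⟨hj, h5⟩)
      rcases h3 with ⟨h3, h4⟩ | h3
      · exact trailA hx src dst _ _ _ h3 rfl h4 hsub
      · exact flA_two src dst _ _ h3 hsub

end Pool.Agent.R926.SC
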