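import Pool.Agent.R926.SC.Mixed

set_option autoImplicit false
set_option linter.unusedSectionVars false

/-! # Maps to the Petersen graph: at most sixteen odd components of a chain -/

namespace Pool.Agent.R926.SC

open Finset Pool.Agent.TH676.Z Pool.Agent.Y335.FL
open Pool.Agent.TH362.TF (nb)

variable {V E : Type} [Fintype V] [DecidableEq V] [Fintype E] [DecidableEq E]

/-- the flow for one class of a Petersen quotient -/
theorem classFlowM (hx : St_circEx) (s t : E → V) (m : ℕ) (C : Fin m → Finset E)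
    (h1 : ∀ i, St s t ((univ.filter (fun j => j < i)).biUnion C)
      (C i \ (univ.filter (fun j => j < i)).biUnion C))
    (hb : TH362.TF.N1 s t univ) (r : V → V)
    (q1 : ∀ e ∈ univ.biUnion C, r (s e) = r (t e))
    (q3 : ∀ Y : Finset V, Disjoint (crs s t Y) (univ.biUnion C) →
      ∀ x y, r x = r y → (x ∈ Y ↔ y ∈ Y))
    (ho : (TH362.TF.odd (r ∘ s) (r ∘ t) univ).card ≤ 16) (κ : V → Fin 10)
    (hκ : TH362.TF.IsPQ (r ∘ s) (r ∘ t) univ κ) (k : Fin 10) :
    ∃ x y : E → ZMod 2, (∀ v, κ (r v) = k → bd2 s t x v = 0) ∧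
      (∀ v, κ (r v) = k → bd2 s t y v = 0) ∧ ∀ e, x e ≠ 0 ∨ y e ≠ 0 := by
  classical
  obtain ⟨v0, hv0⟩ : ∃ v, κ (r v) ≠ k := by
    obtain ⟨e, _, he⟩ := hκ.2 k (nb k 0) (TH362.TF.Contr.padj_nb k 0)
    have hne := TH362.TF.Contr.nb_ne k 0
    rcases he with ⟨a, b⟩ | ⟨a, b⟩
    · exact ⟨t e, fun h => hne (b.symm.trans h)⟩
    · exact ⟨s e, fun h => hne (a.symm.trans h)⟩
  set ρ : V → V := fun v => if κ (r v) = k then v else v0 with hρ
  have ρin : ∀ v, κ (r v) = k → ρ v = v := fun v h => by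
    simp only [hρ]
    rw [if_pos h]
  have ρout : ∀ v, κ (r v) ≠ k → ρ v = v0 := fun v h => by
    simp only [hρ]
    rw [if_neg h]
  have hidem : ∀ v, ρ (ρ v) = ρ v := by
    intro v
    by_cases h : κ (r v) = k
    · rw [ρin v h, ρin v h]
    · rw [ρout v h, ρout v0 hv0]
  set F := univ.biUnion C with hF
  have qρ : ∀ e ∈ F, r (ρ (s e)) = r (ρ (t e)) := by
    intro e he
    have h3 := q1 e he
    by_cases h : κ (r (s e)) = k
    · rw [ρin _ h, ρin (t e) (by rw [← h3]; exact h), h3]
    · rw [ρout _ h, ρout (t e) (by rw [← h3]; exact h)]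
  have hcr : ∀ Y : Finset V, crs (ρ ∘ s) (ρ ∘ t) Y =
      crs s t (univ.filter (fun v => ρ v ∈ Y)) := by
    intro Y
    ext e
    rw [mem_crs, mem_crs, mem_filter, mem_filter]
    simp
  obtain ⟨r2, p1, -, p3, p4⟩ := quotC (ρ ∘ s) (ρ ∘ t) F
  have hker : ∀ u v, (r2 ∘ ρ) u = (r2 ∘ ρ) v ↔ (r ∘ ρ) u = (r ∘ ρ) v := by
    intro u v
    constructor
    · intro h
      have hd : Disjoint (crs (ρ ∘ s) (ρ ∘ t) (univ.filter (fun w => r w = r (ρ u)))) F := by
        rw [disjoint_left]
        intro e he heF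
        rw [mem_crs, mem_filter, mem_filter] at he
        apply he
        simp only [Function.comp, mem_univ, true_and]
        rw [qρ e heF]
      have h4 := (p3 _ hd (ρ u) (ρ v) h).1 (mem_filter.mpr ⟨mem_univ _, rfl⟩)
      exact (mem_filter.mp h4).2.symm
    · intro h
      have hd : Disjoint (crs s t (univ.filter (fun w => r2 (ρ w) = r2 (ρ u)))) F := by
        rw [disjoint_left]
        intro e he heF
        rw [mem_crs, mem_filter, mem_filter] at he
        apply he
        simp only [mem_univ, true_and]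
        have h5 : r2 (ρ (s e)) = r2 (ρ (t e)) := p1 e heF
        rw [h5]
      have h4 := (q3 _ hd (ρ u) (ρ v) h).1 (mem_filter.mpr ⟨mem_univ _, by rw [hidem]⟩)
      have h5 := (mem_filter.mp h4).2
      rw [hidem] at h5
      exact h5.symm
  have hodd8 : (TH362.TF.odd ((r2 ∘ ρ) ∘ s) ((r2 ∘ ρ) ∘ t) univ).card ≤ 8 := by
    refine (odd_ker s t (r2 ∘ ρ) (r ∘ ρ) hker).trans ?_
    have hsub : TH362.TF.odd ((r ∘ ρ) ∘ s) ((r ∘ ρ) ∘ t) univ ⊆
        insert (r v0) ((TH362.TF.odd (r ∘ s) (r ∘ t) univ).filter (fun w => κ w = k)) := by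
      intro w hw
      rw [TH362.TF.odd_iff_cut] at hw
      rw [mem_insert, mem_filter]
      by_cases hk : κ w = k
      · right
        refine ⟨?_, hk⟩
        rw [TH362.TF.odd_iff_cut, ← hw]
        congr 2
        unfold TH362.TF.cut
        refine filter_congr fun e _ => ?_
        have key : ∀ u, decide (r (ρ u) = w) = decide (r u = w) := by
          intro u
          rw [decide_eq_decide]
          by_cases h : κ (r u) = k
          · rw [ρin u h]
          · rw [ρout u h]
            constructor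
            · intro h5
              rw [h5] at hv0
              exact absurd hk hv0
            · intro h5
              rw [h5] at h
              exact absurd hk h
        have k1 := key (s e)
        have k2 := key (t e)
        show (decide (r (s e) = w) ≠ decide (r (t e) = w)) ↔
          (decide (r (ρ (s e)) = w) ≠ decide (r (ρ (t e)) = w))
        rw [k1, k2]
      · left
        by_contra hne
        have hcut : TH362.TF.cut ((r ∘ ρ) ∘ s) ((r ∘ ρ) ∘ t) univ (fun u => decide (u = w)) =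
            ∅ := by
          unfold TH362.TF.cut
          rw [filter_eq_empty_iff]
          intro e _ h
          have key : ∀ u, decide (r (ρ u) = w) = false := by
            intro u
            rw [decide_eq_false_iff_not]
            intro h5
            by_cases h6 : κ (r u) = k
            · rw [ρin u h6] at h5
              exact hk (h5 ▸ h6)
            · rw [ρout u h6] at h5
              exact hne h5.symm
          exact h ((key (s e)).trans (key (t e)).symm)
        rw [hcut] at hw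
        simp at hw
    have hc1 := card_le_card hsub
    have hc2 := card_insert_le (r v0)
      ((TH362.TF.odd (r ∘ s) (r ∘ t) univ).filter (fun w => κ w = k))
    have hc3 := TH362.TF.card_classes (TH362.TF.odd (r ∘ s) (r ∘ t) univ) κ
    have hc4 : ∑ k' ∈ univ.erase k, 1 ≤ ∑ k' ∈ univ.erase k,
        ((TH362.TF.odd (r ∘ s) (r ∘ t) univ).filter (fun w => κ w = k')).card :=
      sum_le_sum fun k' _ => TH362.TF.pq_odd_pos hκ k'
    have hc5 := add_sum_erase univ
      (fun k' => ((TH362.TF.odd (r ∘ s) (r ∘ t) univ).filter (fun w => κ w = k')).card)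
      (mem_univ k)
    have hc6 : (univ.erase k : Finset (Fin 10)).card = 9 := by
      rw [card_erase_of_mem (mem_univ _), card_univ, Fintype.card_fin]
    rw [sum_const, smul_eq_mul, mul_one, hc6] at hc4
    omega
  have hN : TH362.TF.N1 ((r2 ∘ ρ) ∘ s) ((r2 ∘ ρ) ∘ t) univ := fun x => hb (x ∘ r2 ∘ ρ)
  rcases TH362.TF.main16 ((r2 ∘ ρ) ∘ s) ((r2 ∘ ρ) ∘ t) univ hN (by omega) with h | h
  swap
  · have := TH362.TF.pq_card h
    omega
  have hA : FlA (ρ ∘ s) (ρ ∘ t) F := flA_of_nz (ρ ∘ s) (ρ ∘ t) F r2 p4 h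
  have h1' : ∀ i, St (ρ ∘ s) (ρ ∘ t) ((univ.filter (fun j => j < i)).biUnion C)
      (C i \ (univ.filter (fun j => j < i)).biUnion C) :=
    fun i => st_map s t ρ _ _ (h1 i)
  obtain ⟨x, y, z1, z2, z3⟩ := foldM hx (ρ ∘ s) (ρ ∘ t) m C h1' hA
  have hv : ∀ v, κ (r v) = k → ∀ u, ρ u = v ↔ u = v := by
    intro v hv u
    by_cases h : κ (r u) = k
    · rw [ρin u h]
    · rw [ρout u h]
      constructor
      · intro h5
        rw [← h5] at hv
        exact absurd hv hv0
      · intro h5
        rw [h5] at h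
        exact absurd hv h
  exact ⟨x, y, fun v hvk => (bd2_iff s t ρ x v (hv v hvk)).symm.trans (z1 v),
    fun v hvk => (bd2_iff s t ρ y v (hv v hvk)).symm.trans (z2 v),
    fun e => z3 e (notMem_empty _)⟩

/-- nowhere-zero 4-flows or Petersen quotients -/
theorem fourM (hx : St_circEx) (s t : E → V) (m : ℕ) (C : Fin m → Finset E)
    (h1 : ∀ i, St s t ((univ.filter (fun j => j < i)).biUnion C)
      (C i \ (univ.filter (fun j => j < i)).biUnion C))
    (hb : TH362.TF.N1 s t univ)
    (h16 : ∀ r : V → V, (∀ e ∈ univ.biUnion C, r (s e) = r (t e)) →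
      (∀ Y : Finset V, Disjoint (crs s t Y) (univ.biUnion C) →
        ∀ x y, r x = r y → (x ∈ Y ↔ y ∈ Y)) →
      (TH362.TF.odd (r ∘ s) (r ∘ t) univ).card ≤ 16) :
    TH362.TF.NZ s t univ ∨ TH362.TF.PQ s t univ := by
  classical
  obtain ⟨r, q1, -, q3, q4⟩ := quotC s t (univ.biUnion C)
  have hodd := h16 r q1 q3
  rcases TH362.TF.main16 (r ∘ s) (r ∘ t) univ (fun x => hb (x ∘ r)) hodd with h | h
  · left
    obtain ⟨x, y, z1, z2, z3⟩ := foldM hx s t m C h1 (flA_of_nz s t _ r q4 h)
    refine ⟨fun e => (x e, y e), fun e _ h => ?_, fun v => cons_of s t x y v (z1 v) (z2 v)⟩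
    have h4 := congrArg Prod.fst h
    have h5 := congrArg Prod.snd h
    rcases z3 e (notMem_empty _) with h6 | h6
    · exact h6 h4
    · exact h6 h5
  · right
    obtain ⟨κ, k1, k2⟩ := h
    exact ⟨κ ∘ r, fun k => k1 k, fun k l hkl => k2 k l hkl⟩

/-- **Maps to the Petersen graph.**  At most sixteen components of the union of a chain have an
odd number of boundary edges. -/
theorem petMapM (hx : St_circEx) (s t : E → V) (m : ℕ) (C : Fin m → Finset E)
    (h1 : ∀ i, St s t ((univ.filter (fun j => j < i)).biUnion C)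
      (C i \ (univ.filter (fun j => j < i)).biUnion C))
    (hb : TH362.TF.N1 s t univ)
    (h16 : ∀ r : V → V, (∀ e ∈ univ.biUnion C, r (s e) = r (t e)) →
      (∀ Y : Finset V, Disjoint (crs s t Y) (univ.biUnion C) →
        ∀ x y, r x = r y → (x ∈ Y ↔ y ∈ Y)) →
      (TH362.TF.odd (r ∘ s) (r ∘ t) univ).card ≤ 16) :
    ∃ f : E → Fin 15, ∀ φ : Fin 15 → ZMod 2,
      (∀ k, φ (pe k 0) + φ (pe k 1) + φ (pe k 2) = 0) → ∀ v, bd2 s t (φ ∘ f) v = 0 := by
  classical
  obtain ⟨r, q1, -, q3, q4⟩ := quotC s t (univ.biUnion C)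
  have hodd := h16 r q1 q3
  rcases TH362.TF.main16 (r ∘ s) (r ∘ t) univ (fun x => hb (x ∘ r)) hodd with h | h
  · obtain ⟨x, y, z1, z2, z3⟩ := foldM hx s t m C h1 (flA_of_nz s t _ r q4 h)
    have hj : ∀ e, ∃ j : Fin 3,
        (![(1, 0), (0, 1), (1, 1)] : Fin 3 → ZMod 2 × ZMod 2) j = (x e, y e) := by
      intro e
      have h5 : ∀ a b : ZMod 2, (a ≠ 0 ∨ b ≠ 0) → ∃ j : Fin 3,
        (![(1, 0), (0, 1), (1, 1)] : Fin 3 → ZMod 2 × ZMod 2) j = (a, b) := by decide
      exact h5 _ _ (z3 e (notMem_empty _))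
    choose j hj using hj
    refine ⟨fun e => pe 0 (j e), fun φ hφ v => ?_⟩
    exact local_flow s t x y v (z1 v) (z2 v) _ 0 ![(1, 0), (0, 1), (1, 1)] (by decide) (by decide)
      (fun e _ => ⟨j e, rfl, hj e⟩) φ (hφ 0)
  · obtain ⟨κ, hκ⟩ := h
    have hcl := fun k => classFlowM hx s t m C h1 hb r q1 q3 hodd κ hκ k
    choose x y z1 z2 z3 using hcl
    have hst := fun k => TH362.TF.Contr.struct (r ∘ s) (r ∘ t) κ hκ k
    choose ε w1 w2 using hst
    have hτ0 : ∀ k j, (x k (ε k j), y k (ε k j)) ≠ (0 : ZMod 2 × ZMod 2) := by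
      intro k j h
      rcases z3 k (ε k j) with h5 | h5
      · exact h5 (congrArg Prod.fst h)
      · exact h5 (congrArg Prod.snd h)
    have hεinj : ∀ k, Function.Injective (ε k) := by
      intro k i j hij
      have a1 := w1 k i
      have a2 := w1 k j
      rw [hij] at a1
      have h3 := TH362.TF.Contr.nb_ne k i
      have h4 := TH362.TF.Contr.nb_ne k j
      apply TH362.TF.Contr.nb_inj k
      rcases a1 with ⟨a, b⟩ | ⟨a, b⟩ <;> rcases a2 with ⟨c, d⟩ | ⟨c, d⟩
      · exact b.symm.trans d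
      · exact absurd (c.symm.trans a) h4
      · exact absurd (a.symm.trans c) h3
      · exact a.symm.trans c
    have hcut : ∀ k, TH362.TF.cut s t univ (fun v => decide (κ (r v) = k)) =
        univ.image (ε k) := by
      intro k
      ext e
      unfold TH362.TF.cut
      rw [mem_filter, mem_image]
      constructor
      · rintro ⟨-, h5⟩
        obtain ⟨j, hj⟩ := w2 k e (fun h6 => h5 (decide_eq_decide.2 h6))
        exact ⟨j, mem_univ _, hj.symm⟩
      · rintro ⟨j, -, rfl⟩
        refine ⟨mem_univ _, fun h5 => ?_⟩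
        have h6 := decide_eq_decide.1 h5
        have h7 := TH362.TF.Contr.nb_ne k j
        rcases w1 k j with ⟨a, b⟩ | ⟨a, b⟩
        · exact h7 (b.symm.trans (h6.1 a))
        · exact h7 (a.symm.trans (h6.2 b))
    have hτs : ∀ k, (x k (ε k 0), y k (ε k 0)) + (x k (ε k 1), y k (ε k 1)) +
        (x k (ε k 2), y k (ε k 2)) = (0 : ZMod 2 × ZMod 2) := by
      intro k
      have h5 := TH362.TF.flow_cut (s := s) (t := t) (S := univ)
        (φ := fun e => (x k e, y k e)) (fun v => decide (κ (r v) = k)) (fun v hv =>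
          cons_of s t (x k) (y k) v (z1 k v (of_decide_eq_true hv))
            (z2 k v (of_decide_eq_true hv)))
      rw [hcut k, sum_image (fun i _ j _ h => hεinj k h), Fin.sum_univ_three] at h5
      exact h5
    have hbij : ∀ k e, ∃ j : Fin 3, (x k (ε k j), y k (ε k j)) = (x k e, y k e) := by
      intro k e
      rcases three_values _ _ _ (hτ0 k 0) (hτ0 k 1) (hτ0 k 2) (hτs k) _ _ (z3 k e) with
        h5 | h5 | h5
      · exact ⟨0, h5⟩
      · exact ⟨1, h5⟩
      · exact ⟨2, h5⟩
    have hex : ∀ e, ∃ g : Fin 15, ∀ k, (κ (r (s e)) = k ∨ κ (r (t e)) = k) →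
        ∃ j, pe k j = g ∧ (x k (ε k j), y k (ε k j)) = (x k e, y k e) := by
      intro e
      by_cases hst : κ (r (s e)) = κ (r (t e))
      · obtain ⟨j, hj⟩ := hbij (κ (r (s e))) e
        refine ⟨pe (κ (r (s e))) j, fun k hk => ?_⟩
        have hk' : κ (r (s e)) = k := by
          rcases hk with h5 | h5
          · exact h5
          · exact hst.trans h5
        subst hk'
        exact ⟨j, rfl, hj⟩
      · obtain ⟨j, hj⟩ := w2 (κ (r (s e))) e (fun h5 => hst (h5.1 rfl).symm)
        obtain ⟨j', hj'⟩ := w2 (κ (r (t e))) e (fun h5 => hst (h5.2 rfl))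
        have n1 : nb (κ (r (s e))) j = κ (r (t e)) := by
          have h5 := w1 (κ (r (s e))) j
          rw [← hj] at h5
          rcases h5 with ⟨a, b⟩ | ⟨a, b⟩
          · exact b.symm
          · exact absurd b.symm hst
        have n2 : nb (κ (r (t e))) j' = κ (r (s e)) := by
          have h5 := w1 (κ (r (t e))) j'
          rw [← hj'] at h5
          rcases h5 with ⟨a, b⟩ | ⟨a, b⟩
          · exact absurd a hst
          · exact a.symm
        refine ⟨pe (κ (r (s e))) j, fun k hk => ?_⟩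
        rcases hk with h5 | h5
        · subst h5
          exact ⟨j, rfl, by rw [← hj]⟩
        · subst h5
          exact ⟨j', (pe_eq _ _ _ _ n1 n2).symm, by rw [← hj']⟩
    choose f hf using hex
    refine ⟨f, fun φ hφ v => ?_⟩
    refine local_flow s t (x (κ (r v))) (y (κ (r v))) v (z1 _ v rfl) (z2 _ v rfl) f (κ (r v))
      (fun j => (x (κ (r v)) (ε (κ (r v)) j), y (κ (r v)) (ε (κ (r v)) j))) (hτ0 _) (hτs _)
      (fun e he => ?_) φ (hφ _)
    refine hf e (κ (r v)) ?_
    rcases he with h5 | h5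
    · exact Or.inl (by rw [h5])
    · exact Or.inr (by rw [h5])

/-- from the steps of the results -/
theorem st_of (s t : E → V) (m : ℕ) (C : Fin m → Finset E)
    (h : ∀ i, (((C i \ (univ.filter (fun j => j < i)).biUnion C).card ≤ 4 ∧
        ∀ Y : Finset V, Disjoint (crs s t Y) ((univ.filter (fun j => j < i)).biUnion C) →
          (crs s t Y ∩ C i).card ≠ 1) ∨
      ∃ T₁ T₂ : Finset E, T₁ ⊆ C i ∧ T₂ ⊆ C i ∧ Disjoint T₁ T₂ ∧
        ∀ Y : Finset V, Disjoint (crs s t Y) ((univ.filter (fun j => j < i)).biUnion C) →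
          ¬ Disjoint (crs s t Y) (C i) →
            ¬ Disjoint (crs s t Y) T₁ ∧ ¬ Disjoint (crs s t Y) T₂)) (i : Fin m) :
    St s t ((univ.filter (fun j => j < i)).biUnion C)
      (C i \ (univ.filter (fun j => j < i)).biUnion C) := by
  set F := (univ.filter (fun j => j < i)).biUnion C with hF
  have hkey : ∀ (Y : Finset V) (A : Finset E), Disjoint (crs s t Y) F →
      (Disjoint (crs s t Y) (A \ F) ↔ Disjoint (crs s t Y) A) := by
    intro Y A hY
    constructor
    · intro h
      rw [disjoint_left] at h ⊢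
      intro e he heA
      exact h he (mem_sdiff.mpr ⟨heA, fun hf => (disjoint_left.1 hY) he hf⟩)
    · exact fun h => disjoint_of_subset_right sdiff_subset h
  rcases h i with ⟨h1, h2⟩ | ⟨T₁, T₂, a1, a2, a3, a4⟩
  · refine Or.inl ⟨fun Y hY => ?_, h1⟩
    have h3 : crs s t Y ∩ (C i \ F) = crs s t Y ∩ C i := by
      ext e
      simp only [mem_inter, mem_sdiff]
      constructor
      · rintro ⟨h1, h2, -⟩
        exact ⟨h1, h2⟩
      · rintro ⟨h1, h2⟩
        exact ⟨h1, h2, fun h3 => (disjoint_left.mp hY) h1 h3⟩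
    rw [h3]
    exact h2 Y hY
  · refine Or.inr ⟨T₁ \ F, T₂ \ F, sdiff_subset_sdiff a1 subset_rfl,
      sdiff_subset_sdiff a2 subset_rfl,
      disjoint_of_subset_left sdiff_subset (disjoint_of_subset_right sdiff_subset a3),
      fun Y hY hH => ?_⟩
    rw [hkey Y _ hY] at hH
    rw [hkey Y _ hY, hkey Y _ hY]
    exact a4 Y hY hH

end Pool.Agent.R926.SC
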