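import Pool.Agent.R926.SC.PetFin
import Pool.Agent.R926.SC.PetMix

set_option autoImplicit false
set_option linter.unusedSectionVars false

/-! # Cycle-continuous maps to the Petersen graph; six even subgraphs: chains -/

namespace Pool.Agent.R926.SC

open Finset Pool.Agent.TH676.Z Pool.Agent.Y335.FL
open Pool.Agent.H160R2.CC Pool.Agent.H160R2.CC.MGraph

/-- Jaeger's conjecture for chains. -/
theorem succ_petM (G : MGraph) (hB : ¬ G.HasCutEdge) (m : ℕ) (C : Fin m → Finset G.E)
    (h1 : ∀ i, St G.src G.tgt ((univ.filter (fun j => j < i)).biUnion C)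
      (C i \ (univ.filter (fun j => j < i)).biUnion C))
    (ho : ((Finset.univ.image (comp G.src G.tgt (Finset.univ.biUnion C))).filter
      (fun X => Odd (crs G.src G.tgt X).card)).card ≤ 16) : Succ G petersen := by
  classical
  have hb : ∀ Y : Finset G.V, (crs G.src G.tgt Y).card ≠ 1 := by
    intro Y hY
    obtain ⟨e, he⟩ := card_eq_one.mp hY
    apply hB
    refine ⟨Y, e, fun e' => ?_⟩
    rw [← mem_crs, he, mem_singleton]
  obtain ⟨f, hf⟩ := petMapM Pool.Agent.Y335.FL.circEx G.src G.tgt m C h1 (n1_crs _ _ hb)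
    (fun r q1 q3 => h16_of G.src G.tgt (univ.biUnion C) ho r q1 q3)
  refine succ_iff.2 ⟨f, fun φ hφ v => ?_⟩
  refine Eq.trans ?_ (hf φ (pet_flow φ hφ) v)
  unfold MGraph.bd bd2 MGraph.inc
  refine Finset.sum_congr rfl fun e _ => ?_
  simp only [Function.comp]
  split_ifs <;> ring

/-- six even subgraphs -/
theorem six_evenM {V E : Type} [Fintype V] [DecidableEq V] [Fintype E] [DecidableEq E]
    (s t : E → V) (hb : ∀ Y : Finset V, (crs s t Y).card ≠ 1) (m : ℕ) (C : Fin m → Finset E)
    (h1 : ∀ i, St s t ((univ.filter (fun j => j < i)).biUnion C)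
      (C i \ (univ.filter (fun j => j < i)).biUnion C))
    (ho : ((Finset.univ.image (comp s t (Finset.univ.biUnion C))).filter
      (fun X => Odd (crs s t X).card)).card ≤ 16) :
    ∃ D : Fin 6 → Finset E,
      (∀ i v, Even (((D i).filter (fun e => s e = v)).card +
        ((D i).filter (fun e => t e = v)).card)) ∧
      ∀ e, (univ.filter (fun i => e ∈ D i)).card = 4 := by
  classical
  obtain ⟨f, hf⟩ := petMapM Pool.Agent.Y335.FL.circEx s t m C h1 (n1_crs _ _ hb)
    (fun r q1 q3 => h16_of s t (univ.biUnion C) ho r q1 q3)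
  refine ⟨fun i => univ.filter (fun e => co i (f e) = 1), fun i v => ?_, fun e => ?_⟩
  · have h1 := hf (co i) (co_flow i) v
    rw [← ZMod.natCast_eq_zero_iff_even]
    refine Eq.trans ?_ h1
    rw [Nat.cast_add, filter_filter, filter_filter, card_filter, card_filter, Nat.cast_sum,
      Nat.cast_sum, ← sum_add_distrib]
    unfold bd2
    refine sum_congr rfl fun e _ => ?_
    have h2 : ∀ a : ZMod 2, a = 0 ∨ a = 1 := by decide
    simp only [Function.comp]
    rcases h2 (co i (f e)) with h3 | h3
    · rw [h3]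
      split_ifs <;> simp_all
    · rw [h3]
      simp only [true_and]
      split_ifs <;> simp
  · rw [← co_four (f e)]
    congr 1
    ext i
    simp

end Pool.Agent.R926.SC
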