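import Pool.Agent.R926.SC.PetFin
import Pool.Agent.H23.PS.OcFin

set_option autoImplicit false
set_option linter.unusedSectionVars false

/-! # Orientable cycle double covers with five classes: few odd pieces -/

namespace Pool.Agent.R926.SC

open Finset Pool.Agent.TH676.Z Pool.Agent.Y335.FL
open Pool.Agent.TH362.TF (nb)
open Pool.Agent.H160R2.HF (OrGraph)
open Pool.Agent.H23.PS (FiveClasses)

/-- the coordinate `i` of the difference of the unit vectors `a` and `b` -/
def dv5 (a b i : Fin 5) : ℤ := (if a = i then 1 else 0) - (if b = i then 1 else 0)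

theorem tri : ∀ a0 b0 : Fin 5, a0 ≠ b0 → ∀ a1 b1 : Fin 5, a1 ≠ b1 → ∀ a2 b2 : Fin 5, a2 ≠ b2 →
    (∀ i, dv5 a0 b0 i + dv5 a1 b1 i + dv5 a2 b2 i = 0) →
    (b0 = a1 ∧ b1 = a2 ∧ b2 = a0) ∨ (a0 = b1 ∧ a1 = b2 ∧ a2 = b0) := by
  decide +kernel

theorem ext3 (u v w U V W : Fin 5) (h1 : u ≠ v) (h2 : v ≠ w) (h3 : u ≠ w) (H1 : U ≠ V)
    (H2 : V ≠ W) (H3 : U ≠ W) : ∃ π : Equiv.Perm (Fin 5), π u = U ∧ π v = V ∧ π w = W := by
  set σ1 : Equiv.Perm (Fin 5) := Equiv.swap u U with hσ1
  have a1 : σ1 u = U := Equiv.swap_apply_left _ _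
  set σ2 : Equiv.Perm (Fin 5) := Equiv.swap (σ1 v) V with hσ2
  have a2 : σ2 (σ1 v) = V := Equiv.swap_apply_left _ _
  have a3 : σ2 (σ1 u) = U := by
    rw [a1]
    refine Equiv.swap_apply_of_ne_of_ne ?_ H1
    rw [← a1]
    exact fun h => h1 (σ1.injective h)
  set σ3 : Equiv.Perm (Fin 5) := Equiv.swap (σ2 (σ1 w)) W with hσ3
  have a4 : σ3 (σ2 (σ1 w)) = W := Equiv.swap_apply_left _ _
  have a5 : σ3 (σ2 (σ1 u)) = U := by
    rw [a3]
    refine Equiv.swap_apply_of_ne_of_ne ?_ H3
    rw [← a3]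
    exact fun h => h3 (σ1.injective (σ2.injective h))
  have a6 : σ3 (σ2 (σ1 v)) = V := by
    rw [a2]
    refine Equiv.swap_apply_of_ne_of_ne ?_ H2
    rw [← a2]
    exact fun h => h2 (σ1.injective (σ2.injective h))
  exact ⟨(σ1.trans σ2).trans σ3, a5, a6, a4⟩

/-- two triples of differences with sum zero are equivalent -/
theorem match3 (a b A B : Fin 3 → Fin 5) (hab : ∀ j, a j ≠ b j) (hAB : ∀ j, A j ≠ B j)
    (h : ∀ i, dv5 (a 0) (b 0) i + dv5 (a 1) (b 1) i + dv5 (a 2) (b 2) i = 0)
    (H : ∀ i, dv5 (A 0) (B 0) i + dv5 (A 1) (B 1) i + dv5 (A 2) (B 2) i = 0) :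
    ∃ (π : Equiv.Perm (Fin 5)) (δ : Bool), ∀ j,
      (if δ = true then (π (a j), π (b j)) else (π (b j), π (a j))) = (A j, B j) := by
  rcases tri _ _ (hab 0) _ _ (hab 1) _ _ (hab 2) h with ⟨e1, e2, e3⟩ | ⟨e1, e2, e3⟩ <;>
    rcases tri _ _ (hAB 0) _ _ (hAB 1) _ _ (hAB 2) H with ⟨f1, f2, f3⟩ | ⟨f1, f2, f3⟩
  · -- both cyclic
    obtain ⟨π, p1, p2, p3⟩ := ext3 (a 0) (b 0) (b 1) (A 0) (B 0) (B 1) (hab 0)
      (by rw [e1]; exact hab 1) (by rw [← e3, e2]; exact (hab 2).symm) (hAB 0)
      (by rw [f1]; exact hAB 1) (by rw [← f3, f2]; exact (hAB 2).symm)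
    refine ⟨π, true, fun j => ?_⟩
    rw [if_pos rfl]
    fin_cases j
    · show (π (a 0), π (b 0)) = (A 0, B 0)
      rw [p1, p2]
    · show (π (a 1), π (b 1)) = (A 1, B 1)
      rw [← e1, ← f1, p2, p3]
    · show (π (a 2), π (b 2)) = (A 2, B 2)
      rw [← e2, ← f2, e3, f3, p3, p1]
  · -- cyclic and anticyclic
    obtain ⟨π, p1, p2, p3⟩ := ext3 (a 0) (b 0) (b 1) (B 0) (A 0) (A 1) (hab 0)
      (by rw [e1]; exact hab 1) (by rw [← e3, e2]; exact (hab 2).symm) (hAB 0).symm
      (by rw [f1]; exact (hAB 1).symm) (by rw [← f3, f2]; exact hAB 2)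
    refine ⟨π, false, fun j => ?_⟩
    rw [if_neg (by decide)]
    fin_cases j
    · show (π (b 0), π (a 0)) = (A 0, B 0)
      rw [p1, p2]
    · show (π (b 1), π (a 1)) = (A 1, B 1)
      rw [← e1, p2, p3, f1]
    · show (π (b 2), π (a 2)) = (A 2, B 2)
      rw [← e2, e3, p3, p1, f3, f2]
  · -- anticyclic and cyclic
    obtain ⟨π, p1, p2, p3⟩ := ext3 (b 0) (a 0) (a 1) (A 0) (B 0) (B 1) (hab 0).symm
      (by rw [e1]; exact (hab 1).symm) (by rw [← e3, e2]; exact hab 2) (hAB 0)
      (by rw [f1]; exact hAB 1) (by rw [← f3, f2]; exact (hAB 2).symm)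
    refine ⟨π, false, fun j => ?_⟩
    rw [if_neg (by decide)]
    fin_cases j
    · show (π (b 0), π (a 0)) = (A 0, B 0)
      rw [p1, p2]
    · show (π (b 1), π (a 1)) = (A 1, B 1)
      rw [← e1, ← f1, p2, p3]
    · show (π (b 2), π (a 2)) = (A 2, B 2)
      rw [← e2, e3, p3, p1, ← f2, f3]
  · -- both anticyclic
    obtain ⟨π, p1, p2, p3⟩ := ext3 (a 0) (b 0) (a 1) (A 0) (B 0) (A 1) (hab 0)
      (by rw [← e3, e2]; exact hab 2) (by rw [e1]; exact (hab 1).symm) (hAB 0)
      (by rw [← f3, f2]; exact hAB 2) (by rw [f1]; exact (hAB 1).symm)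
    refine ⟨π, true, fun j => ?_⟩
    rw [if_pos rfl]
    fin_cases j
    · show (π (a 0), π (b 0)) = (A 0, B 0)
      rw [p1, p2]
    · show (π (a 1), π (b 1)) = (A 1, B 1)
      rw [← e1, ← f1, p1, p3]
    · show (π (a 2), π (b 2)) = (A 2, B 2)
      rw [← e2, ← f2, e3, f3, p2, p3]

/-- the source of an edge of the Petersen graph -/
def psrc : Fin 15 → Fin 10 := ![0, 1, 2, 3, 4, 0, 1, 2, 3, 4, 5, 6, 7, 8, 9]

/-- an orientable cycle double cover of the Petersen graph -/
def pP : Fin 15 → Fin 5 := ![0, 0, 0, 0, 0, 1, 2, 3, 4, 2, 1, 2, 1, 2, 1]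

/-- an orientable cycle double cover of the Petersen graph -/
def pQ : Fin 15 → Fin 5 := ![1, 2, 3, 4, 2, 2, 1, 2, 3, 4, 3, 4, 2, 3, 4]

/-- the value of the edge `pe k j`, oriented away from `k`: positive part -/
def oA (k : Fin 10) (j : Fin 3) : Fin 5 := if psrc (pe k j) = k then pP (pe k j) else pQ (pe k j)

/-- the value of the edge `pe k j`, oriented away from `k`: negative part -/
def oB (k : Fin 10) (j : Fin 3) : Fin 5 := if psrc (pe k j) = k then pQ (pe k j) else pP (pe k j)

theorem oAB : ∀ k j, oA k j ≠ oB k j := by decide +kernel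

theorem o_sum : ∀ k i, dv5 (oA k 0) (oB k 0) i + dv5 (oA k 1) (oB k 1) i +
    dv5 (oA k 2) (oB k 2) i = 0 := by decide +kernel

theorem o_swap : ∀ (k : Fin 10) (j : Fin 3) (l : Fin 10) (j' : Fin 3), nb k j = l → nb l j' = k →
    oA l j' = oB k j ∧ oB l j' = oA k j := by decide +kernel

variable {V E : Type} [Fintype V] [DecidableEq V] [Fintype E] [DecidableEq E]

/-- the quotient graph for one class of a Petersen quotient -/
theorem classGraph (hx : St_circEx) (s t : E → V) (m : ℕ) (C : Fin m → Finset E)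
    (h1 : ∀ i, BrM s t ((univ.filter (fun j => j < i)).biUnion C)
      (C i \ (univ.filter (fun j => j < i)).biUnion C))
    (h2 : ∀ i, (C i \ (univ.filter (fun j => j < i)).biUnion C).card ≤ 4)
    (hb : TH362.TF.N1 s t univ) (r : V → V)
    (q1 : ∀ e ∈ univ.biUnion C, r (s e) = r (t e))
    (q3 : ∀ Y : Finset V, Disjoint (crs s t Y) (univ.biUnion C) →
      ∀ x y, r x = r y → (x ∈ Y ↔ y ∈ Y))
    (ho : (TH362.TF.odd (r ∘ s) (r ∘ t) univ).card ≤ 16) (κ : V → Fin 10)
    (hκ : TH362.TF.IsPQ (r ∘ s) (r ∘ t) univ κ) (k : Fin 10) :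
    ∃ ρ : V → V, (∀ v, κ (r v) = k → ∀ u, ρ u = v ↔ u = v) ∧ FlA (ρ ∘ s) (ρ ∘ t) ∅ := by
  classical
  obtain ⟨v0, hv0⟩ : ∃ v, κ (r v) ≠ k := by
    obtain ⟨e, _, he⟩ := hκ.2 k (nb k 0) (TH362.TF.Contr.padj_nb k 0)
    have hne := TH362.TF.Contr.nb_ne k 0
    rcases he with ⟨a, b⟩ | ⟨a, b⟩
    · exact ⟨t e, fun h => hne (b.symm.trans h)⟩
    · exact ⟨s e, fun h => hne (a.symm.trans h)⟩
  set ρ : V → V := fun v => if κ (r v) = k then v else v0 with hρ
  have ρin : ∀ v, κ (r v) = k → ρ v = v := fun v h => by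
    simp only [hρ]
    rw [if_pos h]
  have ρout : ∀ v, κ (r v) ≠ k → ρ v = v0 := fun v h => by
    simp only [hρ]
    rw [if_neg h]
  have hidem : ∀ v, ρ (ρ v) = ρ v := by
    intro v
    by_cases h : κ (r v) = k
    · rw [ρin v h, ρin v h]
    · rw [ρout v h, ρout v0 hv0]
  set F := univ.biUnion C with hF
  have qρ : ∀ e ∈ F, r (ρ (s e)) = r (ρ (t e)) := by
    intro e he
    have h3 := q1 e he
    by_cases h : κ (r (s e)) = k
    · rw [ρin _ h, ρin (t e) (by rw [← h3]; exact h), h3]
    · rw [ρout _ h, ρout (t e) (by rw [← h3]; exact h)]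
  have hcr : ∀ Y : Finset V, crs (ρ ∘ s) (ρ ∘ t) Y =
      crs s t (univ.filter (fun v => ρ v ∈ Y)) := by
    intro Y
    ext e
    rw [mem_crs, mem_crs, mem_filter, mem_filter]
    simp
  obtain ⟨r2, p1, -, p3, p4⟩ := quotC (ρ ∘ s) (ρ ∘ t) F
  have hker : ∀ u v, (r2 ∘ ρ) u = (r2 ∘ ρ) v ↔ (r ∘ ρ) u = (r ∘ ρ) v := by
    intro u v
    constructor
    · intro h
      have hd : Disjoint (crs (ρ ∘ s) (ρ ∘ t) (univ.filter (fun w => r w = r (ρ u)))) F := by
        rw [disjoint_left]
        intro e he heF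
        rw [mem_crs, mem_filter, mem_filter] at he
        apply he
        simp only [Function.comp, mem_univ, true_and]
        rw [qρ e heF]
      have h4 := (p3 _ hd (ρ u) (ρ v) h).1 (mem_filter.mpr ⟨mem_univ _, rfl⟩)
      exact (mem_filter.mp h4).2.symm
    · intro h
      have hd : Disjoint (crs s t (univ.filter (fun w => r2 (ρ w) = r2 (ρ u)))) F := by
        rw [disjoint_left]
        intro e he heF
        rw [mem_crs, mem_filter, mem_filter] at he
        apply he
        simp only [mem_univ, true_and]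
        have h5 : r2 (ρ (s e)) = r2 (ρ (t e)) := p1 e heF
        rw [h5]
      have h4 := (q3 _ hd (ρ u) (ρ v) h).1 (mem_filter.mpr ⟨mem_univ _, by rw [hidem]⟩)
      have h5 := (mem_filter.mp h4).2
      rw [hidem] at h5
      exact h5.symm
  have hodd8 : (TH362.TF.odd ((r2 ∘ ρ) ∘ s) ((r2 ∘ ρ) ∘ t) univ).card ≤ 8 := by
    refine (odd_ker s t (r2 ∘ ρ) (r ∘ ρ) hker).trans ?_
    have hsub : TH362.TF.odd ((r ∘ ρ) ∘ s) ((r ∘ ρ) ∘ t) univ ⊆
        insert (r v0) ((TH362.TF.odd (r ∘ s) (r ∘ t) univ).filter (fun w => κ w = k)) := by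
      intro w hw
      rw [TH362.TF.odd_iff_cut] at hw
      rw [mem_insert, mem_filter]
      by_cases hk : κ w = k
      · right
        refine ⟨?_, hk⟩
        rw [TH362.TF.odd_iff_cut, ← hw]
        congr 2
        unfold TH362.TF.cut
        refine filter_congr fun e _ => ?_
        have key : ∀ u, decide (r (ρ u) = w) = decide (r u = w) := by
          intro u
          rw [decide_eq_decide]
          by_cases h : κ (r u) = k
          · rw [ρin u h]
          · rw [ρout u h]
            constructor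
            · intro h5
              rw [h5] at hv0
              exact absurd hk hv0
            · intro h5
              rw [h5] at h
              exact absurd hk h
        have k1 := key (s e)
        have k2 := key (t e)
        show (decide (r (s e) = w) ≠ decide (r (t e) = w)) ↔
          (decide (r (ρ (s e)) = w) ≠ decide (r (ρ (t e)) = w))
        rw [k1, k2]
      · left
        by_contra hne
        have hcut : TH362.TF.cut ((r ∘ ρ) ∘ s) ((r ∘ ρ) ∘ t) univ (fun u => decide (u = w)) =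
            ∅ := by
          unfold TH362.TF.cut
          rw [filter_eq_empty_iff]
          intro e _ h
          have key : ∀ u, decide (r (ρ u) = w) = false := by
            intro u
            rw [decide_eq_false_iff_not]
            intro h5
            by_cases h6 : κ (r u) = k
            · rw [ρin u h6] at h5
              exact hk (h5 ▸ h6)
            · rw [ρout u h6] at h5
              exact hne h5.symm
          exact h ((key (s e)).trans (key (t e)).symm)
        rw [hcut] at hw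
        simp at hw
    have hc1 := card_le_card hsub
    have hc2 := card_insert_le (r v0)
      ((TH362.TF.odd (r ∘ s) (r ∘ t) univ).filter (fun w => κ w = k))
    have hc3 := TH362.TF.card_classes (TH362.TF.odd (r ∘ s) (r ∘ t) univ) κ
    have hc4 : ∑ k' ∈ univ.erase k, 1 ≤ ∑ k' ∈ univ.erase k,
        ((TH362.TF.odd (r ∘ s) (r ∘ t) univ).filter (fun w => κ w = k')).card :=
      sum_le_sum fun k' _ => TH362.TF.pq_odd_pos hκ k'
    have hc5 := add_sum_erase univ
      (fun k' => ((TH362.TF.odd (r ∘ s) (r ∘ t) univ).filter (fun w => κ w = k')).card)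
      (mem_univ k)
    have hc6 : (univ.erase k : Finset (Fin 10)).card = 9 := by
      rw [card_erase_of_mem (mem_univ _), card_univ, Fintype.card_fin]
    rw [sum_const, smul_eq_mul, mul_one, hc6] at hc4
    omega
  have hN : TH362.TF.N1 ((r2 ∘ ρ) ∘ s) ((r2 ∘ ρ) ∘ t) univ := fun x => hb (x ∘ r2 ∘ ρ)
  rcases TH362.TF.main16 ((r2 ∘ ρ) ∘ s) ((r2 ∘ ρ) ∘ t) univ hN (by omega) with h | h
  swap
  · have := TH362.TF.pq_card h
    omega
  have hA : FlA (ρ ∘ s) (ρ ∘ t) F := flA_of_nz (ρ ∘ s) (ρ ∘ t) F r2 p4 h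
  have h1' : ∀ i, BrM (ρ ∘ s) (ρ ∘ t) ((univ.filter (fun j => j < i)).biUnion C)
      (C i \ (univ.filter (fun j => j < i)).biUnion C) := by
    intro i Y hY
    rw [hcr] at hY ⊢
    exact h1 i _ hY
  have hv : ∀ v, κ (r v) = k → ∀ u, ρ u = v ↔ u = v := by
    intro v hv u
    by_cases h : κ (r u) = k
    · rw [ρin u h]
    · rw [ρout u h]
      constructor
      · intro h5
        rw [← h5] at hv
        exact absurd hv hv0
      · intro h5
        rw [h5] at h
        exact absurd hv h
  exact ⟨ρ, hv, foldA hx (ρ ∘ s) (ρ ∘ t) m C h1' h2 hA⟩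

theorem even_spt (s t : E → V) (x : E → ZMod 2) (h : ∀ v, bd2 s t x v = 0) (v : V) :
    Even ((⟨s, t⟩ : OrGraph V E).deg (spt x) v) := by
  rw [← ZMod.natCast_eq_zero_iff_even, H23.PS.deg_cast]
  refine Eq.trans ?_ (h v)
  unfold bd2
  refine sum_congr rfl fun e _ => ?_
  have h2 : ∀ a : ZMod 2, a = 0 ∨ a = 1 := by decide
  by_cases he : x e = 0
  · rw [if_neg (fun h => (mem_spt x e).mp h he), he]
    split_ifs <;> simp
  · have h1 : x e = 1 := (h2 (x e)).resolve_left he
    rw [if_pos ((mem_spt x e).mpr he), h1]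

theorem five_of_flA (s t : E → V) (h : FlA s t ∅) : FiveClasses (⟨s, t⟩ : OrGraph V E) := by
  obtain ⟨x, y, h1, h2, h3⟩ := h
  refine H23.PS.fiveClasses_of_cover _ (spt x) (spt y) (even_spt s t x h1) (even_spt s t y h2) ?_
  ext e
  rw [mem_union, mem_spt, mem_spt]
  exact ⟨fun _ => mem_univ e, fun _ => h3 e (notMem_empty _)⟩

/-- Kirchhoff's law for the class `i` at the vertex `v` -/
def Kir (s t : E → V) (p q : E → Fin 5) (i : Fin 5) (v : V) : Prop :=
  ∑ e, dv5 (p e) (q e) i * ((if s e = v then 1 else 0) - (if t e = v then 1 else 0)) = 0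

theorem kir_iff (s t : E → V) (p q : E → Fin 5) (i : Fin 5) (v : V) :
    Kir s t p q i v ↔ ∑ e with s e = v, dv5 (p e) (q e) i = ∑ e with t e = v, dv5 (p e) (q e) i := by
  unfold Kir
  rw [sum_filter, sum_filter, ← sub_eq_zero (a := ∑ e, if s e = v then _ else _),
    ← sum_sub_distrib]
  have : ∀ e, dv5 (p e) (q e) i * ((if s e = v then 1 else 0) - (if t e = v then 1 else 0)) =
      (if s e = v then dv5 (p e) (q e) i else 0) - (if t e = v then dv5 (p e) (q e) i else 0) := by
    intro e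
    split_ifs <;> ring
  rw [sum_congr rfl (fun e _ => this e)]

theorem kir_congr (s t : E → V) (p q p' q' : E → Fin 5) (i : Fin 5) (v : V)
    (h : ∀ e, (s e = v ∨ t e = v) → p e = p' e ∧ q e = q' e) (hk : Kir s t p q i v) :
    Kir s t p' q' i v := by
  unfold Kir at hk ⊢
  refine Eq.trans (sum_congr rfl fun e _ => ?_) hk
  by_cases h1 : s e = v ∨ t e = v
  · rw [(h e h1).1, (h e h1).2]
  · rw [not_or] at h1
    rw [if_neg h1.1, if_neg h1.2]
    ring

theorem dv5_perm (π : Equiv.Perm (Fin 5)) (a b i : Fin 5) :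
    dv5 (π a) (π b) i = dv5 a b (π.symm i) := by
  unfold dv5
  have h1 : ∀ c, (π c = i) = (c = π.symm i) := by
    intro c
    rw [Equiv.eq_symm_apply]
  simp only [h1]

theorem dv5_swap (a b i : Fin 5) : dv5 b a i = - dv5 a b i := by
  unfold dv5
  ring

theorem kir_trans (s t : E → V) (p q : E → Fin 5) (v : V) (hk : ∀ i, Kir s t p q i v)
    (π : Equiv.Perm (Fin 5)) (δ : Bool) (i : Fin 5) :
    Kir s t (fun e => if δ = true then π (p e) else π (q e))
      (fun e => if δ = true then π (q e) else π (p e)) i v := by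
  have h := hk (π.symm i)
  unfold Kir at h ⊢
  cases δ with
  | true =>
    simp only [if_true]
    exact Eq.trans (sum_congr rfl fun e _ => by rw [dv5_perm]) h
  | false =>
    simp only [Bool.false_eq_true, if_false]
    have h2 : ∀ e, dv5 (π (q e)) (π (p e)) i *
        ((if s e = v then 1 else 0) - (if t e = v then 1 else 0)) =
        -(dv5 (p e) (q e) (π.symm i) *
        ((if s e = v then 1 else 0) - (if t e = v then 1 else 0))) := by
      intro e
      rw [dv5_perm, dv5_swap]
      ring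
    rw [sum_congr rfl (fun e _ => h2 e), sum_neg_distrib, h, neg_zero]

/-- the flow over the boundary of a class -/
theorem kir_cut (s t : E → V) (p q : E → Fin 5) (P : V → Prop) [DecidablePred P] (i : Fin 5)
    (hk : ∀ v, P v → Kir s t p q i v) :
    ∑ e, dv5 (p e) (q e) i * ((if P (s e) then 1 else 0) - (if P (t e) then 1 else 0)) = 0 := by
  have h1 : ∑ v ∈ univ.filter (fun v => P v), ∑ e, dv5 (p e) (q e) i *
      ((if s e = v then 1 else 0) - (if t e = v then 1 else 0)) = 0 :=
    sum_eq_zero fun v hv => hk v (mem_filter.mp hv).2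
  rw [sum_comm] at h1
  refine Eq.trans (sum_congr rfl fun e _ => ?_) h1
  rw [← mul_sum, sum_sub_distrib, sum_ite_eq, sum_ite_eq]
  simp only [mem_filter, mem_univ, true_and]

/-- **Orientable five cycle double covers.** -/
theorem five16 (hx : St_circEx) (s t : E → V) (m : ℕ) (C : Fin m → Finset E)
    (h1 : ∀ i, BrM s t ((univ.filter (fun j => j < i)).biUnion C)
      (C i \ (univ.filter (fun j => j < i)).biUnion C))
    (h2 : ∀ i, (C i \ (univ.filter (fun j => j < i)).biUnion C).card ≤ 4)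
    (hb : TH362.TF.N1 s t univ)
    (h16 : ∀ r : V → V, (∀ e ∈ univ.biUnion C, r (s e) = r (t e)) →
      (∀ Y : Finset V, Disjoint (crs s t Y) (univ.biUnion C) →
        ∀ x y, r x = r y → (x ∈ Y ↔ y ∈ Y)) →
      (TH362.TF.odd (r ∘ s) (r ∘ t) univ).card ≤ 16) :
    FiveClasses (⟨s, t⟩ : OrGraph V E) := by
  classical
  obtain ⟨r, q1, -, q3, q4⟩ := quotC s t (univ.biUnion C)
  have hodd := h16 r q1 q3
  rcases TH362.TF.main16 (r ∘ s) (r ∘ t) univ (fun x => hb (x ∘ r)) hodd with h | h
  · exact five_of_flA s t (foldA hx s t m C h1 h2 (flA_of_nz s t _ r q4 h))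
  obtain ⟨κ, hκ⟩ := h
  have hst := fun k => TH362.TF.Contr.struct (r ∘ s) (r ∘ t) κ hκ k
  choose ε w1 w2 using hst
  -- exactly one end of a boundary edge is in the class
  have hone : ∀ k j, (κ (r (s (ε k j))) = k ∧ κ (r (t (ε k j))) = nb k j) ∨
      (κ (r (s (ε k j))) = nb k j ∧ κ (r (t (ε k j))) = k) := fun k j => w1 k j
  have hεinj : ∀ k, Function.Injective (ε k) := by
    intro k i j hij
    have a1 := w1 k i
    have a2 := w1 k j
    rw [hij] at a1
    have h3 := TH362.TF.Contr.nb_ne k i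
    have h4 := TH362.TF.Contr.nb_ne k j
    apply TH362.TF.Contr.nb_inj k
    rcases a1 with ⟨a, b⟩ | ⟨a, b⟩ <;> rcases a2 with ⟨c, d⟩ | ⟨c, d⟩
    · exact b.symm.trans d
    · exact absurd (c.symm.trans a) h4
    · exact absurd (a.symm.trans c) h3
    · exact a.symm.trans c
  have hcl : ∀ k, ∃ p q : E → Fin 5, (∀ e, p e ≠ q e) ∧
      (∀ i v, κ (r v) = k → Kir s t p q i v) ∧
      ∀ j, (κ (r (s (ε k j))) = k → p (ε k j) = oA k j ∧ q (ε k j) = oB k j) ∧
        (κ (r (t (ε k j))) = k → q (ε k j) = oA k j ∧ p (ε k j) = oB k j) := by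
    intro k
    obtain ⟨ρ, hρ, hA⟩ := classGraph hx s t m C h1 h2 hb r q1 q3 hodd κ hκ k
    obtain ⟨p, q, hpq, hf⟩ := five_of_flA (ρ ∘ s) (ρ ∘ t) hA
    have hkir : ∀ i v, κ (r v) = k → Kir s t p q i v := by
      intro i v hv
      have h3 := hf i v
      have h4 : Kir (ρ ∘ s) (ρ ∘ t) p q i v := (kir_iff (ρ ∘ s) (ρ ∘ t) p q i v).2 h3
      unfold Kir at h4 ⊢
      refine Eq.trans (sum_congr rfl fun e _ => ?_) h4
      simp only [Function.comp, hρ v hv]
    -- outward values
    set a : Fin 3 → Fin 5 := fun j => if κ (r (s (ε k j))) = k then p (ε k j) else q (ε k j)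
      with ha
    set b : Fin 3 → Fin 5 := fun j => if κ (r (s (ε k j))) = k then q (ε k j) else p (ε k j)
      with hb'
    have hab : ∀ j, a j ≠ b j := by
      intro j
      simp only [ha, hb']
      split_ifs
      · exact hpq _
      · exact (hpq _).symm
    have hsum : ∀ i, dv5 (a 0) (b 0) i + dv5 (a 1) (b 1) i + dv5 (a 2) (b 2) i = 0 := by
      intro i
      have h5 := kir_cut s t p q (fun v => κ (r v) = k) i (fun v hv => hkir i v hv)
      have h6 : ∑ e, dv5 (p e) (q e) i *
          ((if κ (r (s e)) = k then 1 else 0) - (if κ (r (t e)) = k then 1 else 0)) =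
          ∑ j, dv5 (p (ε k j)) (q (ε k j)) i *
          ((if κ (r (s (ε k j))) = k then 1 else 0) - (if κ (r (t (ε k j))) = k then 1 else 0)) := by
        rw [← sum_image (f := fun e => dv5 (p e) (q e) i *
          ((if κ (r (s e)) = k then 1 else 0) - (if κ (r (t e)) = k then 1 else 0))) (s := univ)
          (g := ε k) (fun i _ j _ h => hεinj k h)]
        symm
        refine sum_subset (subset_univ _) fun e _ he => ?_
        by_cases h7 : κ (r (s e)) = k ↔ κ (r (t e)) = k
        · simp only [h7, sub_self, mul_zero]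
        · obtain ⟨j, hj⟩ := w2 k e h7
          exact absurd (mem_image.mpr ⟨j, mem_univ _, hj.symm⟩) he
      have h8 : ∀ j, dv5 (p (ε k j)) (q (ε k j)) i *
          ((if κ (r (s (ε k j))) = k then 1 else 0) - (if κ (r (t (ε k j))) = k then 1 else 0)) =
          dv5 (a j) (b j) i := by
        intro j
        have hne := TH362.TF.Contr.nb_ne k j
        simp only [ha, hb']
        rcases hone k j with ⟨c1, c2⟩ | ⟨c1, c2⟩
        · rw [if_pos c1, if_neg (fun h => hne (c2.symm.trans h)), if_pos c1, if_pos c1]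
          ring
        · rw [if_neg (fun h => hne (c1.symm.trans h)), if_pos c2,
            if_neg (fun h => hne (c1.symm.trans h)), if_neg (fun h => hne (c1.symm.trans h)),
            dv5_swap]
          ring
      rw [h6, Fin.sum_univ_three, h8, h8, h8] at h5
      exact h5
    obtain ⟨π, δ, hπ⟩ := match3 a b (oA k) (oB k) hab (oAB k) hsum (o_sum k)
    refine ⟨fun e => if δ = true then π (p e) else π (q e),
      fun e => if δ = true then π (q e) else π (p e), fun e => ?_, fun i v hv => ?_,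
      fun j => ?_⟩
    · cases δ with
      | true => simp only [if_true]; exact fun h => hpq e (π.injective h)
      | false =>
        simp only [Bool.false_eq_true, if_false]
        exact fun h => hpq e (π.injective h).symm
    · exact kir_trans s t p q v (fun i => hkir i v hv) π δ i
    · have h9 := hπ j
      have hne := TH362.TF.Contr.nb_ne k j
      constructor
      · intro c1
        have e1 : a j = p (ε k j) := by simp only [ha]; rw [if_pos c1]
        have e2 : b j = q (ε k j) := by simp only [hb']; rw [if_pos c1]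
        rw [e1, e2] at h9
        cases δ with
        | true =>
          simp only [if_true] at h9 ⊢
          exact ⟨congrArg Prod.fst h9, congrArg Prod.snd h9⟩
        | false =>
          simp only [Bool.false_eq_true, if_false] at h9 ⊢
          exact ⟨congrArg Prod.fst h9, congrArg Prod.snd h9⟩
      · intro c2
        have c1 : ¬ κ (r (s (ε k j))) = k := by
          rcases hone k j with ⟨d1, d2⟩ | ⟨d1, d2⟩
          · exact fun _ => hne (d2.symm.trans c2)
          · exact fun h => hne (d1.symm.trans h)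
        have e1 : a j = q (ε k j) := by simp only [ha]; rw [if_neg c1]
        have e2 : b j = p (ε k j) := by simp only [hb']; rw [if_neg c1]
        rw [e1, e2] at h9
        cases δ with
        | true =>
          simp only [if_true] at h9 ⊢
          exact ⟨congrArg Prod.fst h9, congrArg Prod.snd h9⟩
        | false =>
          simp only [Bool.false_eq_true, if_false] at h9 ⊢
          exact ⟨congrArg Prod.fst h9, congrArg Prod.snd h9⟩
  choose p q z1 z2 z3 using hcl
  have hex : ∀ e, ∃ g : Fin 5 × Fin 5, ∀ k, (κ (r (s e)) = k ∨ κ (r (t e)) = k) →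
      p k e = g.1 ∧ q k e = g.2 := by
    intro e
    by_cases hst : κ (r (s e)) = κ (r (t e))
    · refine ⟨(p (κ (r (s e))) e, q (κ (r (s e))) e), fun k hk => ?_⟩
      have hk' : κ (r (s e)) = k := by
        rcases hk with h5 | h5
        · exact h5
        · exact hst.trans h5
      subst hk'
      exact ⟨rfl, rfl⟩
    · obtain ⟨j, hj⟩ := w2 (κ (r (s e))) e (fun h5 => hst (h5.1 rfl).symm)
      obtain ⟨j', hj'⟩ := w2 (κ (r (t e))) e (fun h5 => hst (h5.2 rfl))
      have n1 : nb (κ (r (s e))) j = κ (r (t e)) := by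
        have h5 := w1 (κ (r (s e))) j
        rw [← hj] at h5
        rcases h5 with ⟨a, b⟩ | ⟨a, b⟩
        · exact b.symm
        · exact absurd b.symm hst
      have n2 : nb (κ (r (t e))) j' = κ (r (s e)) := by
        have h5 := w1 (κ (r (t e))) j'
        rw [← hj'] at h5
        rcases h5 with ⟨a, b⟩ | ⟨a, b⟩
        · exact absurd a hst
        · exact a.symm
      have hsw := o_swap _ _ _ _ n1 n2
      have hs := (z3 (κ (r (s e))) j).1
      rw [← hj] at hs
      have hs' := hs rfl
      have ht := (z3 (κ (r (t e))) j').2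
      rw [← hj'] at ht
      have ht' := ht rfl
      refine ⟨(p (κ (r (s e))) e, q (κ (r (s e))) e), fun k hk => ?_⟩
      rcases hk with h5 | h5
      · subst h5
        exact ⟨rfl, rfl⟩
      · subst h5
        refine ⟨?_, ?_⟩
        · show p (κ (r (t e))) e = p (κ (r (s e))) e
          rw [ht'.2, hs'.1, hsw.2]
        · show q (κ (r (t e))) e = q (κ (r (s e))) e
          rw [ht'.1, hs'.2, hsw.1]
  choose g hg using hex
  refine ⟨fun e => (g e).1, fun e => (g e).2, fun e => ?_, fun i v => ?_⟩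
  · have h5 := hg e (κ (r (s e))) (Or.inl rfl)
    show (g e).1 ≠ (g e).2
    rw [← h5.1, ← h5.2]
    exact z1 _ e
  · have h5 : Kir s t (fun e => (g e).1) (fun e => (g e).2) i v := by
      refine kir_congr s t (p (κ (r v))) (q (κ (r v))) _ _ i v (fun e he => ?_)
        (z2 (κ (r v)) i v rfl)
      refine hg e (κ (r v)) ?_
      rcases he with h6 | h6
      · exact Or.inl (by rw [h6])
      · exact Or.inr (by rw [h6])
    exact (kir_iff s t _ _ i v).1 h5

end Pool.Agent.R926.SC
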