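import Pool.Agent.R926.SC.Orient
import Pool.Agent.R926.SC.PetMix

set_option autoImplicit false
set_option linter.unusedSectionVars false

/-! # Orientable cycle double covers with five classes: few odd components of a chain -/

namespace Pool.Agent.R926.SC

open Finset Pool.Agent.TH676.Z Pool.Agent.Y335.FL
open Pool.Agent.TH362.TF (nb)
open Pool.Agent.H160R2.HF (OrGraph)
open Pool.Agent.H23.PS (FiveClasses)

variable {V E : Type} [Fintype V] [DecidableEq V] [Fintype E] [DecidableEq E]

/-- the quotient graph for one class of a Petersen quotient -/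
theorem classGraphM (hx : St_circEx) (s t : E → V) (m : ℕ) (C : Fin m → Finset E)
    (h1 : ∀ i, St s t ((univ.filter (fun j => j < i)).biUnion C)
      (C i \ (univ.filter (fun j => j < i)).biUnion C))
    (hb : TH362.TF.N1 s t univ) (r : V → V)
    (q1 : ∀ e ∈ univ.biUnion C, r (s e) = r (t e))
    (q3 : ∀ Y : Finset V, Disjoint (crs s t Y) (univ.biUnion C) →
      ∀ x y, r x = r y → (x ∈ Y ↔ y ∈ Y))
    (ho : (TH362.TF.odd (r ∘ s) (r ∘ t) univ).card ≤ 16) (κ : V → Fin 10)
    (hκ : TH362.TF.IsPQ (r ∘ s) (r ∘ t) univ κ) (k : Fin 10) :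
    ∃ ρ : V → V, (∀ v, κ (r v) = k → ∀ u, ρ u = v ↔ u = v) ∧ FlA (ρ ∘ s) (ρ ∘ t) ∅ := by
  classical
  obtain ⟨v0, hv0⟩ : ∃ v, κ (r v) ≠ k := by
    obtain ⟨e, _, he⟩ := hκ.2 k (nb k 0) (TH362.TF.Contr.padj_nb k 0)
    have hne := TH362.TF.Contr.nb_ne k 0
    rcases he with ⟨a, b⟩ | ⟨a, b⟩
    · exact ⟨t e, fun h => hne (b.symm.trans h)⟩
    · exact ⟨s e, fun h => hne (a.symm.trans h)⟩
  set ρ : V → V := fun v => if κ (r v) = k then v else v0 with hρ
  have ρin : ∀ v, κ (r v) = k → ρ v = v := fun v h => by
    simp only [hρ]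
    rw [if_pos h]
  have ρout : ∀ v, κ (r v) ≠ k → ρ v = v0 := fun v h => by
    simp only [hρ]
    rw [if_neg h]
  have hidem : ∀ v, ρ (ρ v) = ρ v := by
    intro v
    by_cases h : κ (r v) = k
    · rw [ρin v h, ρin v h]
    · rw [ρout v h, ρout v0 hv0]
  set F := univ.biUnion C with hF
  have qρ : ∀ e ∈ F, r (ρ (s e)) = r (ρ (t e)) := by
    intro e he
    have h3 := q1 e he
    by_cases h : κ (r (s e)) = k
    · rw [ρin _ h, ρin (t e) (by rw [← h3]; exact h), h3]
    · rw [ρout _ h, ρout (t e) (by rw [← h3]; exact h)]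
  have hcr : ∀ Y : Finset V, crs (ρ ∘ s) (ρ ∘ t) Y =
      crs s t (univ.filter (fun v => ρ v ∈ Y)) := by
    intro Y
    ext e
    rw [mem_crs, mem_crs, mem_filter, mem_filter]
    simp
  obtain ⟨r2, p1, -, p3, p4⟩ := quotC (ρ ∘ s) (ρ ∘ t) F
  have hker : ∀ u v, (r2 ∘ ρ) u = (r2 ∘ ρ) v ↔ (r ∘ ρ) u = (r ∘ ρ) v := by
    intro u v
    constructor
    · intro h
      have hd : Disjoint (crs (ρ ∘ s) (ρ ∘ t) (univ.filter (fun w => r w = r (ρ u)))) F := by
        rw [disjoint_left]
        intro e he heF
        rw [mem_crs, mem_filter, mem_filter] at he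
        apply he
        simp only [Function.comp, mem_univ, true_and]
        rw [qρ e heF]
      have h4 := (p3 _ hd (ρ u) (ρ v) h).1 (mem_filter.mpr ⟨mem_univ _, rfl⟩)
      exact (mem_filter.mp h4).2.symm
    · intro h
      have hd : Disjoint (crs s t (univ.filter (fun w => r2 (ρ w) = r2 (ρ u)))) F := by
        rw [disjoint_left]
        intro e he heF
        rw [mem_crs, mem_filter, mem_filter] at he
        apply he
        simp only [mem_univ, true_and]
        have h5 : r2 (ρ (s e)) = r2 (ρ (t e)) := p1 e heF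
        rw [h5]
      have h4 := (q3 _ hd (ρ u) (ρ v) h).1 (mem_filter.mpr ⟨mem_univ _, by rw [hidem]⟩)
      have h5 := (mem_filter.mp h4).2
      rw [hidem] at h5
      exact h5.symm
  have hodd8 : (TH362.TF.odd ((r2 ∘ ρ) ∘ s) ((r2 ∘ ρ) ∘ t) univ).card ≤ 8 := by
    refine (odd_ker s t (r2 ∘ ρ) (r ∘ ρ) hker).trans ?_
    have hsub : TH362.TF.odd ((r ∘ ρ) ∘ s) ((r ∘ ρ) ∘ t) univ ⊆
        insert (r v0) ((TH362.TF.odd (r ∘ s) (r ∘ t) univ).filter (fun w => κ w = k)) := by
      intro w hw
      rw [TH362.TF.odd_iff_cut] at hw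
      rw [mem_insert, mem_filter]
      by_cases hk : κ w = k
      · right
        refine ⟨?_, hk⟩
        rw [TH362.TF.odd_iff_cut, ← hw]
        congr 2
        unfold TH362.TF.cut
        refine filter_congr fun e _ => ?_
        have key : ∀ u, decide (r (ρ u) = w) = decide (r u = w) := by
          intro u
          rw [decide_eq_decide]
          by_cases h : κ (r u) = k
          · rw [ρin u h]
          · rw [ρout u h]
            constructor
            · intro h5
              rw [h5] at hv0
              exact absurd hk hv0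
            · intro h5
              rw [h5] at h
              exact absurd hk h
        have k1 := key (s e)
        have k2 := key (t e)
        show (decide (r (s e) = w) ≠ decide (r (t e) = w)) ↔
          (decide (r (ρ (s e)) = w) ≠ decide (r (ρ (t e)) = w))
        rw [k1, k2]
      · left
        by_contra hne
        have hcut : TH362.TF.cut ((r ∘ ρ) ∘ s) ((r ∘ ρ) ∘ t) univ (fun u => decide (u = w)) =
            ∅ := by
          unfold TH362.TF.cut
          rw [filter_eq_empty_iff]
          intro e _ h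
          have key : ∀ u, decide (r (ρ u) = w) = false := by
            intro u
            rw [decide_eq_false_iff_not]
            intro h5
            by_cases h6 : κ (r u) = k
            · rw [ρin u h6] at h5
              exact hk (h5 ▸ h6)
            · rw [ρout u h6] at h5
              exact hne h5.symm
          exact h ((key (s e)).trans (key (t e)).symm)
        rw [hcut] at hw
        simp at hw
    have hc1 := card_le_card hsub
    have hc2 := card_insert_le (r v0)
      ((TH362.TF.odd (r ∘ s) (r ∘ t) univ).filter (fun w => κ w = k))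
    have hc3 := TH362.TF.card_classes (TH362.TF.odd (r ∘ s) (r ∘ t) univ) κ
    have hc4 : ∑ k' ∈ univ.erase k, 1 ≤ ∑ k' ∈ univ.erase k,
        ((TH362.TF.odd (r ∘ s) (r ∘ t) univ).filter (fun w => κ w = k')).card :=
      sum_le_sum fun k' _ => TH362.TF.pq_odd_pos hκ k'
    have hc5 := add_sum_erase univ
      (fun k' => ((TH362.TF.odd (r ∘ s) (r ∘ t) univ).filter (fun w => κ w = k')).card)
      (mem_univ k)
    have hc6 : (univ.erase k : Finset (Fin 10)).card = 9 := by
      rw [card_erase_of_mem (mem_univ _), card_univ, Fintype.card_fin]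
    rw [sum_const, smul_eq_mul, mul_one, hc6] at hc4
    omega
  have hN : TH362.TF.N1 ((r2 ∘ ρ) ∘ s) ((r2 ∘ ρ) ∘ t) univ := fun x => hb (x ∘ r2 ∘ ρ)
  rcases TH362.TF.main16 ((r2 ∘ ρ) ∘ s) ((r2 ∘ ρ) ∘ t) univ hN (by omega) with h | h
  swap
  · have := TH362.TF.pq_card h
    omega
  have hA : FlA (ρ ∘ s) (ρ ∘ t) F := flA_of_nz (ρ ∘ s) (ρ ∘ t) F r2 p4 h
  have h1' : ∀ i, St (ρ ∘ s) (ρ ∘ t) ((univ.filter (fun j => j < i)).biUnion C)
      (C i \ (univ.filter (fun j => j < i)).biUnion C) :=
    fun i => st_map s t ρ _ _ (h1 i)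
  have hv : ∀ v, κ (r v) = k → ∀ u, ρ u = v ↔ u = v := by
    intro v hv u
    by_cases h : κ (r u) = k
    · rw [ρin u h]
    · rw [ρout u h]
      constructor
      · intro h5
        rw [← h5] at hv
        exact absurd hv hv0
      · intro h5
        rw [h5] at h
        exact absurd hv h
  exact ⟨ρ, hv, foldM hx (ρ ∘ s) (ρ ∘ t) m C h1' hA⟩

/-- **Orientable five cycle double covers.** -/
theorem five16M (hx : St_circEx) (s t : E → V) (m : ℕ) (C : Fin m → Finset E)
    (h1 : ∀ i, St s t ((univ.filter (fun j => j < i)).biUnion C)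
      (C i \ (univ.filter (fun j => j < i)).biUnion C))
    (hb : TH362.TF.N1 s t univ)
    (h16 : ∀ r : V → V, (∀ e ∈ univ.biUnion C, r (s e) = r (t e)) →
      (∀ Y : Finset V, Disjoint (crs s t Y) (univ.biUnion C) →
        ∀ x y, r x = r y → (x ∈ Y ↔ y ∈ Y)) →
      (TH362.TF.odd (r ∘ s) (r ∘ t) univ).card ≤ 16) :
    FiveClasses (⟨s, t⟩ : OrGraph V E) := by
  classical
  obtain ⟨r, q1, -, q3, q4⟩ := quotC s t (univ.biUnion C)
  have hodd := h16 r q1 q3
  rcases TH362.TF.main16 (r ∘ s) (r ∘ t) univ (fun x => hb (x ∘ r)) hodd with h | h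
  · exact five_of_flA s t (foldM hx s t m C h1 (flA_of_nz s t _ r q4 h))
  obtain ⟨κ, hκ⟩ := h
  have hst := fun k => TH362.TF.Contr.struct (r ∘ s) (r ∘ t) κ hκ k
  choose ε w1 w2 using hst
  -- exactly one end of a boundary edge is in the class
  have hone : ∀ k j, (κ (r (s (ε k j))) = k ∧ κ (r (t (ε k j))) = nb k j) ∨
      (κ (r (s (ε k j))) = nb k j ∧ κ (r (t (ε k j))) = k) := fun k j => w1 k j
  have hεinj : ∀ k, Function.Injective (ε k) := by
    intro k i j hij
    have a1 := w1 k i
    have a2 := w1 k j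
    rw [hij] at a1
    have h3 := TH362.TF.Contr.nb_ne k i
    have h4 := TH362.TF.Contr.nb_ne k j
    apply TH362.TF.Contr.nb_inj k
    rcases a1 with ⟨a, b⟩ | ⟨a, b⟩ <;> rcases a2 with ⟨c, d⟩ | ⟨c, d⟩
    · exact b.symm.trans d
    · exact absurd (c.symm.trans a) h4
    · exact absurd (a.symm.trans c) h3
    · exact a.symm.trans c
  have hcl : ∀ k, ∃ p q : E → Fin 5, (∀ e, p e ≠ q e) ∧
      (∀ i v, κ (r v) = k → Kir s t p q i v) ∧
      ∀ j, (κ (r (s (ε k j))) = k → p (ε k j) = oA k j ∧ q (ε k j) = oB k j) ∧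
        (κ (r (t (ε k j))) = k → q (ε k j) = oA k j ∧ p (ε k j) = oB k j) := by
    intro k
    obtain ⟨ρ, hρ, hA⟩ := classGraphM hx s t m C h1 hb r q1 q3 hodd κ hκ k
    obtain ⟨p, q, hpq, hf⟩ := five_of_flA (ρ ∘ s) (ρ ∘ t) hA
    have hkir : ∀ i v, κ (r v) = k → Kir s t p q i v := by
      intro i v hv
      have h3 := hf i v
      have h4 : Kir (ρ ∘ s) (ρ ∘ t) p q i v := (kir_iff (ρ ∘ s) (ρ ∘ t) p q i v).2 h3
      unfold Kir at h4 ⊢
      refine Eq.trans (sum_congr rfl fun e _ => ?_) h4
      simp only [Function.comp, hρ v hv]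
    -- outward values
    set a : Fin 3 → Fin 5 := fun j => if κ (r (s (ε k j))) = k then p (ε k j) else q (ε k j)
      with ha
    set b : Fin 3 → Fin 5 := fun j => if κ (r (s (ε k j))) = k then q (ε k j) else p (ε k j)
      with hb'
    have hab : ∀ j, a j ≠ b j := by
      intro j
      simp only [ha, hb']
      split_ifs
      · exact hpq _
      · exact (hpq _).symm
    have hsum : ∀ i, dv5 (a 0) (b 0) i + dv5 (a 1) (b 1) i + dv5 (a 2) (b 2) i = 0 := by
      intro i
      have h5 := kir_cut s t p q (fun v => κ (r v) = k) i (fun v hv => hkir i v hv)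
      have h6 : ∑ e, dv5 (p e) (q e) i *
          ((if κ (r (s e)) = k then 1 else 0) - (if κ (r (t e)) = k then 1 else 0)) =
          ∑ j, dv5 (p (ε k j)) (q (ε k j)) i *
          ((if κ (r (s (ε k j))) = k then 1 else 0) - (if κ (r (t (ε k j))) = k then 1 else 0)) := by
        rw [← sum_image (f := fun e => dv5 (p e) (q e) i *
          ((if κ (r (s e)) = k then 1 else 0) - (if κ (r (t e)) = k then 1 else 0))) (s := univ)
          (g := ε k) (fun i _ j _ h => hεinj k h)]
        symm
        refine sum_subset (subset_univ _) fun e _ he => ?_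
        by_cases h7 : κ (r (s e)) = k ↔ κ (r (t e)) = k
        · simp only [h7, sub_self, mul_zero]
        · obtain ⟨j, hj⟩ := w2 k e h7
          exact absurd (mem_image.mpr ⟨j, mem_univ _, hj.symm⟩) he
      have h8 : ∀ j, dv5 (p (ε k j)) (q (ε k j)) i *
          ((if κ (r (s (ε k j))) = k then 1 else 0) - (if κ (r (t (ε k j))) = k then 1 else 0)) =
          dv5 (a j) (b j) i := by
        intro j
        have hne := TH362.TF.Contr.nb_ne k j
        simp only [ha, hb']
        rcases hone k j with ⟨c1, c2⟩ | ⟨c1, c2⟩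
        · rw [if_pos c1, if_neg (fun h => hne (c2.symm.trans h)), if_pos c1, if_pos c1]
          ring
        · rw [if_neg (fun h => hne (c1.symm.trans h)), if_pos c2,
            if_neg (fun h => hne (c1.symm.trans h)), if_neg (fun h => hne (c1.symm.trans h)),
            dv5_swap]
          ring
      rw [h6, Fin.sum_univ_three, h8, h8, h8] at h5
      exact h5
    obtain ⟨π, δ, hπ⟩ := match3 a b (oA k) (oB k) hab (oAB k) hsum (o_sum k)
    refine ⟨fun e => if δ = true then π (p e) else π (q e),
      fun e => if δ = true then π (q e) else π (p e), fun e => ?_, fun i v hv => ?_,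
      fun j => ?_⟩
    · cases δ with
      | true => simp only [if_true]; exact fun h => hpq e (π.injective h)
      | false =>
        simp only [Bool.false_eq_true, if_false]
        exact fun h => hpq e (π.injective h).symm
    · exact kir_trans s t p q v (fun i => hkir i v hv) π δ i
    · have h9 := hπ j
      have hne := TH362.TF.Contr.nb_ne k j
      constructor
      · intro c1
        have e1 : a j = p (ε k j) := by simp only [ha]; rw [if_pos c1]
        have e2 : b j = q (ε k j) := by simp only [hb']; rw [if_pos c1]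
        rw [e1, e2] at h9
        cases δ with
        | true =>
          simp only [if_true] at h9 ⊢
          exact ⟨congrArg Prod.fst h9, congrArg Prod.snd h9⟩
        | false =>
          simp only [Bool.false_eq_true, if_false] at h9 ⊢
          exact ⟨congrArg Prod.fst h9, congrArg Prod.snd h9⟩
      · intro c2
        have c1 : ¬ κ (r (s (ε k j))) = k := by
          rcases hone k j with ⟨d1, d2⟩ | ⟨d1, d2⟩
          · exact fun _ => hne (d2.symm.trans c2)
          · exact fun h => hne (d1.symm.trans h)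
        have e1 : a j = q (ε k j) := by simp only [ha]; rw [if_neg c1]
        have e2 : b j = p (ε k j) := by simp only [hb']; rw [if_neg c1]
        rw [e1, e2] at h9
        cases δ with
        | true =>
          simp only [if_true] at h9 ⊢
          exact ⟨congrArg Prod.fst h9, congrArg Prod.snd h9⟩
        | false =>
          simp only [Bool.false_eq_true, if_false] at h9 ⊢
          exact ⟨congrArg Prod.fst h9, congrArg Prod.snd h9⟩
  choose p q z1 z2 z3 using hcl
  have hex : ∀ e, ∃ g : Fin 5 × Fin 5, ∀ k, (κ (r (s e)) = k ∨ κ (r (t e)) = k) →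
      p k e = g.1 ∧ q k e = g.2 := by
    intro e
    by_cases hst : κ (r (s e)) = κ (r (t e))
    · refine ⟨(p (κ (r (s e))) e, q (κ (r (s e))) e), fun k hk => ?_⟩
      have hk' : κ (r (s e)) = k := by
        rcases hk with h5 | h5
        · exact h5
        · exact hst.trans h5
      subst hk'
      exact ⟨rfl, rfl⟩
    · obtain ⟨j, hj⟩ := w2 (κ (r (s e))) e (fun h5 => hst (h5.1 rfl).symm)
      obtain ⟨j', hj'⟩ := w2 (κ (r (t e))) e (fun h5 => hst (h5.2 rfl))
      have n1 : nb (κ (r (s e))) j = κ (r (t e)) := by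
        have h5 := w1 (κ (r (s e))) j
        rw [← hj] at h5
        rcases h5 with ⟨a, b⟩ | ⟨a, b⟩
        · exact b.symm
        · exact absurd b.symm hst
      have n2 : nb (κ (r (t e))) j' = κ (r (s e)) := by
        have h5 := w1 (κ (r (t e))) j'
        rw [← hj'] at h5
        rcases h5 with ⟨a, b⟩ | ⟨a, b⟩
        · exact absurd a hst
        · exact a.symm
      have hsw := o_swap _ _ _ _ n1 n2
      have hs := (z3 (κ (r (s e))) j).1
      rw [← hj] at hs
      have hs' := hs rfl
      have ht := (z3 (κ (r (t e))) j').2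
      rw [← hj'] at ht
      have ht' := ht rfl
      refine ⟨(p (κ (r (s e))) e, q (κ (r (s e))) e), fun k hk => ?_⟩
      rcases hk with h5 | h5
      · subst h5
        exact ⟨rfl, rfl⟩
      · subst h5
        refine ⟨?_, ?_⟩
        · show p (κ (r (t e))) e = p (κ (r (s e))) e
          rw [ht'.2, hs'.1, hsw.2]
        · show q (κ (r (t e))) e = q (κ (r (s e))) e
          rw [ht'.1, hs'.2, hsw.1]
  choose g hg using hex
  refine ⟨fun e => (g e).1, fun e => (g e).2, fun e => ?_, fun i v => ?_⟩
  · have h5 := hg e (κ (r (s e))) (Or.inl rfl)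
    show (g e).1 ≠ (g e).2
    rw [← h5.1, ← h5.2]
    exact z1 _ e
  · have h5 : Kir s t (fun e => (g e).1) (fun e => (g e).2) i v := by
      refine kir_congr s t (p (κ (r v))) (q (κ (r v))) _ _ i v (fun e he => ?_)
        (z2 (κ (r v)) i v rfl)
      refine hg e (κ (r v)) ?_
      rcases he with h6 | h6
      · exact Or.inl (by rw [h6])
      · exact Or.inr (by rw [h6])
    exact (kir_iff s t _ _ i v).1 h5

end Pool.Agent.R926.SC
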