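import Pool.Agent.R926.SC.PetFinMix

set_option autoImplicit false
set_option linter.unusedSectionVars false

/-! # Consequences of maps to the Petersen graph for chains of short ears

The lemmas on six cycles which cover every edge four times are those of the starting files
`TH455/TFA/Six.lean`, `TH455/TFA/Cov.lean`, `TH455/TFA/BF.lean`, `TH455/TFA/RG.lean`. -/

namespace Pool.Agent.R926.SC.Cor

open Finset Pool.Agent.R926.SC Pool.Agent.TH676.Z Pool.Agent.Y335.FL

/-- all degrees are even, where a loop counts twice -/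
def Cyc {V E : Type} [DecidableEq V] (src dst : E → V) (C : Finset E) : Prop :=
  ∀ v, Even (∑ e ∈ C, ((if src e = v then 1 else 0) + (if dst e = v then 1 else 0)))

/-- six cycles cover every edge exactly four times -/
def Six {V E : Type} [DecidableEq V] [DecidableEq E] (src dst : E → V) : Prop :=
  ∃ C : Fin 6 → Finset E, (∀ i, Cyc src dst (C i)) ∧
    ∀ e, (univ.filter (fun i => e ∈ C i)).card = 4

variable {V E : Type} [Fintype V] [DecidableEq V] [Fintype E] [DecidableEq E]

/-- any three of the six cycles cover all edges -/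
theorem three_cover {C : Fin 6 → Finset E} (h : ∀ e, (univ.filter (fun i => e ∈ C i)).card = 4)
    {i j k : Fin 6} (hij : i ≠ j) (hik : i ≠ k) (hjk : j ≠ k) (e : E) :
    e ∈ C i ∨ e ∈ C j ∨ e ∈ C k := by
  by_contra hcon
  push Not at hcon
  obtain ⟨h1, h2, h3⟩ := hcon
  have h4 : univ.filter (fun i => e ∈ C i) ⊆ (univ : Finset (Fin 6)) \ {i, j, k} := by
    intro x hx
    rw [mem_filter] at hx
    rw [mem_sdiff, mem_insert, mem_insert, mem_singleton]
    refine ⟨mem_univ _, ?_⟩
    rintro (rfl | rfl | rfl)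
    · exact h1 hx.2
    · exact h2 hx.2
    · exact h3 hx.2
  have h5 := card_le_card h4
  rw [h, card_sdiff_of_subset (subset_univ _), card_univ, Fintype.card_fin,
    card_insert_of_notMem (by simp [hij, hik]), card_pair hjk] at h5
  omega

/-- the total length -/
theorem total {C : Fin 6 → Finset E} (h : ∀ e, (univ.filter (fun i => e ∈ C i)).card = 4) :
    ∑ i, (C i).card = 4 * Fintype.card E := by
  have h1 : ∀ i, (C i).card = ∑ e, if e ∈ C i then 1 else 0 := by
    intro i
    rw [sum_ite_mem, univ_inter, sum_const, smul_eq_mul, mul_one]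
  rw [sum_congr rfl fun i _ => h1 i, sum_comm]
  have h2 : ∀ e, (∑ i, if e ∈ C i then 1 else 0) = 4 := by
    intro e
    rw [← h e, card_filter]
  rw [sum_congr rfl fun e _ => h2 e, sum_const, card_univ, smul_eq_mul, mul_comm]

/-- three of the six cycles have total length at least twice the number of edges -/
theorem two_m {src dst : E → V} (h : Six src dst) :
    ∃ C₁ C₂ C₃ : Finset E, Cyc src dst C₁ ∧ Cyc src dst C₂ ∧ Cyc src dst C₃ ∧
      C₁ ∪ C₂ ∪ C₃ = univ ∧ 2 * Fintype.card E ≤ C₁.card + C₂.card + C₃.card := by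
  obtain ⟨C, hC, h4⟩ := h
  have ht := total h4
  rw [Fin.sum_univ_six] at ht
  have hu : ∀ i j k : Fin 6, i ≠ j → i ≠ k → j ≠ k → C i ∪ C j ∪ C k = univ := by
    intro i j k hij hik hjk
    ext e
    simp only [mem_union, mem_univ, iff_true]
    rcases three_cover h4 hij hik hjk e with h | h | h
    · exact Or.inl (Or.inl h)
    · exact Or.inl (Or.inr h)
    · exact Or.inr h
  by_cases hc : 2 * Fintype.card E ≤ (C 0).card + (C 1).card + (C 2).card
  · exact ⟨C 0, C 1, C 2, hC _, hC _, hC _, hu 0 1 2 (by decide) (by decide) (by decide), hc⟩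
  · refine ⟨C 3, C 4, C 5, hC _, hC _, hC _, hu 3 4 5 (by decide) (by decide) (by decide), ?_⟩
    omega

theorem six_two (s : Fin 6 → ℕ) (h : ∀ j, s j ≤ 2)
    (hs : s 0 + s 1 + s 2 + s 3 + s 4 + s 5 = 12) (i : Fin 6) : s i = 2 := by
  have a0 := h 0
  have a1 := h 1
  have a2 := h 2
  have a3 := h 3
  have a4 := h 4
  have a5 := h 5
  match i with
  | 0 => omega
  | 1 => omega
  | 2 => omega
  | 3 => omega
  | 4 => omega
  | 5 => omega

/-- in a cubic graph the six cycles are 2-factors -/
theorem factor {src dst : E → V} {C : Fin 6 → Finset E} (hC : ∀ i, Cyc src dst (C i))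
    (h4 : ∀ e, (univ.filter (fun i => e ∈ C i)).card = 4) (v : V)
    (h3 : ∑ e, ((if src e = v then 1 else 0) + (if dst e = v then 1 else 0)) = 3) (i : Fin 6) :
    ∑ e ∈ C i, ((if src e = v then 1 else 0) + (if dst e = v then 1 else 0)) = 2 := by
  set d : E → ℕ := fun e => (if src e = v then 1 else 0) + (if dst e = v then 1 else 0) with hd
  have hle : ∀ j, ∑ e ∈ C j, d e ≤ 2 := by
    intro j
    have h1 : ∑ e ∈ C j, d e ≤ ∑ e, d e :=
      sum_le_sum_of_subset (subset_univ _)
    have h2 : ∑ e, d e = 3 := h3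
    have h5 : Even (∑ e ∈ C j, d e) := hC j v
    rw [h2] at h1
    obtain ⟨k, hk⟩ := h5
    omega
  have hs : ∑ j, ∑ e ∈ C j, d e = 12 := by
    have h1 : ∀ j, ∑ e ∈ C j, d e = ∑ e, if e ∈ C j then d e else 0 := by
      intro j
      rw [sum_ite_mem, univ_inter]
    rw [sum_congr rfl fun j _ => h1 j, sum_comm]
    have h2 : ∀ e, (∑ j, if e ∈ C j then d e else 0) = 4 * d e := by
      intro e
      rw [← sum_filter, sum_const, h4, smul_eq_mul]
    rw [sum_congr rfl fun e _ => h2 e, ← mul_sum]
    have h2 : ∑ e, d e = 3 := h3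
    rw [h2]
    rfl
  rw [Fin.sum_univ_six] at hs
  exact six_two (fun j => ∑ e ∈ C j, d e) hle hs i

/-- covers of every edge exactly `4 q` times by `6 q` cycles -/
theorem mult {src dst : E → V} (h : Six src dst) (q : ℕ) :
    ∃ C : Fin (6 * q) → Finset E, (∀ i, Cyc src dst (C i)) ∧
      ∀ e, (univ.filter (fun i => e ∈ C i)).card = 4 * q := by
  obtain ⟨C, hC, h4⟩ := h
  refine ⟨fun i => C (finProdFinEquiv.symm i).1, fun i => hC _, fun e => ?_⟩
  have h1 : (univ.filter (fun i : Fin (6 * q) => e ∈ C (finProdFinEquiv.symm i).1)).card =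
      (univ.filter (fun p : Fin 6 × Fin q => e ∈ C p.1)).card := by
    refine card_bij (fun i _ => finProdFinEquiv.symm i) ?_ ?_ ?_
    · intro i hi
      simpa using hi
    · intro i _ j _ hij
      exact finProdFinEquiv.symm.injective hij
    · intro p hp
      refine ⟨finProdFinEquiv p, ?_, Equiv.symm_apply_apply _ _⟩
      rw [mem_filter] at hp ⊢
      refine ⟨mem_univ _, ?_⟩
      rw [Equiv.symm_apply_apply]
      exact hp.2
  have h2 : univ.filter (fun p : Fin 6 × Fin q => e ∈ C p.1) =
      (univ.filter (fun i => e ∈ C i)) ×ˢ (univ : Finset (Fin q)) := by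
    ext p
    simp
  rw [h1, h2, card_product, h4, card_univ, Fintype.card_fin]

/-- minimal nonempty cycles -/
def Circ (src dst : E → V) (C : Finset E) : Prop :=
  C.Nonempty ∧ Cyc src dst C ∧ ∀ D ⊆ C, D.Nonempty → Cyc src dst D → D = C

theorem cyc_sdiff {src dst : E → V} {C D : Finset E} (h : C ⊆ D) (hC : Cyc src dst C)
    (hD : Cyc src dst D) : Cyc src dst (D \ C) := by
  intro v
  have h1 := sum_sdiff (f := fun e => ((if src e = v then 1 else 0) + (if dst e = v then 1 else 0)))
    h
  have h2 := hC v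
  have h3 := hD v
  rw [← h1] at h3
  exact (Nat.even_add.mp h3).mpr h2

/-- a cycle is the disjoint union of circuits -/
theorem decomp {src dst : E → V} (n : ℕ) : ∀ D : Finset E, D.card = n → Cyc src dst D →
    ∃ F : Multiset (Finset E), (∀ C ∈ F, Circ src dst C) ∧ (∀ e ∈ D, ∃ C ∈ F, e ∈ C) ∧
      (F.map Finset.card).sum = D.card := by
  classical
  induction n using Nat.strong_induction_on with
  | _ n ih =>
    intro D hn hD
    by_cases h0 : D.Nonempty
    · have hex : ((D.powerset).filter (fun C => C.Nonempty ∧ Cyc src dst C)).Nonempty :=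
        ⟨D, mem_filter.mpr ⟨mem_powerset_self D, h0, hD⟩⟩
      obtain ⟨C, hC, hmin⟩ := exists_min_image _ (fun C : Finset E => C.card) hex
      rw [mem_filter, mem_powerset] at hC
      obtain ⟨hCD, hne, hcyc⟩ := hC
      have hcirc : Circ src dst C := by
        refine ⟨hne, hcyc, fun B hB hBn hBc => ?_⟩
        have h1 := hmin B (mem_filter.mpr ⟨mem_powerset.mpr (hB.trans hCD), hBn, hBc⟩)
        exact eq_of_subset_of_card_le hB h1
      have hcard : (D \ C).card + C.card = D.card := card_sdiff_add_card_eq_card hCD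
      have hpos : 0 < C.card := card_pos.mpr hne
      obtain ⟨F, f1, f2, f3⟩ := ih (D \ C).card (by omega) (D \ C) rfl (cyc_sdiff hCD hcyc hD)
      refine ⟨C ::ₘ F, ?_, ?_, ?_⟩
      · intro B hB
        rcases Multiset.mem_cons.mp hB with h | h
        · rw [h]; exact hcirc
        · exact f1 B h
      · intro e he
        by_cases heC : e ∈ C
        · exact ⟨C, Multiset.mem_cons_self _ _, heC⟩
        · obtain ⟨B, hB, heB⟩ := f2 e (mem_sdiff.mpr ⟨he, heC⟩)
          exact ⟨B, Multiset.mem_cons_of_mem hB, heB⟩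
      · rw [Multiset.map_cons, Multiset.sum_cons, f3]
        omega
    · rw [not_nonempty_iff_eq_empty] at h0
      subst h0
      exact ⟨0, by simp, by simp, by simp⟩

/-- the complement of a 2-factor of a cubic graph is a perfect matching -/
theorem compl_one {src dst : E → V} {C : Finset E} {v : V}
    (h3 : ∑ e, ((if src e = v then 1 else 0) + (if dst e = v then 1 else 0)) = 3)
    (h2 : ∑ e ∈ C, ((if src e = v then 1 else 0) + (if dst e = v then 1 else 0)) = 2) :
    ∑ e ∈ Cᶜ, ((if src e = v then 1 else 0) + (if dst e = v then 1 else 0)) = 1 := by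
  have h := sum_add_sum_compl C
    (fun e => ((if src e = v then 1 else 0) + (if dst e = v then 1 else 0)))
  rw [h2, h3] at h
  omega

/-- a cycle has an even number of edges in every cut -/
theorem cut_even {src dst : E → V} {C : Finset E} (hC : Cyc src dst C) (X : Finset V) :
    Even (C.filter (fun e => ¬ (src e ∈ X ↔ dst e ∈ X))).card := by
  have h1 : Even (∑ v ∈ X, ∑ e ∈ C, ((if src e = v then 1 else 0) +
      (if dst e = v then 1 else 0))) := even_sum _ (fun v _ => hC v)
  rw [sum_comm] at h1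
  have h2 : ∀ e, (∑ v ∈ X, ((if src e = v then 1 else 0) + (if dst e = v then 1 else 0))) =
      (if src e ∈ X then 1 else 0) + (if dst e ∈ X then 1 else 0) := by
    intro e
    rw [sum_add_distrib, sum_ite_eq, sum_ite_eq]
  rw [sum_congr rfl fun e _ => h2 e] at h1
  rw [← ZMod.natCast_eq_zero_iff_even] at h1 ⊢
  refine Eq.trans ?_ h1
  rw [card_filter, Nat.cast_sum, Nat.cast_sum]
  refine sum_congr rfl fun e _ => ?_
  by_cases a : src e ∈ X <;> by_cases b : dst e ∈ X <;> simp [a, b]
  decide

/-- an odd cut is not contained in two of the three perfect matchings -/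
theorem two_pm {src dst : E → V} (h : Six src dst)
    (h3 : ∀ v, ∑ e, ((if src e = v then 1 else 0) + (if dst e = v then 1 else 0)) = 3) :
    ∃ M₁ M₂ : Finset E,
      (∀ v, ∑ e ∈ M₁, ((if src e = v then 1 else 0) + (if dst e = v then 1 else 0)) = 1) ∧
      (∀ v, ∑ e ∈ M₂, ((if src e = v then 1 else 0) + (if dst e = v then 1 else 0)) = 1) ∧
      ∀ X : Finset V, Odd (univ.filter (fun e => ¬ (src e ∈ X ↔ dst e ∈ X))).card →
        ¬ univ.filter (fun e => ¬ (src e ∈ X ↔ dst e ∈ X)) ⊆ M₁ ∩ M₂ := by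
  obtain ⟨C, hC, h4⟩ := h
  refine ⟨(C 0)ᶜ, (C 1)ᶜ, fun v => compl_one (h3 v) (factor hC h4 v (h3 v) 0),
    fun v => compl_one (h3 v) (factor hC h4 v (h3 v) 1), fun X hX hsub => ?_⟩
  have h5 := cut_even (hC 2) X
  have h6 : univ.filter (fun e => ¬ (src e ∈ X ↔ dst e ∈ X)) =
      (C 2).filter (fun e => ¬ (src e ∈ X ↔ dst e ∈ X)) := by
    apply subset_antisymm
    · intro e he
      have h7 := hsub he
      rw [mem_inter, mem_compl, mem_compl] at h7
      rw [mem_filter] at he ⊢
      refine ⟨?_, he.2⟩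
      rcases three_cover h4 (i := 0) (j := 1) (k := 2) (by decide) (by decide) (by decide) e
        with h | h | h
      · exact absurd h h7.1
      · exact absurd h h7.2
      · exact h
    · exact filter_subset_filter _ (subset_univ _)
  rw [h6] at hX
  exact (Nat.not_even_iff_odd.mpr hX) h5

/-- every vertex has degree one in `M` -/
def Pm (src dst : E → V) (M : Finset E) : Prop :=
  ∀ v, ∑ e ∈ M, ((if src e = v then 1 else 0) + (if dst e = v then 1 else 0)) = 1

/-- six perfect matchings of a cubic graph -/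
theorem six_pm {src dst : E → V} (h : Six src dst)
    (h3 : ∀ v, ∑ e, ((if src e = v then 1 else 0) + (if dst e = v then 1 else 0)) = 3) :
    ∃ P : Fin 6 → Finset E, (∀ i, Pm src dst (P i)) ∧
      ∀ e, (univ.filter (fun i => e ∈ P i)).card = 2 := by
  obtain ⟨C, hC, h4⟩ := h
  refine ⟨fun i => (C i)ᶜ, fun i v => compl_one (h3 v) (factor hC h4 v (h3 v) i), fun e => ?_⟩
  have h1 := card_filter_add_card_filter_not (s := (univ : Finset (Fin 6))) (fun i => e ∈ C i)
  rw [h4 e, card_univ, Fintype.card_fin] at h1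
  have h2 : univ.filter (fun i => e ∈ (C i)ᶜ) = univ.filter (fun i => ¬ e ∈ C i) := by
    ext i
    simp
  rw [h2]
  omega


/-- degrees -/
theorem deg_eq (s t : E → V) (D : Finset E) (v : V) :
    ∑ e ∈ D, ((if s e = v then 1 else 0) + (if t e = v then 1 else 0)) =
      (D.filter (fun e => s e = v)).card + (D.filter (fun e => t e = v)).card := by
  rw [sum_add_distrib, card_filter, card_filter]

/-- **Six cycles for chains.** -/
theorem six_chain (s t : E → V) (hb : ∀ Y : Finset V, (crs s t Y).card ≠ 1) (m : ℕ)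
    (C : Fin m → Finset E)
    (h1 : ∀ i, St s t ((univ.filter (fun j => j < i)).biUnion C)
      (C i \ (univ.filter (fun j => j < i)).biUnion C))
    (ho : ((Finset.univ.image (comp s t (Finset.univ.biUnion C))).filter
      (fun X => Odd (crs s t X).card)).card ≤ 16) : Six s t := by
  obtain ⟨D, h2, h3⟩ := six_evenM s t hb m C h1 ho
  refine ⟨D, fun i v => ?_, h3⟩
  rw [deg_eq]
  exact h2 i v

/-- ten shortest cycle covers of the Petersen graph, as numbers in base two -/
def mk : Fin 10 → Fin 4 → ℕ :=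
  ![![31, 5680, 10337, 22916], ![31, 5680, 11458, 19208], ![31, 9604, 19208, 21601],
    ![31, 9604, 20674, 27184], ![31, 10337, 14088, 20674], ![1212, 10337, 19208, 20674],
    ![2393, 5680, 9604, 20674], ![4755, 9604, 10337, 19208], ![5680, 8487, 19208, 20674],
    ![5680, 9604, 10337, 16974]]

/-- their cycles -/
def mv (c : Fin 10) (k : Fin 4) (e : Fin 15) : ZMod 2 := if (mk c k).testBit e then 1 else 0

theorem mv_flow : ∀ (c : Fin 10) (k : Fin 4) (v : Fin 10),
    mv c k (pe v 0) + mv c k (pe v 1) + mv c k (pe v 2) = 0 := by decide +kernel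

theorem mv_cov : ∀ (c : Fin 10) (e : Fin 15), ∃ k, mv c k e = 1 := by decide +kernel

theorem mv_sum : ∀ e : Fin 15, ∑ c : Fin 10, ∑ k : Fin 4, (if mv c k e = 1 then 1 else 0) = 14 := by
  decide +kernel

/-- **Four cycles of total length at most 7 / 5 times the number of edges.** -/
theorem short4 (s t : E → V) (hb : ∀ Y : Finset V, (crs s t Y).card ≠ 1) (m : ℕ)
    (C : Fin m → Finset E)
    (h1 : ∀ i, St s t ((univ.filter (fun j => j < i)).biUnion C)
      (C i \ (univ.filter (fun j => j < i)).biUnion C))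
    (ho : ((Finset.univ.image (comp s t (Finset.univ.biUnion C))).filter
      (fun X => Odd (crs s t X).card)).card ≤ 16) :
    ∃ D : Fin 4 → Finset E, (∀ k, Cyc s t (D k)) ∧ (∀ e, ∃ k, e ∈ D k) ∧
      5 * ∑ k, (D k).card ≤ 7 * Fintype.card E := by
  classical
  obtain ⟨f, hf⟩ := petMapM Pool.Agent.Y335.FL.circEx s t m C h1 (n1_crs _ _ hb)
    (fun r q1 q3 => h16_of s t (univ.biUnion C) ho r q1 q3)
  obtain ⟨c, _, hle⟩ := exists_le_of_sum_le (s := (univ : Finset (Fin 10)))
    (f := fun c : Fin 10 => 5 * ∑ k : Fin 4, (univ.filter fun e => mv c k (f e) = 1).card)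
    (g := fun _ => 7 * Fintype.card E) ⟨0, mem_univ _⟩ (by
      rw [← mul_sum, sum_const, card_univ, Fintype.card_fin, smul_eq_mul]
      have h1 : ∀ c : Fin 10, ∑ k : Fin 4, (univ.filter fun e => mv c k (f e) = 1).card =
          ∑ e, ∑ k : Fin 4, (if mv c k (f e) = 1 then 1 else 0) := by
        intro c
        rw [sum_comm]
        exact sum_congr rfl fun k _ => card_filter _ _
      rw [sum_congr rfl fun c _ => h1 c, sum_comm, sum_congr rfl fun e _ => mv_sum (f e),
        sum_const, card_univ, smul_eq_mul]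
      omega)
  refine ⟨fun k => univ.filter fun e => mv c k (f e) = 1, ?_, ?_, hle⟩
  · intro k v
    rw [deg_eq]
    have h1 := hf (mv c k) (mv_flow c k) v
    rw [← ZMod.natCast_eq_zero_iff_even]
    refine Eq.trans ?_ h1
    rw [Nat.cast_add, filter_filter, filter_filter, card_filter, card_filter, Nat.cast_sum,
      Nat.cast_sum, ← sum_add_distrib]
    unfold bd2
    refine sum_congr rfl fun e _ => ?_
    have h2 : ∀ a : ZMod 2, a = 0 ∨ a = 1 := by decide
    simp only [Function.comp]
    rcases h2 (mv c k (f e)) with h3 | h3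
    · rw [h3]
      split_ifs <;> simp_all
    · rw [h3]
      simp only [true_and]
      split_ifs <;> simp
  · intro e
    obtain ⟨k, hk⟩ := mv_cov c (f e)
    exact ⟨k, mem_filter.2 ⟨mem_univ _, hk⟩⟩

/-- covers by circuits -/
theorem short (s t : E → V) (h : ∃ D : Fin 4 → Finset E, (∀ k, Cyc s t (D k)) ∧
      (∀ e, ∃ k, e ∈ D k) ∧ 5 * ∑ k, (D k).card ≤ 7 * Fintype.card E) :
    ∃ F : Multiset (Finset E), (∀ C ∈ F, Circ s t C) ∧ (∀ e, ∃ C ∈ F, e ∈ C) ∧
      5 * (F.map Finset.card).sum ≤ 7 * Fintype.card E := by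
  obtain ⟨D, h1, h2, h3⟩ := h
  choose F a1 a2 a3 using fun k => decomp _ (D k) rfl (h1 k)
  refine ⟨∑ k, F k, ?_, ?_, ?_⟩
  · intro C hC
    rw [Multiset.mem_sum] at hC
    obtain ⟨k, -, hk⟩ := hC
    exact a1 k C hk
  · intro e
    obtain ⟨k, hk⟩ := h2 e
    obtain ⟨C, hC, he⟩ := a2 k e hk
    exact ⟨C, Multiset.mem_sum.2 ⟨k, mem_univ _, hC⟩, he⟩
  · have h4 : ((∑ k, F k).map Finset.card).sum = ∑ k, (D k).card := by
      rw [Fin.sum_univ_four, Fin.sum_univ_four]
      simp only [Multiset.map_add, Multiset.sum_add, a3]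
    rw [h4]
    exact h3

end Pool.Agent.R926.SC.Cor
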